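import Pool.Agent.K9h53.LX.Defs

/-!
Project LX (helper53): algebra of the resolution.
-/

set_option autoImplicit false

namespace Pool.Agent.K9h53.LX

open Finset Filter
open Pool.Agent.H376R2.MR (lam)
open Pool.Agent.W78.GT
open Pool.Agent.W78.GA (lam_mul)
open Pool.Agent.W500.GT (exc_mono exc_prime_mul exc_mul_sqf exc_eq_zero lam_sq Tm Tm_inj Tm_NT B1 B2
  TT TT_one TT_mem T3 mem_PP PP)
open Pool.Agent.W583.GT (Z3 rd toZ)
open Pool.Agent.K9h53.LQ (fQ)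

variable {a b c : ℤ}

/-! ### triples -/

lemma toNat_cast (ha : 0 < a) : ((a.toNat : ℕ) : ℤ) = a := Int.toNat_of_nonneg ha.le

lemma toNat_castR (ha : 0 < a) : ((a.toNat : ℕ) : ℝ) = a := by
  exact_mod_cast toNat_cast ha

lemma toNat_pos' (ha : 0 < a) : 0 < a.toNat := by omega

lemma em_inj (ha : 0 < a) {e f : Tr} (h : em a e = em a f) : e = f := by
  unfold em at h
  simp only [Prod.mk.injEq] at h
  obtain ⟨h1, h2, h3⟩ := h
  refine Prod.ext h1 (Prod.ext (mul_left_cancel₀ ha.ne' h2) ?_)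
  exact Nat.eq_of_mul_eq_mul_left (toNat_pos' ha) h3

lemma Qp_em (n : ℤ) : Qp b (a * c) (a * n) = a * fQ a b c n := by
  unfold Qp LQ.fQ
  ring

lemma em_ok (ha : 0 < a) {e : Tr} (h : FOk a b c e) :
    Pool.Agent.W500.GT.TrOk b (a * c) (em a e) := by
  obtain ⟨h1, h2, h3, h4, h5⟩ := h
  refine ⟨h1, Nat.mul_pos (toNat_pos' ha) h2, ?_, ?_⟩
  · unfold em
    simp only
    push_cast
    rw [toNat_cast ha, Qp_em, ← h3]
    ring
  · unfold em
    simp only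
    linarith

lemma em_mem (ha : 0 < a) {X₁ X₂ : ℝ} {e : Tr} (h : FOk a b c e) (h1 : (e.1 : ℝ) ≤ X₁)
    (h2 : (e.2.2 : ℝ) ≤ X₂) : em a e ∈ tri b (a * c) X₁ (a * X₂) := by
  rw [Pool.Agent.W500.GT.mem_tri']
  refine ⟨em_ok ha h, h1, ?_⟩
  unfold em
  simp only
  push_cast
  rw [toNat_castR ha]
  have : (0 : ℝ) ≤ a := by exact_mod_cast ha.le
  exact mul_le_mul_of_nonneg_left h2 this

lemma mem_ftri (ha : 0 < a) {X₁ X₂ : ℝ} {e : Tr} :
    e ∈ ftri a b c X₁ X₂ ↔ FOk a b c e ∧ (e.1 : ℝ) ≤ X₁ ∧ (e.2.2 : ℝ) ≤ X₂ := by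
  classical
  unfold ftri
  rw [mem_filter]
  refine ⟨fun h => h.2, fun h => ⟨?_, h⟩⟩
  rw [mem_image]
  refine ⟨em a e, em_mem ha h.1 h.2.1 h.2.2, ?_⟩
  unfold em
  simp only
  rw [Int.mul_ediv_cancel_left _ ha.ne', Nat.mul_div_cancel_left _ (toNat_pos' ha)]

lemma FNT_ne_zero {e : Tr} (h : FOk a b c e) : NT e ≠ 0 := by
  obtain ⟨h1, h2, -⟩ := h
  unfold NT
  exact Nat.mul_ne_zero (by omega) (by omega)

lemma FNT_fQ {e : Tr} (h : FOk a b c e) : ((NT e : ℕ) : ℤ) = fQ a b c e.2.1 := by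
  rw [← h.2.2.1]
  unfold NT
  push_cast
  rfl

/-- the primes with `l² ∣ A B` -/
lemma sf_of_sq (hH : Hf a b c) {e : Tr} (h : FOk a b c e) {l : ℕ} (hl : l.Prime)
    (h2 : l ^ 2 ∣ NT e) : Sf a b c l := by
  have h3 : (l : ℤ) ^ 2 ∣ fQ a b c e.2.1 := by
    rw [← FNT_fQ h]
    exact_mod_cast Int.natCast_dvd_natCast.2 h2
  have h4 : ¬ (l : ℤ) ∣ 2 * a * (b ^ 2 - 4 * (a * c)) := fun h5 => hH l hl h5 _ h3
  refine ⟨⟨hl, fun h5 => h4 ?_, a * e.2.1, ?_⟩, fun h5 => h4 ?_⟩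
  · have e1 : 2 * a * (b ^ 2 - 4 * (a * c)) = 2 * (b ^ 2 - 4 * (a * c)) * a := by ring
    rw [e1]
    exact h5.mul_right _
  · rw [Qp_em]
    exact ((dvd_pow_self _ two_ne_zero).trans h3).mul_left _
  · have e1 : 2 * a * (b ^ 2 - 4 * (a * c)) = a * (2 * (b ^ 2 - 4 * (a * c))) := by ring
    rw [e1]
    exact h5.mul_right _

/-! ### the first transformation -/

lemma Tm_fok {k : Bool} {w : ℕ} {e e' : Tr} (h : Tm k w e e') (he : FOk a b c e) :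
    FOk a b c e' := by
  have hN := Tm_NT h
  have hN0 := FNT_ne_zero he
  rw [← hN] at hN0
  have h1 : e'.1 ≠ 0 := by
    intro h0; apply hN0; unfold NT; rw [h0, zero_mul]
  have h2 : e'.2.2 ≠ 0 := by
    intro h0; apply hN0; unfold NT; rw [h0, mul_zero]
  refine ⟨by omega, by omega, ?_, ?_, ?_⟩
  · have h3 := FNT_fQ he
    rw [← hN] at h3
    unfold NT at h3
    push_cast at h3
    rw [h3, h.1]
  · rw [h.1]; exact he.2.2.2.1
  · rw [h.1]; exact he.2.2.2.2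

lemma Tm_ftri (ha : 0 < a) {k : Bool} {w : ℕ} (hw : w ≠ 0) {e e' : Tr}
    {X : ℝ} (h : Tm k w e e') (he : e ∈ ftri a b c X X) :
    e' ∈ ftri a b c (B1 k w X) (B2 k w X) := by
  rw [mem_ftri ha] at he
  rw [mem_ftri ha]
  have hw0 : (0 : ℝ) < w := by exact_mod_cast Nat.pos_of_ne_zero hw
  refine ⟨Tm_fok h he.1, ?_, ?_⟩
  · unfold Tm at h
    unfold B1
    cases k
    · simp only [Bool.false_eq_true, if_false] at h ⊢
      rw [le_div_iff₀ hw0]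
      have h1 := he.2.1
      rw [h.2.1] at h1
      push_cast at h1
      exact h1
    · simp only [if_true] at h ⊢
      rw [h.2.1]
      push_cast
      exact mul_le_mul_of_nonneg_right he.2.1 hw0.le
  · unfold Tm at h
    unfold B2
    cases k
    · simp only [Bool.false_eq_true, if_false] at h ⊢
      rw [h.2.2]
      push_cast
      exact mul_le_mul_of_nonneg_right he.2.2 hw0.le
    · simp only [if_true] at h ⊢
      rw [le_div_iff₀ hw0]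
      have h1 := he.2.2
      rw [h.2.2] at h1
      push_cast at h1
      exact h1

lemma Tm_em {k : Bool} {w : ℕ} {e e' : Tr} (h : Tm k w e e') : Tm k w (em a e) (em a e') := by
  obtain ⟨h1, h2⟩ := h
  refine ⟨?_, ?_⟩
  · unfold em
    simp only
    rw [h1]
  · cases k
    · simp only [Bool.false_eq_true, if_false] at h2 ⊢
      unfold em
      simp only
      exact ⟨h2.1, by rw [h2.2]; ring⟩
    · simp only [if_true] at h2 ⊢
      unfold em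
      simp only
      exact ⟨h2.1, by rw [h2.2]; ring⟩

/-- every triple has a type -/
lemma exists_type (hH : Hf a b c) {z : ℕ} {e : Tr} (he : FOk a b c e)
    (hsq : ¬ ∃ l : ℕ, l.Prime ∧ z < l ∧ l ^ 2 ∣ NT e) :
    ∃ s ∈ TT b (a * c) z, ∃ e', Tm s.1 s.2.1 e e' ∧
      ((s.2.2 = 1 ∧ exc (NT e) = 0) ∨
        (s.2.2.Prime ∧ s.2.2 ∣ e'.1 ∧ s.2.2 ∣ e'.2.2)) := by
  have hN := FNT_ne_zero he
  by_cases hex : exc (NT e) = 0
  · refine ⟨(false, 1, 1), TT_one z, e, ?_, Or.inl ⟨rfl, hex⟩⟩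
    unfold Tm
    simp
  · rw [exc_eq_zero hN, Nat.squarefree_iff_prime_squarefree] at hex
    push Not at hex
    obtain ⟨p, hp, hpp⟩ := hex
    rw [← sq] at hpp
    have hpz : p ≤ z := by
      by_contra hcon
      exact hsq ⟨p, hp, by omega, hpp⟩
    have hspl := (sf_of_sq hH he hp hpp).1
    have hpP : p ∈ PP b (a * c) z := mem_PP.2 ⟨hspl, hpz⟩
    have hpN : p ∣ e.1 * e.2.2 := (dvd_pow_self p two_ne_zero).trans hpp
    have hpp' : p ^ 2 ∣ e.1 * e.2.2 := hpp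
    by_cases h1 : p ∣ e.1
    · by_cases h2 : p ∣ e.2.2
      · refine ⟨(false, 1, p), TT_mem hpP (by unfold T3; simp), e, ?_, Or.inr ⟨hp, h1, h2⟩⟩
        unfold Tm
        simp
      · have hsq1 : p ^ 2 ∣ e.1 := by
          have hc : Nat.Coprime (p ^ 2) e.2.2 :=
            Nat.Coprime.pow_left 2 ((Nat.Prime.coprime_iff_not_dvd hp).2 h2)
          exact hc.dvd_of_dvd_mul_right hpp'
        obtain ⟨a', ha'⟩ := h1
        refine ⟨(false, p, p), TT_mem hpP (by unfold T3; simp), (a', e.2.1, e.2.2 * p), ?_,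
          Or.inr ⟨hp, ?_, ?_⟩⟩
        · unfold Tm
          simp only [Bool.false_eq_true, if_false]
          exact ⟨trivial, by rw [ha', mul_comm], trivial⟩
        · rw [ha', sq] at hsq1
          exact Nat.dvd_of_mul_dvd_mul_left hp.pos hsq1
        · exact Dvd.intro_left _ rfl
    · have h2 : p ∣ e.2.2 := by
        rcases (Nat.Prime.dvd_mul hp).1 hpN with h | h
        · exact absurd h h1
        · exact h
      have hsq2 : p ^ 2 ∣ e.2.2 := by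
        have hc : Nat.Coprime (p ^ 2) e.1 :=
          Nat.Coprime.pow_left 2 ((Nat.Prime.coprime_iff_not_dvd hp).2 h1)
        exact hc.dvd_of_dvd_mul_left hpp'
      obtain ⟨a', ha'⟩ := h2
      refine ⟨(true, p, p), TT_mem hpP (by unfold T3; simp), (e.1 * p, e.2.1, a'), ?_,
        Or.inr ⟨hp, ?_, ?_⟩⟩
      · unfold Tm
        simp only [if_true]
        exact ⟨trivial, trivial, by rw [ha', mul_comm]⟩
      · exact Dvd.intro_left _ rfl
      · rw [ha', sq] at hsq2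
        exact Nat.dvd_of_mul_dvd_mul_left hp.pos hsq2

/-! ### the resolution step -/

/-- the resolution step -/
structure Rf (a b : ℤ) (i j q : ℕ) (e f₀ f₁ f₂ : Tr) : Prop where
  hq : (q : ℤ) = 1 + a * i * j
  h1 : e.1 = q * f₁.1
  h01 : (f₀.1 : ℤ) = e.1 + (2 * a * e.2.1 + b) * j + a * e.2.2 * j ^ 2
  h02 : f₀.2.1 = e.2.1 + j * e.2.2
  h03 : f₀.2.2 = e.2.2
  h12 : f₁.2.1 = e.2.1 + i * f₁.1
  h13 : (f₁.2.2 : ℤ) = a * f₁.1 * i ^ 2 + (2 * a * e.2.1 + b) * i + q * e.2.2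
  h21 : f₂.1 = f₁.2.2
  h22 : f₂.2.1 = e.2.1 + i * f₁.1 + j * f₁.2.2
  h23 : f₂.2.2 = q * f₀.1

lemma Rf_of_dvd (ha : 0 < a) {i j q : ℕ} {e : Tr} (he : FOk a b c e)
    (hq : (q : ℤ) = 1 + a * i * j) (h : q ∣ e.1) :
    ∃ f₀ f₁ f₂ : Tr, Rf a b i j q e f₀ f₁ f₂ := by
  obtain ⟨d, hd⟩ := h
  obtain ⟨h1, h2, h3, h4, h5⟩ := he
  obtain ⟨x, hx⟩ : ∃ x : ℤ, x = e.1 + (2 * a * e.2.1 + b) * j + a * e.2.2 * j ^ 2 := ⟨_, rfl⟩
  obtain ⟨y, hy⟩ : ∃ y : ℤ, y = a * d * i ^ 2 + (2 * a * e.2.1 + b) * i + q * e.2.2 := ⟨_, rfl⟩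
  have hx0 : 0 ≤ x := by rw [hx]; positivity
  have hy0 : 0 ≤ y := by rw [hy]; positivity
  refine ⟨(x.toNat, e.2.1 + j * e.2.2, e.2.2), (d, e.2.1 + i * d, y.toNat),
    (y.toNat, e.2.1 + i * d + j * y.toNat, q * x.toNat), hq, hd, ?_, rfl, rfl, rfl, ?_, rfl, rfl,
    rfl⟩
  · simp only
    rw [Int.toNat_of_nonneg hx0, hx]
  · simp only
    rw [Int.toNat_of_nonneg hy0, hy]

lemma Rf_ok (ha : 0 < a) {i j q : ℕ} {e f₀ f₁ f₂ : Tr} (he : FOk a b c e)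
    (h : Rf a b i j q e f₀ f₁ f₂) : FOk a b c f₀ ∧ FOk a b c f₁ ∧ FOk a b c f₂ := by
  obtain ⟨e1, e2, e3, e4, e5⟩ := he
  obtain ⟨hq, r1, r01, r02, r03, r12, r13, r21, r22, r23⟩ := h
  have hq1 : 1 ≤ q := by
    have : (1 : ℤ) ≤ q := by
      rw [hq]
      have : 0 ≤ a * i * j := by positivity
      linarith
    exact_mod_cast this
  have hd1 : 1 ≤ f₁.1 := by
    rcases Nat.eq_zero_or_pos f₁.1 with h0 | h0
    · rw [h0, mul_zero] at r1
      omega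
    · exact h0
  have hγ : (1 : ℤ) ≤ e.2.2 := by exact_mod_cast e2
  have hA : (1 : ℤ) ≤ e.1 := by exact_mod_cast e1
  have hd : (1 : ℤ) ≤ f₁.1 := by exact_mod_cast hd1
  have hqZ : (1 : ℤ) ≤ q := by exact_mod_cast hq1
  have hi0 : (0 : ℤ) ≤ i := by positivity
  have hj0 : (0 : ℤ) ≤ j := by positivity
  have n0 : 0 ≤ (2 * a * e.2.1 + b) * (j : ℤ) := mul_nonneg e5 hj0
  have n0' : 0 ≤ (2 * a * e.2.1 + b) * (i : ℤ) := mul_nonneg e5 hi0
  have n1 : 0 ≤ a * e.2.2 * (j : ℤ) ^ 2 := by positivity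
  have n2 : 0 ≤ a * f₁.1 * (i : ℤ) ^ 2 := by positivity
  have hx1 : 1 ≤ f₀.1 := by
    have : (1 : ℤ) ≤ f₀.1 := by
      rw [r01]
      linarith
    exact_mod_cast this
  have hm1 : 1 ≤ f₁.2.2 := by
    have : (1 : ℤ) ≤ f₁.2.2 := by
      rw [r13]
      have : (1 : ℤ) ≤ q * e.2.2 := by nlinarith
      linarith
    exact_mod_cast this
  have r1Z : (e.1 : ℤ) = q * f₁.1 := by rw [r1]; push_cast; ring
  unfold LQ.fQ at e3
  refine ⟨⟨hx1, by rw [r03]; exact e2, ?_, ?_, ?_⟩, ⟨hd1, hm1, ?_, ?_, ?_⟩,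
    ⟨by rw [r21]; exact hm1, by rw [r23]; exact Nat.mul_pos hq1 hx1, ?_, ?_, ?_⟩⟩
  · rw [r01, r02, r03]
    unfold LQ.fQ
    linear_combination e3
  · rw [r02]
    nlinarith
  · rw [r02]
    have : 0 ≤ a * (j * (e.2.2 : ℤ)) := by positivity
    linarith
  · rw [r13, r12]
    unfold LQ.fQ
    linear_combination e3 - (e.2.2 : ℤ) * r1Z
  · rw [r12]
    nlinarith
  · rw [r12]
    have : 0 ≤ a * (i * (f₁.1 : ℤ)) := by positivity
    linarith
  · rw [r21, r22, r23]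
    push_cast
    unfold LQ.fQ
    rw [r01, r1Z]
    have hm := r13
    obtain ⟨m, hmm⟩ : ∃ m : ℤ, m = f₁.2.2 := ⟨_, rfl⟩
    obtain ⟨d, hdd⟩ : ∃ d : ℤ, d = f₁.1 := ⟨_, rfl⟩
    obtain ⟨γ, hγγ⟩ : ∃ γ : ℤ, γ = e.2.2 := ⟨_, rfl⟩
    rw [← hmm, ← hdd, ← hγγ] at hm
    rw [r1Z, ← hdd, ← hγγ] at e3
    rw [← hmm, ← hdd, ← hγγ]
    -- `f (n + i d) = d m`
    have h5 : d * m = a * (e.2.1 + i * d) ^ 2 + b * (e.2.1 + i * d) + c := by
      rw [hm]
      linear_combination e3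
    have h6 : m * (d + j * (2 * a * (e.2.1 + i * d) + b) + a * j ^ 2 * m) =
        a * (e.2.1 + i * d + j * m) ^ 2 + b * (e.2.1 + i * d + j * m) + c := by
      linear_combination h5
    rw [← h6]
    have h7 : (q : ℤ) * (q * d + (2 * a * e.2.1 + b) * j + a * γ * j ^ 2) =
        d + j * (2 * a * (e.2.1 + i * d) + b) + a * j ^ 2 * m := by
      rw [hm]
      rw [hq]
      ring
    rw [h7]
  · rw [r22]
    have : 0 ≤ (i : ℤ) * f₁.1 := by positivity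
    have : 0 ≤ (j : ℤ) * f₁.2.2 := by positivity
    linarith
  · rw [r22]
    have : 0 ≤ a * (i * (f₁.1 : ℤ)) := by positivity
    have : 0 ≤ a * (j * (f₁.2.2 : ℤ)) := by positivity
    linarith

lemma Rf_inj0 {i j q : ℕ} {e e' f₀ f₁ f₂ f₁' f₂' : Tr}
    (h : Rf a b i j q e f₀ f₁ f₂) (h' : Rf a b i j q e' f₀ f₁' f₂') : e = e' := by
  have h1 : e.2.2 = e'.2.2 := h.h03.symm.trans h'.h03
  have h2 : e.2.1 = e'.2.1 := by
    have g1 := h.h02
    have g2 := h'.h02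
    rw [h1] at g1
    linarith
  have h3 : (e.1 : ℤ) = e'.1 := by
    have g1 := h.h01
    have g2 := h'.h01
    rw [h1, h2] at g1
    linarith
  exact Prod.ext (by exact_mod_cast h3) (Prod.ext h2 h1)

lemma Rf_inj1 {i j q : ℕ} (hq : q ≠ 0) {e e' f₀ f₁ f₂ f₀' f₂' : Tr}
    (h : Rf a b i j q e f₀ f₁ f₂) (h' : Rf a b i j q e' f₀' f₁ f₂') : e = e' := by
  have h1 : e.1 = e'.1 := h.h1.trans h'.h1.symm
  have h2 : e.2.1 = e'.2.1 := by
    have g1 := h.h12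
    have g2 := h'.h12
    linarith
  have h3 : (q : ℤ) * e.2.2 = q * e'.2.2 := by
    have g1 := h.h13
    have g2 := h'.h13
    rw [h2] at g1
    linarith
  have h4 : (e.2.2 : ℤ) = e'.2.2 := mul_left_cancel₀ (by exact_mod_cast hq) h3
  exact Prod.ext h1 (Prod.ext h2 (by exact_mod_cast h4))

lemma Rf_inj2 {i j q : ℕ} (hq : q ≠ 0) {e e' f₀ f₁ f₂ f₀' f₁' : Tr}
    (h : Rf a b i j q e f₀ f₁ f₂) (h' : Rf a b i j q e' f₀' f₁' f₂) : e = e' := by
  have hqZ : (q : ℤ) ≠ 0 := by exact_mod_cast hq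
  have hx : (f₀.1 : ℤ) = f₀'.1 := by
    have g1 := h.h23.symm.trans h'.h23
    have := Nat.eq_of_mul_eq_mul_left (Nat.pos_of_ne_zero hq) g1
    exact_mod_cast this
  have hm : (f₁.2.2 : ℤ) = f₁'.2.2 := by
    have g1 := h.h21.symm.trans h'.h21
    exact_mod_cast g1
  have g1 := h.h22
  have g2 := h'.h22
  have k1 := h.h01
  have k2 := h'.h01
  have l1 := h.h13
  have l2 := h'.h13
  have m1 : (e.1 : ℤ) = q * f₁.1 := by rw [h.h1]; push_cast; ring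
  have m2 : (e'.1 : ℤ) = q * f₁'.1 := by rw [h'.h1]; push_cast; ring
  have hqq := h.hq
  rw [g1] at g2
  -- the difference of `n`
  obtain ⟨δ, hδ⟩ : ∃ δ : ℤ, δ = (f₁.1 : ℤ) - f₁'.1 := ⟨_, rfl⟩
  obtain ⟨ν, hν⟩ : ∃ ν : ℤ, ν = e.2.1 - e'.2.1 := ⟨_, rfl⟩
  obtain ⟨g, hg⟩ : ∃ g : ℤ, g = (e.2.2 : ℤ) - e'.2.2 := ⟨_, rfl⟩
  have hνd : ν = -(i * δ) := by
    rw [hν, hδ]
    linear_combination g2 - (j : ℤ) * hm
  have e1 : 0 = q * δ + 2 * a * ν * j + a * g * j ^ 2 := by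
    rw [hδ, hν, hg]
    linear_combination k1 - k2 - hx + m1 - m2
  have e2 : 0 = a * δ * i ^ 2 + 2 * a * ν * i + q * g := by
    rw [hδ, hν, hg]
    linear_combination l1 - l2 - hm
  have hδ0 : δ = 0 := by
    rw [hνd] at e1 e2
    rw [hqq] at e1 e2
    linear_combination (-(1 + a * i * j)) * e1 + (a * (j : ℤ) ^ 2) * e2
  have hν0 : ν = 0 := by rw [hνd, hδ0]; ring
  have hg0 : g = 0 := by
    rw [hδ0, hν0] at e2
    have e3 : (q : ℤ) * g = 0 := by linarith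
    rcases mul_eq_zero.1 e3 with h0 | h0
    · exact absurd h0 hqZ
    · exact h0
  have f1 : (f₁.1 : ℤ) = f₁'.1 := by linarith
  have f2 : e.2.1 = e'.2.1 := by linarith
  have f3 : (e.2.2 : ℤ) = e'.2.2 := by linarith
  refine Prod.ext ?_ (Prod.ext f2 (by exact_mod_cast f3))
  rw [h.h1, h'.h1]
  congr 1
  exact_mod_cast f1

/-- the value at `(1, j)` -/
lemma Rf_V1 (ha : 0 < a) {i j q : ℕ} {e f₀ f₁ f₂ : Tr} (h : Rf a b i j q e f₀ f₁ f₂) :
    V2 b 1 j (toZ (em a e)) = f₀.1 := by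
  rw [h.h01]
  unfold V2 Pool.Agent.W583.GT.toZ em
  simp only
  push_cast
  rw [toNat_cast ha]
  ring

/-- the value at `(a i, q)` -/
lemma Rf_Vq (ha : 0 < a) {i j q : ℕ} {e f₀ f₁ f₂ : Tr} (h : Rf a b i j q e f₀ f₁ f₂) :
    V2 b (a * i) q (toZ (em a e)) = q * (a * f₁.2.2) := by
  have m1 : (e.1 : ℤ) = q * f₁.1 := by rw [h.h1]; push_cast; ring
  rw [h.h13]
  unfold V2 Pool.Agent.W583.GT.toZ em
  simp only
  push_cast
  rw [toNat_cast ha, m1]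
  ring

lemma Rf_NT {i j q : ℕ} {e f₀ f₁ f₂ : Tr} (h : Rf a b i j q e f₀ f₁ f₂) :
    NT e = q * f₁.1 * e.2.2 ∧ NT f₀ = f₀.1 * e.2.2 ∧ NT f₁ = f₁.1 * f₁.2.2 ∧
      NT f₂ = f₁.2.2 * (q * f₀.1) := by
  unfold NT
  refine ⟨by rw [h.h1], by rw [h.h03], rfl, by rw [h.h21, h.h23]⟩

/-- the signs -/
lemma lam_key (ha : 0 < a) {i j q : ℕ} {e f₀ f₁ f₂ : Tr} (he : FOk a b c e)
    (h : Rf a b i j q e f₀ f₁ f₂) : lam (NT f₀) * lam (NT f₁) * lam (NT f₂) = lam (NT e) := by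
  obtain ⟨o0, o1, o2⟩ := Rf_ok ha he h
  obtain ⟨hNe, hN0, hN1, hN2⟩ := Rf_NT h
  have hN := FNT_ne_zero he
  have n0 := FNT_ne_zero o0
  have n1 := FNT_ne_zero o1
  have n2 := FNT_ne_zero o2
  have hprod : NT f₀ * NT f₁ * NT f₂ = NT e * ((f₀.1 * f₁.2.2) * (f₀.1 * f₁.2.2)) := by
    rw [hN0, hN1, hN2, hNe]; ring
  have hy : f₀.1 * f₁.2.2 ≠ 0 := by
    have := o0.1
    have := o1.2.1
    exact mul_ne_zero (by omega) (by omega)
  rw [← lam_mul n0 n1, ← lam_mul (mul_ne_zero n0 n1) n2, hprod,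
    lam_mul hN (Nat.mul_ne_zero hy hy), lam_mul hy hy, lam_sq, mul_one]

/-- the excess decreases -/
lemma exc_key {i j p q : ℕ} {e f₀ f₁ f₂ : Tr}
    (he : FOk a b c e) (ha : 0 < a) (hq : q.Prime) (hqp : q ≠ p) (h : Rf a b i j q e f₀ f₁ f₂)
    (hx : ∀ l : ℕ, l.Prime → l ∣ f₀.1 → ¬ l ∣ e.2.2 ∧ ¬ l ^ 2 ∣ f₀.1 ∧ l ≠ q)
    (hy : ∀ l : ℕ, l.Prime → l ∣ f₁.2.2 → ¬ l ∣ f₁.1 ∧ ¬ l ^ 2 ∣ f₁.2.2 ∧ l ≠ q ∧ ¬ l ∣ f₀.1)
    (hp : (p = 1 ∧ exc (NT e) = 0) ∨ (p.Prime ∧ p ∣ e.1 ∧ p ∣ e.2.2)) :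
    exc (NT f₀) ≤ exc (NT e) - 1 ∧ exc (NT f₁) ≤ exc (NT e) - 1 ∧
      exc (NT f₂) ≤ exc (NT e) - 1 := by
  obtain ⟨o0, o1, o2⟩ := Rf_ok ha he h
  obtain ⟨hNe, hN0, hN1, hN2⟩ := Rf_NT h
  have hN := FNT_ne_zero he
  have hγ0 : e.2.2 ≠ 0 := by have := he.2.1; omega
  have hd0 : f₁.1 ≠ 0 := by have := o1.1; omega
  have hsx : Squarefree f₀.1 := by
    rw [Nat.squarefree_iff_prime_squarefree]
    intro l hl hll
    rw [← sq] at hll
    exact (hx l hl ((dvd_pow_self l two_ne_zero).trans hll)).2.1 hll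
  have hsy : Squarefree f₁.2.2 := by
    rw [Nat.squarefree_iff_prime_squarefree]
    intro l hl hll
    rw [← sq] at hll
    exact (hy l hl ((dvd_pow_self l two_ne_zero).trans hll)).2.1 hll
  have hc0 : Nat.Coprime e.2.2 f₀.1 := by
    apply Nat.Coprime.symm
    apply Nat.coprime_of_dvd
    intro l hl h1 h2
    exact (hx l hl h1).1 h2
  have hc1 : Nat.Coprime f₁.1 f₁.2.2 := by
    apply Nat.Coprime.symm
    apply Nat.coprime_of_dvd
    intro l hl h1 h2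
    exact (hy l hl h1).1 h2
  have hcqx : Nat.Coprime q f₀.1 := by
    rw [Nat.Prime.coprime_iff_not_dvd hq]
    intro h1
    exact (hx q hq h1).2.2 rfl
  have hc2 : Nat.Coprime f₁.2.2 (q * f₀.1) := by
    apply Nat.coprime_of_dvd
    intro l hl h1 h2
    rcases (Nat.Prime.dvd_mul hl).1 h2 with h3 | h3
    · exact (hy l hl h1).2.2.1 ((Nat.prime_dvd_prime_iff_eq hl hq).1 h3)
    · exact (hy l hl h1).2.2.2 h3
  have hs2 : Squarefree (NT f₂) := by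
    rw [hN2]
    rw [Nat.squarefree_mul hc2, Nat.squarefree_mul hcqx]
    exact ⟨hsy, hq.squarefree, hsx⟩
  have he2 : exc (NT f₂) = 0 := (exc_eq_zero (FNT_ne_zero o2)).2 hs2
  have he0 : exc (NT f₀) = exc e.2.2 := by
    rw [hN0, mul_comm]
    exact exc_mul_sqf hγ0 hsx hc0
  have he1 : exc (NT f₁) = exc f₁.1 := by
    rw [hN1]
    exact exc_mul_sqf hd0 hsy hc1
  rw [he0, he1, he2]
  refine ⟨?_, ?_, Nat.zero_le _⟩
  · rcases hp with ⟨_, h0⟩ | ⟨hp, hp1, hp2⟩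
    · have h1 : exc e.2.2 ≤ exc (NT e) := exc_mono (hNe ▸ Dvd.intro_left _ rfl) hN
      omega
    · have h1 : exc (p * e.2.2) ≤ exc (NT e) := by
        apply exc_mono _ hN
        unfold NT
        exact mul_dvd_mul hp1 dvd_rfl
      rw [exc_prime_mul hp hγ0 hp2] at h1
      omega
  · rcases hp with ⟨_, h0⟩ | ⟨hp, hp1, hp2⟩
    · have h1 : exc f₁.1 ≤ exc (NT e) := by
        apply exc_mono _ hN
        rw [hNe]
        exact (Dvd.intro_left q rfl).mul_right _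
      omega
    · have hpd : p ∣ f₁.1 := by
        rw [h.h1] at hp1
        rcases (Nat.Prime.dvd_mul hp).1 hp1 with h3 | h3
        · exact absurd ((Nat.prime_dvd_prime_iff_eq hp hq).1 h3).symm hqp
        · exact h3
      have h1 : exc (p * f₁.1) ≤ exc (NT e) := by
        apply exc_mono _ hN
        rw [hNe]
        have h2 : p * f₁.1 ∣ e.2.2 * (q * f₁.1) := mul_dvd_mul hp2 (Dvd.intro_left q rfl)
        rwa [mul_comm e.2.2] at h2
      rw [exc_prime_mul hp hd0 hpd] at h1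
      omega

/-- local analysis -/
lemma local_key (ha : 0 < a) (hH : Hf a b c) {z i j q : ℕ} {L : ℝ} {Q : Finset ℕ}
    {e f₀ f₁ f₂ : Tr} (he : FOk a b c e) (h : Rf a b i j q e f₀ f₁ f₂) (hj : 1 ≤ j)
    (hq : q.Prime) (hzq : z < q) (hqQ : q ∈ Q)
    (hloc : ∀ l : ℕ, Sf a b c l → l ≤ z →
      ¬ (l : ℤ) ∣ V2 b 1 j (toZ (em a e)) ∧
        ¬ (l : ℤ) ∣ V2 b ((q - 1 : ℤ) / j) q (toZ (em a e)))
    (hbad : ¬ Bad b (a * c) z L j Q (em a e))
    (hbig : ∀ l : ℕ, l.Prime → L < l → ¬ l ^ 2 ∣ NT f₀ ∧ ¬ l ^ 2 ∣ NT f₁ ∧ ¬ l ^ 2 ∣ NT f₂) :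
    (∀ l : ℕ, l.Prime → l ∣ f₀.1 → ¬ l ∣ e.2.2 ∧ ¬ l ^ 2 ∣ f₀.1 ∧ l ≠ q) ∧
    (∀ l : ℕ, l.Prime → l ∣ f₁.2.2 → ¬ l ∣ f₁.1 ∧ ¬ l ^ 2 ∣ f₁.2.2 ∧ l ≠ q ∧ ¬ l ∣ f₀.1) := by
  obtain ⟨o0, o1, o2⟩ := Rf_ok ha he h
  obtain ⟨hNe, hN0, hN1, hN2⟩ := Rf_NT h
  have hI : ((q - 1 : ℤ) / j) = a * i := by
    have hj0 : (j : ℤ) ≠ 0 := by
      have : (1 : ℤ) ≤ j := by exact_mod_cast hj
      omega
    rw [h.hq]
    have e1 : (1 + a * i * j - 1 : ℤ) = a * i * j := by ring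
    rw [e1, Int.mul_ediv_cancel _ hj0]
  have hV1 := Rf_V1 ha h
  have hVq := Rf_Vq ha h
  unfold Bad at hbad
  push Not at hbad
  obtain ⟨hb1, hb2⟩ := hbad
  have hqe : q ∣ e.1 := Dvd.intro _ h.h1.symm
  have hqem : q ∣ (em a e).1 := hqe
  obtain ⟨hb3, hb4⟩ := hb2 q hqQ hqem
  rw [hI] at hb4
  -- the local condition
  have hl0 : ∀ l : ℕ, Sf a b c l → l ≤ z → ¬ l ∣ f₀.1 ∧ ¬ l ∣ f₁.2.2 := by
    intro l hl hlz
    obtain ⟨g1, g2⟩ := hloc l hl hlz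
    rw [hI, hVq] at g2
    rw [hV1] at g1
    refine ⟨fun hd => g1 (Int.natCast_dvd_natCast.2 hd), fun hd => g2 ?_⟩
    exact ((Int.natCast_dvd_natCast.2 hd).mul_left _).mul_left _
  constructor
  · intro l hl hlx
    by_contra hcon
    have hviol : l ∣ e.2.2 ∨ l ^ 2 ∣ f₀.1 ∨ l = q := by
      by_contra h3
      push Not at h3
      exact hcon h3
    -- a square divides one of the products
    have hsq : l ^ 2 ∣ NT f₀ ∨ l ^ 2 ∣ NT f₂ := by
      rcases hviol with h3 | h3 | h3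
      · left
        rw [hN0, sq]
        exact mul_dvd_mul hlx h3
      · left
        rw [hN0]
        exact h3.mul_right _
      · right
        rw [hN2, sq]
        refine Dvd.dvd.mul_left ?_ _
        rw [h3] at hlx ⊢
        exact mul_dvd_mul_left q hlx
    have hsf : Sf a b c l := by
      rcases hsq with h3 | h3
      · exact sf_of_sq hH o0 hl h3
      · exact sf_of_sq hH o2 hl h3
    by_cases hlz : l ≤ z
    · exact (hl0 l hsf hlz).1 hlx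
    · push Not at hlz
      rcases hviol with h3 | h3 | h3
      · by_cases hL : (l : ℝ) ≤ L
        · refine (hb1 l hsf.1 hlz hL ?_).1 ?_
          · rw [hV1]
            exact Int.natCast_dvd_natCast.2 hlx
          · show l ∣ a.toNat * e.2.2
            exact h3.mul_left _
        · push Not at hL
          rcases hsq with h4 | h4
          · exact (hbig l hl hL).1 h4
          · exact (hbig l hl hL).2.2 h4
      · by_cases hL : (l : ℝ) ≤ L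
        · refine (hb1 l hsf.1 hlz hL ?_).2 ?_
          · rw [hV1]
            exact Int.natCast_dvd_natCast.2 hlx
          · rw [hV1]
            exact_mod_cast Int.natCast_dvd_natCast.2 h3
        · push Not at hL
          rcases hsq with h4 | h4
          · exact (hbig l hl hL).1 h4
          · exact (hbig l hl hL).2.2 h4
      · apply hb3
        rw [hV1, ← h3]
        exact Int.natCast_dvd_natCast.2 hlx
  · intro l hl hly
    by_contra hcon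
    have hviol : l ∣ f₁.1 ∨ l ^ 2 ∣ f₁.2.2 ∨ l = q ∨ l ∣ f₀.1 := by
      by_contra h3
      push Not at h3
      exact hcon h3
    have hsq : l ^ 2 ∣ NT f₁ ∨ l ^ 2 ∣ NT f₂ := by
      rcases hviol with h3 | h3 | h3 | h3
      · left
        rw [hN1, sq]
        exact mul_dvd_mul h3 hly
      · left
        rw [hN1]
        exact h3.mul_left _
      · right
        rw [hN2, sq]
        exact mul_dvd_mul hly (h3 ▸ Dvd.intro _ rfl)
      · right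
        rw [hN2, sq]
        exact mul_dvd_mul hly (h3.mul_left _)
    have hsf : Sf a b c l := by
      rcases hsq with h3 | h3
      · exact sf_of_sq hH o1 hl h3
      · exact sf_of_sq hH o2 hl h3
    by_cases hlz : l ≤ z
    · exact (hl0 l hsf hlz).2 hly
    · push Not at hlz
      by_cases hL : (l : ℝ) ≤ L
      · have hly' : (l : ℤ) ∣ a * f₁.2.2 := (Int.natCast_dvd_natCast.2 hly).mul_left _
        obtain ⟨g1, g2, g3⟩ := hb4 l hsf.1 hlz hL (a * f₁.2.2) hVq.symm hly'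
        rcases hviol with h3 | h3 | h3 | h3
        · apply g1
          show l ∣ e.1
          rw [h.h1]
          exact h3.mul_left _
        · apply g3
          have : ((l ^ 2 : ℕ) : ℤ) ∣ (f₁.2.2 : ℤ) := Int.natCast_dvd_natCast.2 h3
          push_cast at this
          exact this.mul_left _
        · apply g1
          rw [h3]
          exact hqem
        · apply g2
          rw [hV1]
          exact Int.natCast_dvd_natCast.2 h3
      · push Not at hL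
        rcases hsq with h4 | h4
        · exact (hbig l hl hL).2.1 h4
        · exact (hbig l hl hL).2.2 h4

/-- the constant of the size of the new triples -/
def Kn (a b c : ℤ) : ℕ := 1 + 5 * a.toNat + (b ^ 2 - 4 * (a * c)).natAbs

/-- the size of the new triples -/
lemma size_key (ha : 0 < a) {i j q : ℕ} {W X : ℝ} {e f₀ f₁ f₂ : Tr}
    (he : FOk a b c e) (hj : 1 ≤ j) (hi : 1 ≤ i) (h : Rf a b i j q e f₀ f₁ f₂)
    (hX : 1 ≤ X) (hW : 1 ≤ W)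
    (h1 : (e.1 : ℝ) ≤ W * X) (h2 : (e.2.2 : ℝ) ≤ W * X) :
    f₀ ∈ ftri a b c (Kn a b c * q ^ 3 * W * X) (Kn a b c * q ^ 3 * W * X) ∧
      f₁ ∈ ftri a b c (Kn a b c * q ^ 3 * W * X) (Kn a b c * q ^ 3 * W * X) ∧
      f₂ ∈ ftri a b c (Kn a b c * q ^ 3 * W * X) (Kn a b c * q ^ 3 * W * X) := by
  obtain ⟨o0, o1, o2⟩ := Rf_ok ha he h
  have haR : (1 : ℝ) ≤ a := by exact_mod_cast ha
  have hiR : (1 : ℝ) ≤ i := by exact_mod_cast hi
  have hjR : (1 : ℝ) ≤ j := by exact_mod_cast hj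
  have hqR : (q : ℝ) = 1 + a * i * j := by exact_mod_cast congrArg (fun s : ℤ => (s : ℝ)) h.hq
  have hij : (i : ℝ) * j ≤ a * i * j := by
    have : (0 : ℝ) ≤ i * j := by positivity
    nlinarith
  have hi1 : (i : ℝ) ≤ i * j := le_mul_of_one_le_right (by linarith) hjR
  have hj1 : (j : ℝ) ≤ i * j := le_mul_of_one_le_left (by linarith) hiR
  have hiq : (i : ℝ) ≤ q := by linarith
  have hjq : (j : ℝ) ≤ q := by linarith
  have hq1 : (1 : ℝ) ≤ q := by linarith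
  obtain ⟨Y, hY⟩ : ∃ Y : ℝ, Y = W * X := ⟨_, rfl⟩
  rw [← hY] at h1 h2
  have hY1 : 1 ≤ Y := by rw [hY]; nlinarith
  obtain ⟨D, hD⟩ : ∃ D : ℕ, D = (b ^ 2 - 4 * (a * c)).natAbs := ⟨_, rfl⟩
  have hD0 : (0 : ℝ) ≤ D := by positivity
  have hK : ((Kn a b c : ℕ) : ℝ) = 1 + 5 * a + D := by
    unfold Kn
    push_cast
    rw [toNat_castR ha, hD]
  -- size of `2 a n + b`
  obtain ⟨β, hβ⟩ : ∃ β : ℤ, β = 2 * a * e.2.1 + b := ⟨_, rfl⟩
  have hβ0 : 0 ≤ β := by rw [hβ]; exact he.2.2.2.2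
  have hd : β ^ 2 = 4 * a * ((e.1 : ℤ) * e.2.2) + (b ^ 2 - 4 * (a * c)) := by
    rw [he.2.2.1, hβ]; unfold LQ.fQ; ring
  have hβR : (β : ℝ) ≤ (4 * a + D) * Y := by
    have e1 : (β : ℝ) ^ 2 = 4 * a * ((e.1 : ℝ) * e.2.2) + ((b ^ 2 - 4 * (a * c) : ℤ) : ℝ) := by
      exact_mod_cast hd
    have e2 : ((b ^ 2 - 4 * (a * c) : ℤ) : ℝ) ≤ D := by
      have : (b ^ 2 - 4 * (a * c)) ≤ ((D : ℕ) : ℤ) := by
        rw [hD]; exact Int.le_natAbs
      exact_mod_cast this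
    have e3 : (e.1 : ℝ) * e.2.2 ≤ Y * Y := by
      have : (0 : ℝ) ≤ e.1 := by positivity
      have : (0 : ℝ) ≤ e.2.2 := by positivity
      gcongr
    have e4 : 4 * (a : ℝ) * ((e.1 : ℝ) * e.2.2) ≤ 4 * a * (Y * Y) :=
      mul_le_mul_of_nonneg_left e3 (by positivity)
    have hYY : (1 : ℝ) ≤ Y * Y := by nlinarith
    have e5 : (β : ℝ) ^ 2 ≤ ((4 * a + D) * Y) ^ 2 := by
      rw [e1]
      have e6 : (D : ℝ) ≤ D * (Y * Y) := le_mul_of_one_le_right hD0 hYY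
      have e7 : ((4 * (a : ℝ) + D) * Y) ^ 2 = (4 * a + D) * ((4 * a + D) * (Y * Y)) := by ring
      rw [e7]
      have e8 : (4 * (a : ℝ) + D) * (Y * Y) ≤ (4 * a + D) * ((4 * a + D) * (Y * Y)) := by
        apply le_mul_of_one_le_left (by positivity)
        linarith
      nlinarith
    exact le_of_sq_le_sq e5 (by positivity)
  have hx : (f₀.1 : ℝ) ≤ (1 + 5 * a + D) * q ^ 2 * Y := by
    have e1 : (f₀.1 : ℝ) = e.1 + β * j + a * e.2.2 * j ^ 2 := by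
      rw [hβ]
      exact_mod_cast congrArg (fun s : ℤ => (s : ℝ)) h.h01
    rw [e1]
    have q2 : (1 : ℝ) ≤ q ^ 2 := one_le_pow₀ hq1
    have qq : (q : ℝ) ≤ q ^ 2 := by nlinarith
    have e2 : (e.1 : ℝ) ≤ q ^ 2 * Y := h1.trans (le_mul_of_one_le_left (by linarith) q2)
    have e3 : (β : ℝ) * j ≤ (4 * a + D) * (q ^ 2 * Y) := by
      calc (β : ℝ) * j ≤ ((4 * a + D) * Y) * q := by gcongr
        _ ≤ ((4 * a + D) * Y) * q ^ 2 := by gcongr
        _ = _ := by ring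
    have e4 : (a : ℝ) * e.2.2 * j ^ 2 ≤ a * (q ^ 2 * Y) := by
      calc (a : ℝ) * e.2.2 * j ^ 2 ≤ a * Y * q ^ 2 := by gcongr
        _ = _ := by ring
    nlinarith
  have hm : (f₁.2.2 : ℝ) ≤ (1 + 5 * a + D) * q ^ 2 * Y := by
    have e1 : (f₁.2.2 : ℝ) = a * f₁.1 * i ^ 2 + β * i + q * e.2.2 := by
      rw [hβ]
      exact_mod_cast congrArg (fun s : ℤ => (s : ℝ)) h.h13
    have hdle : (f₁.1 : ℝ) ≤ Y := by
      have e2 : (e.1 : ℝ) = q * f₁.1 := by rw [h.h1]; push_cast; ring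
      have : (0 : ℝ) ≤ f₁.1 := by positivity
      nlinarith
    rw [e1]
    have qq : (q : ℝ) ≤ q ^ 2 := by nlinarith
    have e2 : (q : ℝ) * e.2.2 ≤ q ^ 2 * Y := by gcongr
    have e3 : (β : ℝ) * i ≤ (4 * a + D) * (q ^ 2 * Y) := by
      calc (β : ℝ) * i ≤ ((4 * a + D) * Y) * q := by gcongr
        _ ≤ ((4 * a + D) * Y) * q ^ 2 := by gcongr
        _ = _ := by ring
    have e4 : (a : ℝ) * f₁.1 * i ^ 2 ≤ a * (q ^ 2 * Y) := by
      calc (a : ℝ) * f₁.1 * i ^ 2 ≤ a * Y * q ^ 2 := by gcongr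
        _ = _ := by ring
    nlinarith
  have hdle : (f₁.1 : ℝ) ≤ Y := by
    have e2 : (e.1 : ℝ) = q * f₁.1 := by rw [h.h1]; push_cast; ring
    have : (0 : ℝ) ≤ f₁.1 := by positivity
    nlinarith
  have hKq : (Kn a b c : ℝ) * q ^ 3 * W * X = (1 + 5 * a + D) * q ^ 3 * Y := by
    rw [hK, hY]; ring
  have hP : (1 : ℝ) ≤ 1 + 5 * a + D := by linarith
  have q23 : (q : ℝ) ^ 2 ≤ q ^ 3 := pow_le_pow_right₀ hq1 (by norm_num)
  have hY0 : 0 ≤ Y := by linarith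
  have g1 : (1 + 5 * (a : ℝ) + D) * q ^ 2 * Y ≤ (1 + 5 * a + D) * q ^ 3 * Y := by gcongr
  have g2 : Y ≤ (1 + 5 * (a : ℝ) + D) * q ^ 3 * Y := by
    apply le_mul_of_one_le_left hY0
    have : (1 : ℝ) ≤ q ^ 3 := one_le_pow₀ hq1
    nlinarith
  rw [hKq, mem_ftri ha, mem_ftri ha, mem_ftri ha]
  refine ⟨⟨o0, hx.trans g1, ?_⟩, ⟨o1, hdle.trans g2, hm.trans g1⟩, ⟨o2, ?_, ?_⟩⟩
  · rw [h.h03]
    exact h2.trans g2
  · rw [h.h21]
    exact hm.trans g1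
  · rw [h.h23]
    push_cast
    calc (q : ℝ) * f₀.1 ≤ q * ((1 + 5 * a + D) * q ^ 2 * Y) :=
          mul_le_mul_of_nonneg_left hx (by linarith)
      _ = (1 + 5 * a + D) * q ^ 3 * Y := by ring

end Pool.Agent.K9h53.LX
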