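import Pool.Agent.K9h53.LN.FinR
import Pool.Agent.W500.GT.RestB
import Pool.Agent.W583.GT.Sq

/-!
Project LX (helper53): exact squarefreeness of the values of an arbitrary quadratic polynomial with a
given sign of the Möbius function. Definitions and statements.

The triples `(A, n, B)`, `A B = a n^2 + b n + c`. Resolution of `(A, n, B)` with a prime
`q = 1 + a i j` dividing `A = d q`: `F₀ = (A + j β + a j^2 B, n + j B, B)`, `F₁ = (d, n + d i, m)`,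
`F₂ = (m, n + d i + j m, q (A + j β + a j^2 B))`, `β = 2 a n + b`, `m = a d i^2 + β i + q B`.
-/

set_option autoImplicit false

namespace Pool.Agent.K9h53.LX

open Finset Filter
open Pool.Agent.H376R2.MR (lam)
open Pool.Agent.W78.GT
open Pool.Agent.W583.GT (Z3 rd)
open Pool.Agent.K9h53.LQ (fQ)

/-- no value of the polynomial is divisible by the square of a prime divisor of `2 a D` -/
def Hf (a b c : ℤ) : Prop := ∀ l : ℕ, l.Prime → (l : ℤ) ∣ 2 * a * (b ^ 2 - 4 * (a * c)) →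
  ∀ n : ℤ, ¬ (l : ℤ) ^ 2 ∣ fQ a b c n

/-- the triples `(A, n, B)` with `A B = a n^2 + b n + c` -/
def FOk (a b c : ℤ) (e : Tr) : Prop :=
  1 ≤ e.1 ∧ 1 ≤ e.2.2 ∧ (e.1 : ℤ) * e.2.2 = fQ a b c e.2.1 ∧ 1 ≤ e.2.1 ∧ 0 ≤ 2 * a * e.2.1 + b

/-- the triple `(A, a n, a B)` of the polynomial `x^2 + b x + a c` -/
def em (a : ℤ) (e : Tr) : Tr := (e.1, a * e.2.1, a.toNat * e.2.2)

/-- the value of the form `(A, 2n+t, B)` at `(x, y)` -/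
def V2 (t x y : ℤ) (e : Z3) : ℤ := e.1 * x ^ 2 + (2 * e.2.1 + t) * (x * y) + e.2.2 * y ^ 2

/-- split primes which do not divide `a` -/
def Sf (a b c : ℤ) (l : ℕ) : Prop := Spl b (a * c) l ∧ ¬ (l : ℤ) ∣ a

/-- LOC: the local conditions can be satisfied at all the primes `≤ z` -/
def S_LOC (a b c : ℤ) : Prop := ∀ (z : ℕ) (e : Tr), FOk a b c e → ∃ i j : ℕ, 1 ≤ j ∧
  ∀ l : ℕ, Sf a b c l → l ≤ z → ¬ (l : ℤ) ∣ 1 + a * i * j ∧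
    ¬ (l : ℤ) ∣ V2 b 1 j (Pool.Agent.W583.GT.toZ (em a e)) ∧
    ¬ (l : ℤ) ∣ V2 b (a * i) (1 + a * i * j) (Pool.Agent.W583.GT.toZ (em a e))

/-- CAND: the candidates for `j` and for the auxiliary primes `q`, for every residue class -/
def S_CAND (a b c : ℤ) : Prop := ∀ (z : ℕ) (S0 : ℝ), 0 ≤ S0 →
  ∃ (QQ : ZMod (mz b (a * c) z) × ZMod (mz b (a * c) z) × ZMod (mz b (a * c) z) → Finset ℕ)
    (J : ZMod (mz b (a * c) z) × ZMod (mz b (a * c) z) × ZMod (mz b (a * c) z) → ℕ), ∀ κ,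
    1 ≤ J κ ∧ (∀ q ∈ QQ κ, q.Prime ∧ q ≡ 1 [MOD D4 b (a * c)] ∧ z ^ 2 < q ∧ J κ < q ∧
      a.toNat * J κ ∣ q - 1) ∧
    S0 ≤ ∑ q ∈ QQ κ, 1 / (q : ℝ) ∧ ∑ q ∈ QQ κ, 1 / (q : ℝ) ≤ S0 + 1 ∧
    ∀ e : Tr, FOk a b c e → rd (mz b (a * c) z) (em a e) = κ → ∀ q ∈ QQ κ, ∀ l : ℕ,
      Sf a b c l → l ≤ z → ¬ (l : ℤ) ∣ V2 b 1 (J κ) (Pool.Agent.W583.GT.toZ (em a e)) ∧
        ¬ (l : ℤ) ∣ V2 b ((q - 1 : ℤ) / J κ) q (Pool.Agent.W583.GT.toZ (em a e))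

/-- the bad triples at the primes in `(z, L]`; `j`, `Q` are the candidates -/
def Bad (t c : ℤ) (z : ℕ) (L : ℝ) (j : ℕ) (Q : Finset ℕ) (e : Tr) : Prop :=
  (∃ l : ℕ, Spl t c l ∧ z < l ∧ (l : ℝ) ≤ L ∧
    (l : ℤ) ∣ V2 t 1 j (Pool.Agent.W583.GT.toZ e) ∧
    (l ∣ e.2.2 ∨ (l : ℤ) ^ 2 ∣ V2 t 1 j (Pool.Agent.W583.GT.toZ e))) ∨
  ∃ q ∈ Q, q ∣ e.1 ∧ ((q : ℤ) ∣ V2 t 1 j (Pool.Agent.W583.GT.toZ e) ∨
    ∃ l : ℕ, Spl t c l ∧ z < l ∧ (l : ℝ) ≤ L ∧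
    ∃ x : ℤ, (q : ℤ) * x = V2 t ((q - 1 : ℤ) / j) q (Pool.Agent.W583.GT.toZ e) ∧ (l : ℤ) ∣ x ∧
      (l ∣ e.1 ∨ (l : ℤ) ∣ V2 t 1 j (Pool.Agent.W583.GT.toZ e) ∨ (l : ℤ) ^ 2 ∣ x))

/-- EXC: few bad triples -/
def S_EXC (t c : ℤ) : Prop := ∃ C : ℝ, 0 < C ∧ ∀ (z : ℕ) (S : ℝ)
  (QQ : ZMod (mz t c z) × ZMod (mz t c z) × ZMod (mz t c z) → Finset ℕ)
  (J : ZMod (mz t c z) × ZMod (mz t c z) × ZMod (mz t c z) → ℕ),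
  5 ≤ z → 1 ≤ S → (∀ κ, 1 ≤ J κ ∧ (∀ q ∈ QQ κ, q.Prime ∧ q ≡ 1 [MOD D4 t c] ∧ z ^ 2 < q ∧
    J κ < q ∧ J κ ∣ q - 1) ∧ ∑ q ∈ QQ κ, 1 / (q : ℝ) ≤ S) →
  ∀ A : ℕ, ∃ X₀ : ℝ, ∀ X X₁ X₂ : ℝ, X₀ ≤ X → 1 ≤ X₁ → 1 ≤ X₂ → X₁ * X₂ ≤ X ^ 2 →
  X₁ ≤ X * Real.log X → X₂ ≤ X * Real.log X →
  ∀ p : ℕ, (p = 1 ∨ (Spl t c p ∧ p ≤ z)) →
  (open scoped Classical in
    (((tri t c X₁ X₂).filter (fun e => (p ∣ e.1 ∧ p ∣ e.2.2) ∧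
      Bad t c z (Real.log X ^ A) (J (rd (mz t c z) e)) (QQ (rd (mz t c z) e)) e)).card : ℝ)) ≤
    C * S / (z * Real.log z) * X / (p : ℝ) ^ 2

/-- the triples in a box -/
noncomputable def ftri (a b c : ℤ) (X₁ X₂ : ℝ) : Finset Tr := by
  classical
  exact ((tri b (a * c) X₁ (a * X₂)).image
    (fun E => (E.1, E.2.1 / a, E.2.2 / a.toNat))).filter
    (fun e => FOk a b c e ∧ (e.1 : ℝ) ≤ X₁ ∧ (e.2.2 : ℝ) ≤ X₂)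

/-- RES: the resolution -/
def S_RES (a b c : ℤ) : Prop := ∀ δ : ℝ, 0 < δ → ∃ (Q : ℝ) (D : ℕ) (X₀ : ℝ), 1 ≤ Q ∧ ∀ X : ℝ,
  X₀ ≤ X → ∃ (E : Finset Tr) (F₀ F₁ F₂ : Tr → Tr), (E.card : ℝ) ≤ δ * X ∧
    (∀ e ∈ ftri a b c X X, e ∉ E → (F₀ e ∈ ftri a b c (Q * X) (Q * X) ∧
      F₁ e ∈ ftri a b c (Q * X) (Q * X) ∧ F₂ e ∈ ftri a b c (Q * X) (Q * X)) ∧
      lam (NT (F₀ e)) * lam (NT (F₁ e)) * lam (NT (F₂ e)) = lam (NT e) ∧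
      exc (NT (F₀ e)) ≤ exc (NT e) - 1 ∧ exc (NT (F₁ e)) ≤ exc (NT e) - 1 ∧
      exc (NT (F₂ e)) ≤ exc (NT e) - 1) ∧
    (open scoped Classical in
      ∀ f : Tr, ((ftri a b c X X).filter (fun e => e ∉ E ∧ F₀ e = f)).card ≤ D ∧
        ((ftri a b c X X).filter (fun e => e ∉ E ∧ F₁ e = f)).card ≤ D ∧
        ((ftri a b c X X).filter (fun e => e ∉ E ∧ F₂ e = f)).card ≤ D)

/-- MU: a positive proportion of the factorisations belongs to values with `μ = s` -/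
def S_MU (a b c : ℤ) : Prop := ∀ s : ℤ, s = 1 ∨ s = -1 → ∃ κ X₀ : ℝ, 0 < κ ∧ ∀ X : ℝ, X₀ ≤ X →
  κ * X ≤ ((LN.PR (fun m => ArithmeticFunction.moebius m = s) a b c X).card : ℝ)

end Pool.Agent.K9h53.LX
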