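import Pool.Agent.K9h53.LX.OccX

/-!
Project LX (helper53): few triples with a bad resolution.
-/

set_option autoImplicit false

namespace Pool.Agent.K9h53.LX

open Finset Pool.Agent.W78.GT Pool.Agent.W583.GT
open Pool.Agent.W880.GM (tail_all tail_prime)

variable {t c : ℤ}

/-- **EXC** for one `z` -/
lemma exc_aux {C : ℝ} (hC : 0 < C) (hE : ∀ A : ℕ, ∃ X₀ : ℝ, ∀ (X X₁ X₂ : ℝ) (M : ℕ)
    (f : Tr), X₀ ≤ X → 1 ≤ X₁ → 1 ≤ X₂ → X₁ * X₂ ≤ X ^ 2 → X₁ ≤ X * Real.log X ^ A →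
    X₂ ≤ X * Real.log X ^ A → 1 ≤ M → (M : ℝ) ≤ Real.log X ^ A →
    (∀ p : ℕ, p.Prime → p ∣ M → Spl t c p) →
    (open scoped Classical in
      (((tri t c X₁ X₂).filter (fun e => Cg M e f)).card : ℝ)) ≤
      C * X * (Nat.totient M : ℝ) / (M : ℝ) ^ 3) (z m : ℕ) (hm : m = mz t c z) (S : ℝ)
    (QQ : ZMod m × ZMod m × ZMod m → Finset ℕ) (J : ZMod m × ZMod m × ZMod m → ℕ)
    (hz : 5 ≤ z) (hS : 1 ≤ S)
    (hdat : ∀ κ, 1 ≤ J κ ∧ (∀ q ∈ QQ κ, q.Prime ∧ q ≡ 1 [MOD D4 t c] ∧ z ^ 2 < q ∧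
      J κ < q ∧ J κ ∣ q - 1) ∧ ∑ q ∈ QQ κ, 1 / (q : ℝ) ≤ S) (A : ℕ) :
    ∃ X₀ : ℝ, ∀ X X₁ X₂ : ℝ, X₀ ≤ X → 1 ≤ X₁ → 1 ≤ X₂ → X₁ * X₂ ≤ X ^ 2 →
    X₁ ≤ X * Real.log X → X₂ ≤ X * Real.log X →
    ∀ p : ℕ, (p = 1 ∨ (Spl t c p ∧ p ≤ z)) →
    (open scoped Classical in
      (((tri t c X₁ X₂).filter (fun e => (p ∣ e.1 ∧ p ∣ e.2.2) ∧
        Bad t c z (Real.log X ^ A) (J (rd m e)) (QQ (rd m e)) e)).card : ℝ)) ≤
      112 * C * S / (z * Real.log z) * X / (p : ℝ) ^ 2 := by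
  classical
  have hJ1 : ∀ κ, 1 ≤ J κ := fun κ => (hdat κ).1
  have hQ : ∀ κ, ∀ q ∈ QQ κ, q.Prime ∧ q ≡ 1 [MOD D4 t c] ∧ z ^ 2 < q ∧ J κ < q ∧ J κ ∣ q - 1 :=
    fun κ => (hdat κ).2.1
  have hQS : ∀ κ, ∑ q ∈ QQ κ, 1 / (q : ℝ) ≤ S := fun κ => (hdat κ).2.2
  obtain ⟨X₁', hX₁'⟩ := hE (2 * A + 1)
  have hmpos : 0 < m := by rw [hm]; exact mz_pos z
  have : NeZero m := ⟨hmpos.ne'⟩
  have hmR : (1 : ℝ) ≤ m := by exact_mod_cast hmpos
  have hzR : (5 : ℝ) ≤ z := by exact_mod_cast hz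
  have hlogz : 0 < Real.log z := Real.log_pos (by linarith)
  -- the candidates
  set qm : ℕ := (univ : Finset (ZMod m × ZMod m × ZMod m)).sup
    (fun κ => (QQ κ).sup id) with hqm
  have hqle : ∀ κ, ∀ q ∈ QQ κ, q ≤ qm := fun κ q hq =>
    (Finset.le_sup (f := id) hq).trans (Finset.le_sup (f := fun κ => (QQ κ).sup id) (mem_univ κ))
  refine ⟨max X₁' (Real.exp (m * (qm : ℝ) ^ 2 + m)), ?_⟩
  intro X X₁ X₂ hX hX1 hX2 hXX hX1l hX2l p hp
  have hXX1 : X₁' ≤ X := (le_max_left _ _).trans hX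
  have hXe : Real.exp (m * (qm : ℝ) ^ 2 + m) ≤ X := (le_max_right _ _).trans hX
  have hXpos : 0 < X := (Real.exp_pos _).trans_le hXe
  have hlogm : m * (qm : ℝ) ^ 2 + m ≤ Real.log X := by
    rw [Real.le_log_iff_exp_le hXpos]
    exact hXe
  have hmlog : (m : ℝ) ≤ Real.log X := by
    have : 0 ≤ m * (qm : ℝ) ^ 2 := by positivity
    linarith
  have hlog : 1 ≤ Real.log X := hmR.trans hmlog
  have hlogpow : ∀ k : ℕ, 1 ≤ Real.log X ^ k := fun k => one_le_pow₀ hlog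
  set N : ℕ := ⌊Real.log X ^ A⌋₊ with hN
  set L : Finset ℕ := (Ioc z N).filter (fun l => Spl t c l) with hLdef
  obtain ⟨s, hs⟩ : ∃ s : Finset Tr, s = (tri t c X₁ X₂).filter (fun e => (p ∣ e.1 ∧ p ∣ e.2.2) ∧
      Bad t c z (Real.log X ^ A) (J (rd m e)) (QQ (rd m e)) e) := ⟨_, rfl⟩
  rw [← hs]
  set Ba : (ZMod m × ZMod m × ZMod m) → ℕ → Finset Tr :=
    fun κ l => (tri t c X₁ X₂).filter (fun e => rd m e = κ ∧
      (l : ℤ) ∣ V2 t 1 (J κ) (toZ e) ∧
      (l ∣ e.2.2 ∨ (l : ℤ) ^ 2 ∣ V2 t 1 (J κ) (toZ e))) with hBa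
  set Bq : (ZMod m × ZMod m × ZMod m) → ℕ → Finset Tr :=
    fun κ q => (tri t c X₁ X₂).filter (fun e => rd m e = κ ∧ q ∣ e.1 ∧
      (q : ℤ) ∣ V2 t 1 (J κ) (toZ e)) with hBq
  set Bb : (ZMod m × ZMod m × ZMod m) → ℕ → ℕ → Finset Tr :=
    fun κ q l => (tri t c X₁ X₂).filter (fun e => rd m e = κ ∧ q ∣ e.1 ∧
      ∃ x : ℤ, (q : ℤ) * x = V2 t ((q - 1 : ℤ) / J κ) q (toZ e) ∧ (l : ℤ) ∣ x ∧
          (l ∣ e.1 ∨ (l : ℤ) ∣ V2 t 1 (J κ) (toZ e) ∨ (l : ℤ) ^ 2 ∣ x)) with hBb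
  set Γ := s.image (rd m) with hΓ
  -- covering
  have hsub : s ⊆ Γ.biUnion (fun κ => L.biUnion (Ba κ) ∪
      (QQ κ).biUnion (fun q => Bq κ q ∪ L.biUnion (Bb κ q))) := by
    intro e he
    have he' := he
    rw [hs, mem_filter] at he'
    obtain ⟨he1, he2, hbad⟩ := he'
    rw [mem_biUnion]
    refine ⟨rd m e, mem_image_of_mem _ he, ?_⟩
    rw [mem_union]
    rcases hbad with ⟨l, hl, hzl, hlX, hlx⟩ | ⟨q, hq, hqe, hbad⟩
    · left
      rw [mem_biUnion]
      refine ⟨l, ?_, ?_⟩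
      · rw [hLdef, mem_filter, mem_Ioc]
        exact ⟨⟨hzl, Nat.le_floor hlX⟩, hl⟩
      · rw [hBa, mem_filter]
        exact ⟨he1, rfl, hlx⟩
    · right
      rw [mem_biUnion]
      refine ⟨q, hq, ?_⟩
      rw [mem_union]
      rcases hbad with hqx | ⟨l, hl, hzl, hlX, hlx⟩
      · left
        rw [hBq, mem_filter]
        exact ⟨he1, rfl, hqe, hqx⟩
      · right
        rw [mem_biUnion]
        refine ⟨l, ?_, ?_⟩
        · rw [hLdef, mem_filter, mem_Ioc]
          exact ⟨⟨hzl, Nat.le_floor hlX⟩, hl⟩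
        · rw [hBb, mem_filter]
          exact ⟨he1, rfl, hqe, hlx⟩
  -- number of classes
  obtain ⟨k, hk, hocc⟩ := occ_start hp
  have hppos : (0 : ℝ) < p := by
    rcases hp with rfl | ⟨hp, -⟩
    · norm_num
    · exact_mod_cast hp.1.pos
  rw [← hm] at hk hocc
  have hmzc : ∀ {l : ℕ}, l.Prime → z < l → Nat.Coprime m l := fun hl h => by
    rw [hm]; exact mz_coprime hl h
  have hmzs : ∀ {p : ℕ}, p.Prime → p ∣ m → Spl t c p := fun hp h => by
    rw [hm] at h; exact mz_spl hp h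
  have hΓcard : (Γ.card : ℝ) * wt m 1 ≤ 2 / (p : ℝ) ^ 2 := by
    have h1 := hocc.card_image_le s (by
      intro e he
      rw [hs, mem_filter] at he
      refine ⟨toZ_mem he.1, int_dvd_of_nat he.2.1.1, ?_⟩
      show (p : ℤ) ∣ (e.2.2 : ℤ)
      exact_mod_cast he.2.1.2)
    refine le_trans ?_ hk
    have h2 : (Γ.card : ℝ) ≤ k := by exact_mod_cast h1
    have h3 : wt m k = (k : ℝ) * wt m 1 := by
      unfold wt
      push_cast
      ring
    rw [h3]
    exact mul_le_mul_of_nonneg_right h2 (wt_nonneg _ _)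
  -- one class
  have hEQ : ∀ M : ℕ, 1 ≤ M → (M : ℝ) ≤ Real.log X ^ (2 * A + 1) →
      (∀ p : ℕ, p.Prime → p ∣ M → Spl t c p) → ∀ f : Tr,
      (((tri t c X₁ X₂).filter (fun e => Cg M e f)).card : ℝ) ≤
        C * X * (Nat.totient M : ℝ) / (M : ℝ) ^ 3 := by
    intro M hM1 hM2 hM3 f
    have hll : Real.log X ≤ Real.log X ^ (2 * A + 1) := by
      rw [pow_succ]
      have := hlogpow (2 * A)
      nlinarith
    refine hX₁' X X₁ X₂ M f hXX1 hX1 hX2 hXX (hX1l.trans ?_) (hX2l.trans ?_) hM1 hM2 hM3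
    · exact mul_le_mul_of_nonneg_left hll hXpos.le
    · exact mul_le_mul_of_nonneg_left hll hXpos.le
  have hCX : 0 ≤ C * X := by positivity
  have hwm : 0 ≤ wt m 1 := wt_nonneg _ _
  have hLmem : ∀ l ∈ L, Spl t c l ∧ z < l ∧ (l : ℝ) ≤ Real.log X ^ A := by
    intro l hl
    rw [hLdef, mem_filter, mem_Ioc] at hl
    obtain ⟨⟨hzl, hlN⟩, hls⟩ := hl
    exact ⟨hls, hzl, (Nat.cast_le.2 hlN).trans (Nat.floor_le (by positivity))⟩
  have hrdcg : ∀ κ, ∀ e : Tr, rd m e = κ → CgZ m (toZ e) (toZ (lif m κ)) := by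
    intro κ e he
    rw [← rd_lif m κ] at he
    exact rd_eq_iff.1 he
  -- (a)
  have hcardBa : ∀ κ, ∀ l ∈ L, ((Ba κ l).card : ℝ) ≤ C * X * wt m 1 * (4 * (1 / (l : ℝ) ^ 2)) := by
    intro κ l hl
    obtain ⟨hls, hzl, hlR⟩ := hLmem l hl
    have hlp := hls.1
    have hlpos : (0 : ℝ) < l := by exact_mod_cast hlp.pos
    have hco : Nat.Coprime m (l ^ 2) := Nat.Coprime.pow_right 2 (hmzc hlp hzl)
    have ho := (occ_fix m (toZ (lif m κ))).inter (occ_a (j := J κ) hls) hco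
    have h1 := ho.card_le (Ba κ l) (tri t c X₁ X₂) (by rw [hBa]; exact filter_subset _ _) (by
      intro e he
      rw [hBa, mem_filter] at he
      obtain ⟨he1, he2, he3, he4⟩ := he
      refine ⟨hrdcg κ e he2, toZ_mem he1, he3, ?_⟩
      rcases he4 with h | h
      · left
        show (l : ℤ) ∣ (e.2.2 : ℤ)
        exact_mod_cast h
      · right
        exact_mod_cast h)
      (C * X * (Nat.totient (m * l ^ 2) : ℝ) / ((m * l ^ 2 : ℕ) : ℝ) ^ 3) (by positivity)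
      (fun f _ => hEQ (m * l ^ 2) (Nat.one_le_iff_ne_zero.2
        (mul_ne_zero hmpos.ne' (pow_ne_zero _ hlp.ne_zero))) (by
          push_cast
          have h6 : (l : ℝ) ^ 2 ≤ Real.log X ^ (2 * A) := by
            rw [mul_comm 2 A, pow_mul]
            exact pow_le_pow_left₀ hlpos.le hlR 2
          calc (m : ℝ) * (l : ℝ) ^ 2 ≤ Real.log X * Real.log X ^ (2 * A) :=
                mul_le_mul hmlog h6 (by positivity) (by linarith)
            _ = Real.log X ^ (2 * A + 1) := by ring) (by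
          intro r hr hrd
          rcases (Nat.Prime.dvd_mul hr).1 hrd with h | h
          · exact hmzs hr h
          · rw [(Nat.prime_dvd_prime_iff_eq hr hlp).1 (hr.dvd_of_dvd_pow h)]
            exact hls) f)
    refine h1.trans ?_
    have h2 : ((1 * (4 * l ^ 2) : ℕ) : ℝ) *
        (C * X * (Nat.totient (m * l ^ 2) : ℝ) / ((m * l ^ 2 : ℕ) : ℝ) ^ 3) =
        C * X * (wt m 1 * wt (l ^ 2) (4 * l ^ 2)) := by
      rw [← wt_mul hco]
      unfold wt
      ring
    rw [h2, ← mul_assoc]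
    refine mul_le_mul_of_nonneg_left ?_ (by positivity)
    refine (wt_sq hlp.pos 4).trans (le_of_eq ?_)
    push_cast
    ring
  -- facts on `q`
  have hqI : ∀ κ, ∀ q ∈ QQ κ, (q : ℤ) = 1 + ((q - 1 : ℤ) / J κ) * J κ := by
    intro κ q hq
    obtain ⟨hqp, -, -, -, hd⟩ := hQ κ q hq
    have h1 : (J κ : ℤ) ∣ (q : ℤ) - 1 := by
      obtain ⟨w, hw⟩ := hd
      refine ⟨w, ?_⟩
      have h2 := hqp.one_lt
      have h3 : q = 1 + J κ * w := by omega
      have h4 : (q : ℤ) = ((1 + J κ * w : ℕ) : ℤ) := by exact_mod_cast h3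
      rw [h4]
      push_cast
      ring
    rw [Int.ediv_mul_cancel h1]
    ring
  have hqJ : ∀ κ, ∀ q ∈ QQ κ, ¬ (q : ℤ) ∣ (J κ : ℤ) := by
    intro κ q hq h
    have h1 : q ∣ J κ := by exact_mod_cast h
    have h2 := Nat.le_of_dvd (hJ1 κ) h1
    have := (hQ κ q hq).2.2.2.1
    omega
  have hqspl : ∀ κ, ∀ q ∈ QQ κ, ∀ e ∈ tri t c X₁ X₂, q ∣ e.1 → Spl t c q := by
    intro κ q hq e he hqe
    obtain ⟨hqp, hq4, -⟩ := hQ κ q hq
    have h5 := (mem_tri.1 he).2.2.2.2.1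
    refine spl_of_dvd hqp (n := e.2.1) ?_ ?_
    · rw [← h5]
      have h6 : (q : ℤ) ∣ (e.1 : ℤ) := by exact_mod_cast hqe
      exact h6.mul_right _
    · intro h6
      have h7 : q ∣ D4 t c := by
        unfold D4
        have h8 : (q : ℤ) ∣ 4 * (t ^ 2 - 4 * c) := by
          have : 4 * (t ^ 2 - 4 * c) = 2 * (t ^ 2 - 4 * c) * 2 := by ring
          rw [this]
          exact h6.mul_right _
        have h9 := Int.natCast_dvd.1 h8
        rw [Int.natAbs_mul] at h9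
        exact h9
      have h8 : q ≡ 1 [MOD q] := hq4.of_dvd h7
      have h9 : q % q = 1 % q := h8
      rw [Nat.mod_self, Nat.mod_eq_of_lt hqp.one_lt] at h9
      omega
  have hmq : ∀ κ, ∀ q ∈ QQ κ, (m : ℝ) * (q : ℝ) ^ 2 ≤ Real.log X := by
    intro κ q hq
    have hqqmR : (q : ℝ) ≤ qm := by exact_mod_cast hqle κ q hq
    have : (m : ℝ) * (q : ℝ) ^ 2 ≤ m * (qm : ℝ) ^ 2 := by gcongr
    linarith
  -- sets at the prime `q`
  have hcardQ : ∀ κ, ∀ q ∈ QQ κ, ∀ B : Finset Tr, B ⊆ tri t c X₁ X₂ →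
      (∀ e ∈ B, rd m e = κ ∧ q ∣ e.1 ∧ ((q : ℤ) ∣ V2 t 1 (J κ) (toZ e) ∨
        ((q ^ 2 : ℕ) : ℤ) ∣ V2 t ((q - 1 : ℤ) / J κ) q (toZ e))) →
      (B.card : ℝ) ≤ C * X * wt m 1 * (4 * (1 / (q : ℝ) ^ 2)) := by
    intro κ q hq B hBt hB
    obtain ⟨hqp, hq4, hzq, hJq, -⟩ := hQ κ q hq
    have hzq' : z < q := by nlinarith
    have hqpos : (0 : ℝ) < q := by exact_mod_cast hqp.pos
    rcases B.eq_empty_or_nonempty with hemp | ⟨e₀, he₀⟩
    · rw [hemp]
      simp only [card_empty, Nat.cast_zero]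
      positivity
    have hqs : Spl t c q := hqspl κ q hq e₀ (hBt he₀) (hB e₀ he₀).2.1
    have hco : Nat.Coprime m (q ^ 2) := Nat.Coprime.pow_right 2 (hmzc hqp hzq')
    have ho := (occ_fix m (toZ (lif m κ))).inter (occ_q hqs (hqI κ q hq) (hqJ κ q hq)) hco
    have h1 := ho.card_le B (tri t c X₁ X₂) hBt (by
      intro e he
      obtain ⟨he2, he3, he4⟩ := hB e he
      exact ⟨hrdcg κ e he2, toZ_mem (hBt he), int_dvd_of_nat he3, he4⟩)
      (C * X * (Nat.totient (m * q ^ 2) : ℝ) / ((m * q ^ 2 : ℕ) : ℝ) ^ 3) (by positivity)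
      (fun f _ => hEQ (m * q ^ 2) (Nat.one_le_iff_ne_zero.2
        (mul_ne_zero hmpos.ne' (pow_ne_zero _ hqp.ne_zero))) (by
          push_cast
          refine (hmq κ q hq).trans ?_
          rw [pow_succ]
          have := hlogpow (2 * A)
          nlinarith) (by
          intro r hr hrd
          rcases (Nat.Prime.dvd_mul hr).1 hrd with h | h
          · exact hmzs hr h
          · rw [(Nat.prime_dvd_prime_iff_eq hr hqp).1 (hr.dvd_of_dvd_pow h)]
            exact hqs) f)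
    refine h1.trans ?_
    have h2 : ((1 * (4 * q ^ 2) : ℕ) : ℝ) *
        (C * X * (Nat.totient (m * q ^ 2) : ℝ) / ((m * q ^ 2 : ℕ) : ℝ) ^ 3) =
        C * X * (wt m 1 * wt (q ^ 2) (4 * q ^ 2)) := by
      rw [← wt_mul hco]
      unfold wt
      ring
    rw [h2, ← mul_assoc]
    refine mul_le_mul_of_nonneg_left ?_ (by positivity)
    refine (wt_sq hqp.pos 4).trans (le_of_eq ?_)
    push_cast
    ring
  have hcardBq : ∀ κ, ∀ q ∈ QQ κ, ((Bq κ q).card : ℝ) ≤
      C * X * wt m 1 * (4 * (1 / (q : ℝ) ^ 2)) := by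
    intro κ q hq
    refine hcardQ κ q hq (Bq κ q) (by rw [hBq]; exact filter_subset _ _) ?_
    intro e he
    rw [hBq, mem_filter] at he
    exact ⟨he.2.1, he.2.2.1, Or.inl he.2.2.2⟩
  have hcardBb : ∀ κ, ∀ q ∈ QQ κ, ∀ l ∈ L, ((Bb κ q l).card : ℝ) ≤
      C * X * wt m 1 * (12 * (1 / (q : ℝ)) * (1 / (l : ℝ) ^ 2)) +
      (if q = l then C * X * wt m 1 * (4 * (1 / (q : ℝ) ^ 2)) else 0) := by
    intro κ q hq l hl
    obtain ⟨hls, hzl, hlR⟩ := hLmem l hl
    have hlp := hls.1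
    obtain ⟨hqp, hq4, hzq, hJq, -⟩ := hQ κ q hq
    have hzq' : z < q := by nlinarith
    have hqpos : (0 : ℝ) < q := by exact_mod_cast hqp.pos
    have hlpos : (0 : ℝ) < l := by exact_mod_cast hlp.pos
    have hmq2 := hmq κ q hq
    have hq1R : (1 : ℝ) ≤ q := by exact_mod_cast hqp.one_lt.le
    have hBsub : Bb κ q l ⊆ tri t c X₁ X₂ := by
      rw [hBb]
      exact filter_subset _ _
    rcases (Bb κ q l).eq_empty_or_nonempty with hemp | ⟨e₀, he₀⟩
    · rw [hemp]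
      simp only [card_empty, Nat.cast_zero]
      have h1 : 0 ≤ C * X * wt m 1 * (12 * (1 / (q : ℝ)) * (1 / (l : ℝ) ^ 2)) := by positivity
      split_ifs
      · positivity
      · linarith
    have hqs : Spl t c q := by
      have he₁ := he₀
      rw [hBb, mem_filter] at he₁
      exact hqspl κ q hq e₀ he₁.1 he₁.2.2.1
    by_cases hql : q = l
    · -- l = q
      rw [if_pos hql]
      subst hql
      have h3 : 0 ≤ C * X * wt m 1 * (12 * (1 / (q : ℝ)) * (1 / (q : ℝ) ^ 2)) := by positivity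
      have h4 := hcardQ κ q hq (Bb κ q q) hBsub (by
        intro e he
        rw [hBb, mem_filter] at he
        obtain ⟨he1, he2, he3, x, hx1, hx2, hx3⟩ := he
        refine ⟨he2, he3, Or.inr ?_⟩
        rw [← hx1]
        push_cast
        rw [pow_two]
        exact mul_dvd_mul_left _ hx2)
      linarith
    · rw [if_neg hql, add_zero]
      have hlq : l ≠ q := fun h => hql h.symm
      have hco1 : Nat.Coprime m q := hmzc hqp hzq'
      have hco2 : Nat.Coprime (m * q) (l ^ 2) :=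
        Nat.Coprime.pow_right 2 (Nat.Coprime.mul_left (hmzc hlp hzl)
          ((Nat.coprime_primes hqp hlp).2 hql))
      have hndvd : ¬ (l : ℤ) ∣ (q : ℤ) := by
        intro h
        have h1 : l ∣ q := by exact_mod_cast h
        exact hlq ((Nat.prime_dvd_prime_iff_eq hlp hqp).1 h1)
      have ho := ((occ_fix m (toZ (lif m κ))).inter (occq (t := t) (c := c) hqp) hco1).inter
        (occ_b hls (hqI κ q hq) hndvd) hco2
      have h1 := ho.card_le (Bb κ q l) (tri t c X₁ X₂) hBsub (by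
        intro e he
        rw [hBb, mem_filter] at he
        obtain ⟨he1, he2, he3, x, hx1, hx2, hx3⟩ := he
        refine ⟨⟨hrdcg κ e he2, toZ_mem he1, int_dvd_of_nat he3⟩, toZ_mem he1, ?_, ?_⟩
        · rw [← hx1]
          exact hx2.mul_left _
        · rcases hx3 with h | h | h
          · left
            exact int_dvd_of_nat h
          · right; left
            exact h
          · right; right
            rw [← hx1]
            push_cast
            exact h.mul_left _)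
        (C * X * (Nat.totient (m * q * l ^ 2) : ℝ) / ((m * q * l ^ 2 : ℕ) : ℝ) ^ 3) (by positivity)
        (fun f _ => hEQ (m * q * l ^ 2) (Nat.one_le_iff_ne_zero.2
          (mul_ne_zero (mul_ne_zero hmpos.ne' hqp.ne_zero) (pow_ne_zero _ hlp.ne_zero))) (by
            push_cast
            have h5 : (m : ℝ) * q ≤ Real.log X := by
              refine le_trans ?_ hmq2
              rw [pow_two]
              have : (q : ℝ) ≤ q * q := by nlinarith
              exact mul_le_mul_of_nonneg_left this (by positivity)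
            have h6 : (l : ℝ) ^ 2 ≤ Real.log X ^ (2 * A) := by
              rw [mul_comm 2 A, pow_mul]
              exact pow_le_pow_left₀ hlpos.le hlR 2
            calc (m : ℝ) * q * (l : ℝ) ^ 2 ≤ Real.log X * Real.log X ^ (2 * A) :=
                  mul_le_mul h5 h6 (by positivity) (by linarith)
              _ = Real.log X ^ (2 * A + 1) := by ring) (by
            intro r hr hrd
            rcases (Nat.Prime.dvd_mul hr).1 hrd with h | h
            · rcases (Nat.Prime.dvd_mul hr).1 h with h | h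
              · exact hmzs hr h
              · rw [(Nat.prime_dvd_prime_iff_eq hr hqp).1 h]
                exact hqs
            · rw [(Nat.prime_dvd_prime_iff_eq hr hlp).1 (hr.dvd_of_dvd_pow h)]
              exact hls) f)
      refine h1.trans ?_
      have h2 : ((1 * (2 * q) * (6 * l ^ 2) : ℕ) : ℝ) *
          (C * X * (Nat.totient (m * q * l ^ 2) : ℝ) / ((m * q * l ^ 2 : ℕ) : ℝ) ^ 3) =
          C * X * wt m 1 * (wt q (2 * q) * wt (l ^ 2) (6 * l ^ 2)) := by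
        rw [mul_assoc (C * X), ← mul_assoc (wt m 1), ← wt_mul hco1, ← wt_mul hco2]
        unfold wt
        ring
      rw [h2]
      refine mul_le_mul_of_nonneg_left ?_ (by positivity)
      calc wt q (2 * q) * wt (l ^ 2) (6 * l ^ 2) ≤ 2 / (q : ℝ) * ((6 : ℕ) / (l : ℝ) ^ 2) :=
            mul_le_mul (wt_q hqp.pos) (wt_sq hlp.pos 6) (wt_nonneg _ _) (by positivity)
        _ = 12 * (1 / (q : ℝ)) * (1 / (l : ℝ) ^ 2) := by
            push_cast
            ring
  -- summation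
  have hsumL : ∑ l ∈ L, 1 / (l : ℝ) ^ 2 ≤ 3 / (z * Real.log z) := by
    refine le_trans ?_ (tail_prime z (by omega) N)
    refine sum_le_sum_of_subset_of_nonneg ?_ (fun _ _ _ => by positivity)
    intro l hl
    rw [hLdef, mem_filter] at hl
    rw [mem_filter]
    exact ⟨hl.1, hl.2.1⟩
  have hW0 : 0 ≤ C * X * wt m 1 := by positivity
  have hzl0 : 0 < z * Real.log z := by positivity
  have hsuma : ∀ κ, ∑ l ∈ L, ((Ba κ l).card : ℝ) ≤ C * X * wt m 1 * (12 / (z * Real.log z)) := by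
    intro κ
    refine (sum_le_sum (hcardBa κ)).trans ?_
    rw [← mul_sum, ← mul_sum]
    refine mul_le_mul_of_nonneg_left ?_ hW0
    calc 4 * ∑ l ∈ L, 1 / (l : ℝ) ^ 2 ≤ 4 * (3 / (z * Real.log z)) := by gcongr
      _ = 12 / (z * Real.log z) := by ring
  have hsumb : ∀ κ, ∑ q ∈ QQ κ, (((Bq κ q).card : ℝ) + ∑ l ∈ L, ((Bb κ q l).card : ℝ)) ≤
      C * X * wt m 1 * (44 * S / (z * Real.log z)) := by
    intro κ
    have h1 : ∀ q ∈ QQ κ, ((Bq κ q).card : ℝ) + ∑ l ∈ L, ((Bb κ q l).card : ℝ) ≤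
        C * X * wt m 1 * (44 / (z * Real.log z)) * (1 / (q : ℝ)) := by
      intro q hq
      obtain ⟨hqp, hq4, hzq, -⟩ := hQ κ q hq
      have hqpos : (0 : ℝ) < q := by exact_mod_cast hqp.pos
      have h2 := sum_le_sum (hcardBb κ q hq)
      rw [sum_add_distrib, ← mul_sum, ← mul_sum, sum_ite_eq] at h2
      have hq2 : (4 : ℝ) * (1 / (q : ℝ) ^ 2) ≤ 4 / (z * Real.log z) * (1 / (q : ℝ)) := by
        have h5 : (z : ℝ) * Real.log z ≤ q := by
          have h6 : Real.log z ≤ z := by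
            have := Real.log_le_sub_one_of_pos (x := (z : ℝ)) (by linarith)
            linarith
          have h7 : (z : ℝ) ^ 2 ≤ q := by exact_mod_cast hzq.le
          calc (z : ℝ) * Real.log z ≤ z * z := mul_le_mul_of_nonneg_left h6 (by linarith)
            _ = (z : ℝ) ^ 2 := by ring
            _ ≤ q := h7
        have h6 : (4 : ℝ) * (1 / (q : ℝ) ^ 2) = 4 / (q : ℝ) * (1 / (q : ℝ)) := by
          field_simp
        rw [h6]
        refine mul_le_mul_of_nonneg_right ?_ (by positivity)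
        exact div_le_div_of_nonneg_left (by norm_num) (by positivity) h5
      have hq3 := mul_le_mul_of_nonneg_left hq2 hW0
      have h3 : (if q ∈ L then C * X * wt m 1 * (4 * (1 / (q : ℝ) ^ 2)) else 0) ≤
          C * X * wt m 1 * (4 / (z * Real.log z) * (1 / (q : ℝ))) := by
        split_ifs
        · exact hq3
        · positivity
      have h4 := (hcardBq κ q hq).trans hq3
      have h5 : C * X * wt m 1 * (12 * (1 / (q : ℝ)) * ∑ l ∈ L, 1 / (l : ℝ) ^ 2) ≤
          C * X * wt m 1 * (12 * (1 / (q : ℝ)) * (3 / (z * Real.log z))) :=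
        mul_le_mul_of_nonneg_left (mul_le_mul_of_nonneg_left hsumL (by positivity)) hW0
      calc ((Bq κ q).card : ℝ) + ∑ l ∈ L, ((Bb κ q l).card : ℝ)
          ≤ C * X * wt m 1 * (4 / (z * Real.log z) * (1 / (q : ℝ))) +
            (C * X * wt m 1 * (12 * (1 / (q : ℝ)) * (3 / (z * Real.log z))) +
              C * X * wt m 1 * (4 / (z * Real.log z) * (1 / (q : ℝ)))) := by linarith
        _ = _ := by ring
    refine (sum_le_sum h1).trans ?_
    rw [← mul_sum]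
    calc _ ≤ C * X * wt m 1 * (44 / (z * Real.log z)) * S :=
          mul_le_mul_of_nonneg_left (hQS κ) (by positivity)
      _ = _ := by ring
  have hstep : ∀ κ ∈ Γ, ((L.biUnion (Ba κ) ∪
      (QQ κ).biUnion (fun q => Bq κ q ∪ L.biUnion (Bb κ q))).card : ℝ) ≤
      C * X * wt m 1 * (56 * S / (z * Real.log z)) := by
    intro κ _
    have h1 : (L.biUnion (Ba κ) ∪
        (QQ κ).biUnion (fun q => Bq κ q ∪ L.biUnion (Bb κ q))).card ≤
        ∑ l ∈ L, (Ba κ l).card + ∑ q ∈ QQ κ, ((Bq κ q).card + ∑ l ∈ L, (Bb κ q l).card) := by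
      refine (card_union_le _ _).trans (Nat.add_le_add card_biUnion_le
        (card_biUnion_le.trans (sum_le_sum fun q _ => ?_)))
      exact (card_union_le _ _).trans (Nat.add_le_add_left card_biUnion_le _)
    have h2 : ((L.biUnion (Ba κ) ∪
        (QQ κ).biUnion (fun q => Bq κ q ∪ L.biUnion (Bb κ q))).card : ℝ) ≤
        ∑ l ∈ L, ((Ba κ l).card : ℝ) +
          ∑ q ∈ QQ κ, (((Bq κ q).card : ℝ) + ∑ l ∈ L, ((Bb κ q l).card : ℝ)) := by
      exact_mod_cast h1
    have h3 : 12 / (z * Real.log z) ≤ 12 * S / (z * Real.log z) := by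
      gcongr
      linarith
    have h4 := mul_le_mul_of_nonneg_left h3 hW0
    calc _ ≤ _ := h2
      _ ≤ C * X * wt m 1 * (12 * S / (z * Real.log z)) +
          C * X * wt m 1 * (44 * S / (z * Real.log z)) :=
        add_le_add ((hsuma κ).trans h4) (hsumb κ)
      _ = _ := by ring
  have hcard1 : (s.card : ℝ) ≤ ∑ κ ∈ Γ, ((L.biUnion (Ba κ) ∪
      (QQ κ).biUnion (fun q => Bq κ q ∪ L.biUnion (Bb κ q))).card : ℝ) := by
    have h1 := (card_le_card hsub).trans card_biUnion_le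
    exact_mod_cast h1
  refine hcard1.trans ((sum_le_sum hstep).trans ?_)
  rw [sum_const, nsmul_eq_mul]
  calc (Γ.card : ℝ) * (C * X * wt m 1 * (56 * S / (z * Real.log z)))
      = ((Γ.card : ℝ) * wt m 1) * (C * X * (56 * S / (z * Real.log z))) := by ring
    _ ≤ (2 / (p : ℝ) ^ 2) * (C * X * (56 * S / (z * Real.log z))) := by
        refine mul_le_mul_of_nonneg_right hΓcard (by positivity)
    _ = 112 * C * S / (z * Real.log z) * X / (p : ℝ) ^ 2 := by
        field_simp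
        ring

/-- **EXC** -/
theorem exc_of (hequt : S_EQUT t c) : S_EXC t c := by
  obtain ⟨C, hC, hE⟩ := hequt
  refine ⟨112 * C, by positivity, ?_⟩
  intro z S QQ J hz hS hdat A
  exact exc_aux hC hE z _ rfl S QQ J hz hS hdat A

end Pool.Agent.K9h53.LX
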