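import Pool.Agent.K9h53.LX.Alg

/-!
Project LX (helper53): induction on the excess.
-/

set_option autoImplicit false

namespace Pool.Agent.K9h53.LX

open Finset Filter
open Pool.Agent.H376R2.MR (lam)
open Pool.Agent.W78.GT
open Pool.Agent.W500.GT (exc_mono exc_prime_mul exc_mul_sqf exc_eq_zero exc_add om_mul_le)
open Pool.Agent.K9h53.LQ (fQ)
open ArithmeticFunction (cardFactors cardDistinctFactors)

variable {a b c : ℤ}

open scoped Classical in
/-- triples with excess at most `k` and sign `s` -/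
noncomputable def Bk (a b c : ℤ) (k : ℕ) (s : ℤ) (X : ℝ) : Finset Tr :=
  (ftri a b c X X).filter (fun e => exc (NT e) ≤ k ∧ lam (NT e) = s)

lemma lam_val (n : ℕ) : lam n = 1 ∨ lam n = -1 := by
  unfold Pool.Agent.H376R2.MR.lam
  exact neg_one_pow_eq_or ℤ _

lemma three_signs {x y w s : ℤ} (hx : x = 1 ∨ x = -1) (hy : y = 1 ∨ y = -1)
    (hw : w = 1 ∨ w = -1) (hs : s = 1 ∨ s = -1) (h : x * y * w = s) : x = s ∨ y = s ∨ w = s := by
  rcases hx with rfl | rfl <;> rcases hy with rfl | rfl <;> rcases hw with rfl | rfl <;>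
    rcases hs with rfl | rfl <;> simp_all

/-- one step -/
lemma step (ha : 0 < a) (hres : S_RES a b c) {k : ℕ} {s : ℤ} (hs : s = 1 ∨ s = -1)
    (h : ∃ κ X₀ : ℝ, 0 < κ ∧ ∀ X : ℝ, X₀ ≤ X → κ * X ≤ ((Bk a b c (k + 1) s X).card : ℝ)) :
    ∃ κ X₀ : ℝ, 0 < κ ∧ ∀ X : ℝ, X₀ ≤ X → κ * X ≤ ((Bk a b c k s X).card : ℝ) := by
  classical
  obtain ⟨κ, X₀, hκ, hX⟩ := h
  obtain ⟨Q, D, X₁, hQ, hR⟩ := hres (κ / 2) (by positivity)
  have hQ0 : 0 < Q := by linarith
  refine ⟨κ / (6 * (D + 1) * Q), Q * max 1 (max X₀ X₁), by positivity, fun Y hY => ?_⟩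
  obtain ⟨X, hXd⟩ : ∃ X : ℝ, X = Y / Q := ⟨_, rfl⟩
  have hYX : Y = Q * X := by rw [hXd]; field_simp
  have hXm : max 1 (max X₀ X₁) ≤ X := by
    rw [hXd, le_div_iff₀ hQ0]
    linarith
  have hX1 : 1 ≤ X := (le_max_left _ _).trans hXm
  have hXX0 : X₀ ≤ X := ((le_max_left _ _).trans (le_max_right _ _)).trans hXm
  have hXX1 : X₁ ≤ X := ((le_max_right _ _).trans (le_max_right _ _)).trans hXm
  obtain ⟨E, F₀, F₁, F₂, hE, hF, hm⟩ := hR X hXX1
  have hB := hX X hXX0
  obtain ⟨U, hU⟩ : ∃ U : Finset Tr, U = (Bk a b c (k + 1) s X).filter (fun e => e ∉ E) := ⟨_, rfl⟩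
  have hUc : κ / 2 * X ≤ (U.card : ℝ) := by
    have h1 : (Bk a b c (k + 1) s X).card ≤ U.card + E.card := by
      have h2 : Bk a b c (k + 1) s X ⊆ U ∪ E := by
        intro e he
        rw [mem_union, hU, mem_filter]
        by_cases h3 : e ∈ E
        · exact Or.inr h3
        · exact Or.inl ⟨he, h3⟩
      exact (card_le_card h2).trans (card_union_le _ _)
    have h2 : ((Bk a b c (k + 1) s X).card : ℝ) ≤ U.card + E.card := by exact_mod_cast h1
    linarith
  -- the three fibres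
  have hgen : ∀ F : Tr → Tr, (∀ f : Tr,
      ((ftri a b c X X).filter (fun e => e ∉ E ∧ F e = f)).card ≤ D) →
      (U.filter (fun e => F e ∈ Bk a b c k s Y)).card ≤ D * (Bk a b c k s Y).card := by
    intro F hFm
    apply Finset.card_le_mul_card_image_of_maps_to (f := F)
    · intro e he
      rw [mem_filter] at he
      exact he.2
    · intro f _
      refine le_trans (Finset.card_le_card ?_) (hFm f)
      intro e he
      rw [mem_filter, mem_filter, hU, mem_filter] at he
      rw [mem_filter]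
      obtain ⟨⟨⟨h1, h2⟩, h3⟩, h4⟩ := he
      unfold Bk at h1
      rw [mem_filter] at h1
      exact ⟨h1.1, h2, h4⟩
  have h0 := hgen F₀ fun f => (hm f).1
  have h1 := hgen F₁ fun f => (hm f).2.1
  have h2 := hgen F₂ fun f => (hm f).2.2
  have hcover : U ⊆ U.filter (fun e => F₀ e ∈ Bk a b c k s Y) ∪
      (U.filter (fun e => F₁ e ∈ Bk a b c k s Y) ∪ U.filter (fun e => F₂ e ∈ Bk a b c k s Y)) := by
    intro e he
    have he' := he
    rw [hU, mem_filter] at he'
    obtain ⟨h3, h4⟩ := he'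
    unfold Bk at h3
    rw [mem_filter] at h3
    obtain ⟨h5, h6, h7⟩ := h3
    obtain ⟨⟨g0, g1, g2⟩, gs, x0, x1, x2⟩ := hF e h5 h4
    rw [h7] at gs
    rw [← hYX] at g0 g1 g2
    rw [mem_union, mem_union, mem_filter, mem_filter, mem_filter]
    rcases three_signs (lam_val _) (lam_val _) (lam_val _) hs gs with h8 | h8 | h8
    · left
      refine ⟨he, ?_⟩
      unfold Bk
      rw [mem_filter]
      exact ⟨g0, by omega, h8⟩
    · right; left
      refine ⟨he, ?_⟩
      unfold Bk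
      rw [mem_filter]
      exact ⟨g1, by omega, h8⟩
    · right; right
      refine ⟨he, ?_⟩
      unfold Bk
      rw [mem_filter]
      exact ⟨g2, by omega, h8⟩
  have h3 := (card_le_card hcover).trans ((card_union_le _ _).trans
    (Nat.add_le_add_left (card_union_le _ _) _))
  have h4 : U.card ≤ 3 * D * (Bk a b c k s Y).card := by
    have e7 : 3 * D * (Bk a b c k s Y).card = D * (Bk a b c k s Y).card +
      (D * (Bk a b c k s Y).card + D * (Bk a b c k s Y).card) := by ring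
    rw [e7]
    omega
  have h5 : (U.card : ℝ) ≤ 3 * (D + 1) * (Bk a b c k s Y).card := by
    have h6 : (U.card : ℝ) ≤ 3 * D * (Bk a b c k s Y).card := by exact_mod_cast h4
    have h7 : (0 : ℝ) ≤ (Bk a b c k s Y).card := Nat.cast_nonneg _
    nlinarith
  obtain ⟨d, hd⟩ : ∃ d : ℝ, d = (D : ℝ) + 1 := ⟨_, rfl⟩
  have hd0 : 0 < d := by rw [hd]; positivity
  rw [← hd] at h5 ⊢
  have h6 : κ / (6 * d * Q) * Y = κ / 2 * X / (3 * d) := by
    rw [hYX, div_mul_eq_mul_div, div_eq_div_iff (by positivity) (by positivity)]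
    ring
  rw [h6, div_le_iff₀ (by positivity)]
  linarith

/-- the excess of a number with a bounded square factor -/
lemma exc_le_of {m K : ℕ} (hm : m ≠ 0) (h : ∀ q : ℕ, q ^ 2 ∣ m → q ≤ K) : exc m ≤ 2 * K := by
  obtain ⟨s, k, hk, hs⟩ := Nat.sq_mul_squarefree m
  have hkK : k ≤ K := h k ⟨s, hk.symm⟩
  have hk0 : k ≠ 0 := by
    rintro rfl
    apply hm
    rw [← hk]
    ring
  have h1 := exc_add m
  have h2 : cardFactors m = 2 * cardFactors k + cardFactors s := by
    rw [← hk, ArithmeticFunction.cardFactors_mul (pow_ne_zero 2 hk0) hs.ne_zero,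
      ArithmeticFunction.cardFactors_pow]
  have h3 : cardDistinctFactors s ≤ cardDistinctFactors m := by
    rw [ArithmeticFunction.cardDistinctFactors_apply, ArithmeticFunction.cardDistinctFactors_apply]
    have h4 : s.primeFactors ⊆ m.primeFactors :=
      Nat.primeFactors_mono ⟨k ^ 2, by rw [← hk]; ring⟩ hm
    exact Finset.card_le_card h4
  have h4 := (ArithmeticFunction.cardDistinctFactors_eq_cardFactors_iff_squarefree hs.ne_zero).2 hs
  have h5 : cardFactors k ≤ k := by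
    have h6 : 2 ^ cardFactors k ≤ k := by
      rw [ArithmeticFunction.cardFactors_apply]
      conv_rhs => rw [← Nat.prod_primeFactorsList hk0]
      rw [← List.prod_replicate]
      have : ∀ l : List ℕ, (∀ p ∈ l, 2 ≤ p) → (List.replicate l.length 2).prod ≤ l.prod := by
        intro l
        induction l with
        | nil => intro _; simp
        | cons x l ih =>
          intro hl
          rw [List.length_cons, List.replicate_succ, List.prod_cons, List.prod_cons]
          exact Nat.mul_le_mul (hl x List.mem_cons_self)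
            (ih fun p hp => hl p (List.mem_cons_of_mem _ hp))
      exact this _ fun p hp => (Nat.prime_of_mem_primeFactorsList hp).two_le
    exact (Nat.lt_two_pow_self.le).trans h6
  omega

/-- the start -/
lemma start (ha : 0 < a) (hns : ¬ IsSquare (b ^ 2 - 4 * (a * c))) {s : ℤ} (hs : s = 1 ∨ s = -1) :
    ∃ (k : ℕ) (κ X₀ : ℝ), 0 < κ ∧ ∀ X : ℝ, X₀ ≤ X → κ * X ≤ ((Bk a b c k s X).card : ℝ) := by
  classical
  obtain ⟨K, κ, X₀, hκ, hX⟩ := LN.near_sqf ha hns (LN.fin_all ha hns) hs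
  obtain ⟨M, hM⟩ : ∃ M : ℕ, M = (a * b ^ 2 + b ^ 2 + |c|).toNat := ⟨_, rfl⟩
  refine ⟨2 * K, κ / 2, max (max 1 X₀) (2 * M ^ 2 / κ), by positivity, fun X hXX => ?_⟩
  have hX1 : 1 ≤ X := (le_max_left _ _).trans ((le_max_left _ _).trans hXX)
  have hX2 : X₀ ≤ X := (le_max_right _ _).trans ((le_max_left _ _).trans hXX)
  have hX3 : 2 * (M : ℝ) ^ 2 / κ ≤ X := (le_max_right _ _).trans hXX
  have hX0 : 0 ≤ X := by linarith
  have h1 := hX X hX2
  have hsub : LN.PR (fun m => lam m = s ∧ ∀ q : ℕ, q ^ 2 ∣ m → q ≤ K) a b c X ⊆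
      (Bk a b c (2 * K) s X).image (fun e => (e.1, e.2.2)) ∪ (Icc 1 M ×ˢ Icc 1 M) := by
    intro p hp
    unfold LN.PR at hp
    rw [mem_filter, mem_product, Finset.mem_Icc, Finset.mem_Icc] at hp
    obtain ⟨⟨⟨p1, p2⟩, p3, p4⟩, t, t1, t2, t3, t4, t5⟩ := hp
    rw [mem_union]
    have hval : (fQ a b c t).toNat = p.1 * p.2 := by
      rw [← t3]
      exact_mod_cast Int.toNat_natCast (p.1 * p.2)
    by_cases hpos : 0 ≤ 2 * a * (t : ℤ) + b
    · left
      rw [mem_image]
      refine ⟨(p.1, (t : ℤ), p.2), ?_, rfl⟩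
      unfold Bk
      rw [mem_filter, mem_ftri ha]
      rw [Nat.le_floor_iff hX0] at p2 p4
      have hNT : NT (p.1, (t : ℤ), p.2) = (fQ a b c t).toNat := by
        rw [hval]
        rfl
      refine ⟨⟨⟨p1, p3, t3, ?_, hpos⟩, p2, p4⟩, ?_, ?_⟩
      · show (1 : ℤ) ≤ (t : ℤ)
        exact_mod_cast t1
      · rw [hNT]
        exact exc_le_of (by omega) t5
      · rw [hNT]
        exact t4
    · right
      have ht : (t : ℤ) < |b| := by
        have h3 := neg_abs_le b
        have h4 : (1 : ℤ) * t ≤ a * t := mul_le_mul_of_nonneg_right (by linarith) (by positivity)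
        have h5 : 2 * a * (t : ℤ) = 2 * (a * t) := by ring
        omega
      have hfle : fQ a b c t ≤ a * b ^ 2 + b ^ 2 + |c| := by
        unfold LQ.fQ
        have h3 : (t : ℤ) ^ 2 ≤ b ^ 2 := by
          rw [← sq_abs b]
          exact pow_le_pow_left₀ (by positivity) ht.le 2
        have h4 : b * (t : ℤ) ≤ b ^ 2 := by
          rw [← sq_abs b]
          have h5 : b * (t : ℤ) ≤ |b| * t := mul_le_mul_of_nonneg_right (le_abs_self b) (by positivity)
          have h6 : |b| * (t : ℤ) ≤ |b| * |b| := mul_le_mul_of_nonneg_left ht.le (abs_nonneg b)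
          nlinarith
        have h5 : a * (t : ℤ) ^ 2 ≤ a * b ^ 2 := mul_le_mul_of_nonneg_left h3 ha.le
        have h6 := le_abs_self c
        linarith
      have hprod : p.1 * p.2 ≤ M := by
        rw [← hval, hM]
        exact Int.toNat_le_toNat hfle
      rw [mem_product, Finset.mem_Icc, Finset.mem_Icc]
      exact ⟨⟨p1, (Nat.le_mul_of_pos_right _ p3).trans hprod⟩, p3,
        (Nat.le_mul_of_pos_left _ p1).trans hprod⟩
  have h3 := (card_le_card hsub).trans ((card_union_le _ _).trans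
    (Nat.add_le_add_right card_image_le _))
  rw [card_product, Nat.card_Icc, Nat.add_sub_cancel] at h3
  have h4 : ((LN.PR (fun m => lam m = s ∧ ∀ q : ℕ, q ^ 2 ∣ m → q ≤ K) a b c X).card : ℝ) ≤
      ((Bk a b c (2 * K) s X).card : ℝ) + M * M := by exact_mod_cast h3
  have h5 : (M : ℝ) * M ≤ κ / 2 * X := by
    rw [div_le_iff₀ hκ] at hX3
    nlinarith
  linarith

/-- **MU** from the resolution -/
theorem mu_of (ha : 0 < a) (hns : ¬ IsSquare (b ^ 2 - 4 * (a * c))) (hres : S_RES a b c) :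
    S_MU a b c := by
  classical
  intro s hs
  have hall : ∀ k : ℕ, (∃ κ X₀ : ℝ, 0 < κ ∧ ∀ X : ℝ, X₀ ≤ X →
      κ * X ≤ ((Bk a b c k s X).card : ℝ)) →
      ∃ κ X₀ : ℝ, 0 < κ ∧ ∀ X : ℝ, X₀ ≤ X → κ * X ≤ ((Bk a b c 0 s X).card : ℝ) := by
    intro k
    induction k with
    | zero => exact fun h => h
    | succ k ih => exact fun h => ih (step ha hres hs h)
  obtain ⟨k, hk⟩ := start ha hns hs
  obtain ⟨κ, X₀, hκ, hX⟩ := hall k hk
  refine ⟨κ, max 0 X₀, hκ, fun X hXX => ?_⟩
  have hX0 : 0 ≤ X := (le_max_left _ _).trans hXX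
  refine (hX X ((le_max_right _ _).trans hXX)).trans (Nat.cast_le.2 ?_)
  apply card_le_card_of_injOn (fun e => (e.1, e.2.2))
  · intro e he
    rw [Finset.mem_coe] at he
    unfold Bk at he
    rw [mem_filter, mem_ftri ha] at he
    obtain ⟨⟨h1, h2, h3⟩, h4, h5⟩ := he
    have hN := FNT_ne_zero h1
    have hfv := FNT_fQ h1
    rw [Finset.mem_coe]
    unfold LN.PR
    rw [mem_filter, mem_product, Finset.mem_Icc, Finset.mem_Icc, Nat.le_floor_iff hX0,
      Nat.le_floor_iff hX0]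
    have hn1 := h1.2.2.2.1
    have hnn : ((e.2.1.toNat : ℕ) : ℤ) = e.2.1 := Int.toNat_of_nonneg (by omega)
    refine ⟨⟨⟨h1.1, h2⟩, h1.2.1, h3⟩, e.2.1.toNat, by omega, ?_, ?_, ?_⟩
    · rw [hnn, ← hfv]
      have : 0 < NT e := Nat.pos_of_ne_zero hN
      exact_mod_cast this
    · rw [hnn]
      exact h1.2.2.1
    · rw [hnn, ← hfv, Int.toNat_natCast]
      have hsqf : Squarefree (NT e) := (exc_eq_zero hN).1 (by omega)
      show ArithmeticFunction.moebius (NT e) = s
      rw [ArithmeticFunction.moebius_apply_of_squarefree hsqf]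
      exact h5
  · intro e he e' he' hee
    rw [Finset.mem_coe] at he he'
    unfold Bk at he he'
    rw [mem_filter, mem_ftri ha] at he he'
    obtain ⟨⟨h1, -⟩, -⟩ := he
    obtain ⟨⟨h1', -⟩, -⟩ := he'
    simp only [Prod.mk.injEq] at hee
    obtain ⟨g1, g2⟩ := hee
    refine Prod.ext g1 (Prod.ext ?_ g2)
    have h3 : fQ a b c e.2.1 = fQ a b c e'.2.1 := by
      rw [← h1.2.2.1, ← h1'.2.2.1, g1, g2]
    unfold LQ.fQ at h3
    have h4 : (e.2.1 - e'.2.1) * (a * (e.2.1 + e'.2.1) + b) = 0 := by linear_combination h3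
    rcases mul_eq_zero.1 h4 with h5 | h5
    · linarith
    · have h6 := h1.2.2.2.2
      have h7 := h1'.2.2.2.2
      have h8 : (2 * a * e.2.1 + b) + (2 * a * e'.2.1 + b) = 0 := by linear_combination 2 * h5
      have h9 : 2 * a * e.2.1 + b = 0 := by linarith
      have h10 : 2 * a * e'.2.1 + b = 0 := by linarith
      have h11 : 2 * a * (e.2.1 - e'.2.1) = 0 := by linear_combination h9 - h10
      rcases mul_eq_zero.1 h11 with h12 | h12
      · omega
      · linarith

end Pool.Agent.K9h53.LX
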