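import Pool.Agent.K9h53.LX.RedStm

/-!
Project LX (helper53): the reduction to polynomials without square factors at the primes dividing
`2 a D`, in a residue class.
-/

set_option autoImplicit false

namespace Pool.Agent.K9h53.LX

open Finset Filter
open Pool.Agent.K9h53.LQ (fQ)

/-- transfer of the counts from a progression to the integers -/
lemma transfer {A B : Set ℕ} {M u : ℕ} (hM : 0 < M) (hAB : ∀ t : ℕ, 1 ≤ t → t ∈ A → M * t + u ∈ B)
    (h : ∀ ε : ℝ, 0 < ε → ∃ N₀ : ℕ, ∀ N : ℕ, N₀ ≤ N → (N : ℝ) / Real.log N ^ (Real.log 2 + ε) ≤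
      (Set.ncard {n : ℕ | 1 ≤ n ∧ n ≤ N ∧ n ∈ A} : ℝ)) (ε : ℝ) (hε : 0 < ε) :
    ∃ N₀ : ℕ, ∀ N : ℕ, N₀ ≤ N → (N : ℝ) / Real.log N ^ (Real.log 2 + ε) ≤
      (Set.ncard {n : ℕ | 1 ≤ n ∧ n ≤ N ∧ n ∈ B} : ℝ) := by
  obtain ⟨M₀, hM₀⟩ := h (ε / 2) (by positivity)
  have hlog : Tendsto (fun N : ℕ => Real.log (N : ℝ) ^ (ε / 2)) atTop atTop :=
    (tendsto_rpow_atTop (by positivity)).comp
      (Real.tendsto_log_atTop.comp tendsto_natCast_atTop_atTop)
  obtain ⟨N₂, hN₂⟩ := eventually_atTop.1 (hlog.eventually_ge_atTop (2 * M : ℝ))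
  refine ⟨max N₂ (2 * (M * (M₀ + 2) + u) + M * 4), fun N hN => ?_⟩
  have h1 := hN₂ N ((le_max_left _ _).trans hN)
  have h2 : 2 * (M * (M₀ + 2) + u) + M * 4 ≤ N := (le_max_right _ _).trans hN
  obtain ⟨T, hT⟩ : ∃ T : ℕ, T = (N - u) / M := ⟨_, rfl⟩
  have hMq : M * T ≤ N - u := by
    rw [hT]
    exact Nat.mul_div_le _ _
  have hMq2 : N - u < M * T + M := by
    rw [hT]
    have := Nat.lt_div_mul_add (a := N - u) hM
    rw [mul_comm] at this
    exact this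
  have hMM : M₀ ≤ T := by
    by_contra hcon
    push Not at hcon
    have h3 : M * T ≤ M * M₀ := Nat.mul_le_mul_left _ hcon.le
    have h4 : M * (M₀ + 2) = M * M₀ + M * 2 := by ring
    omega
  have hM2 : 2 ≤ T := by
    by_contra hcon
    push Not at hcon
    have h3 : M * T ≤ M * 2 := Nat.mul_le_mul_left _ hcon.le
    have h4 : M * (M₀ + 2) = M * M₀ + M * 2 := by ring
    omega
  have hNM : (N : ℝ) ≤ 2 * M * T := by
    have h3 : N ≤ 2 * (M * T) := by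
      have h4 : M * (M₀ + 2) = M * M₀ + M * 2 := by ring
      omega
    have h4 : (N : ℝ) ≤ ((2 * (M * T) : ℕ) : ℝ) := by exact_mod_cast h3
    push_cast at h4
    linarith
  have hML : T ≤ N := by
    have h3 : T ≤ M * T := Nat.le_mul_of_pos_left _ hM
    omega
  have hMR : (2 : ℝ) ≤ T := by exact_mod_cast hM2
  have hMLR : (T : ℝ) ≤ N := by exact_mod_cast hML
  have hlM : 0 < Real.log T := Real.log_pos (by linarith)
  have hlog2 : Real.log T ≤ Real.log N := Real.log_le_log (by linarith) hMLR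
  have hlN : 0 < Real.log N := hlM.trans_le hlog2
  have h5 := hM₀ T hMM
  -- comparison of the sets
  have hsub : (fun m : ℕ => M * m + u) '' {n : ℕ | 1 ≤ n ∧ n ≤ T ∧ n ∈ A} ⊆
      {n : ℕ | 1 ≤ n ∧ n ≤ N ∧ n ∈ B} := by
    rintro n ⟨m, ⟨m1, m2, m3⟩, rfl⟩
    refine ⟨?_, ?_, hAB m m1 m3⟩
    · have : 1 ≤ M * m := Nat.mul_pos hM (by omega)
      simp only
      omega
    · have : M * m ≤ M * T := Nat.mul_le_mul_left _ m2
      simp only
      have hu : u ≤ N := by omega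
      omega
  have hfin : {n : ℕ | 1 ≤ n ∧ n ≤ N ∧ n ∈ B}.Finite :=
    (Set.finite_Icc 1 N).subset fun n hn => ⟨hn.1, hn.2.1⟩
  have h6 := Set.ncard_le_ncard hsub hfin
  rw [Set.ncard_image_of_injective _ (fun x y hxy => by
    simp only [add_left_inj] at hxy
    exact Nat.eq_of_mul_eq_mul_left hM hxy)] at h6
  refine le_trans ?_ (h5.trans (Nat.cast_le.2 h6))
  have hp1 : 0 < Real.log (T : ℝ) ^ (Real.log 2 + ε / 2) := Real.rpow_pos_of_pos hlM _
  have hp2 : 0 < Real.log (N : ℝ) ^ (Real.log 2 + ε / 2) := Real.rpow_pos_of_pos hlN _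
  have hp3 : 0 < Real.log (N : ℝ) ^ (Real.log 2 + ε) := Real.rpow_pos_of_pos hlN _
  have hlog20 : 0 < Real.log 2 := Real.log_pos (by norm_num)
  have hcmp : Real.log (T : ℝ) ^ (Real.log 2 + ε / 2) ≤ Real.log (N : ℝ) ^ (Real.log 2 + ε / 2) :=
    Real.rpow_le_rpow hlM.le hlog2 (by positivity)
  have hpow : Real.log (N : ℝ) ^ (Real.log 2 + ε) =
      Real.log N ^ (Real.log 2 + ε / 2) * Real.log N ^ (ε / 2) := by
    rw [← Real.rpow_add hlN]
    congr 1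
    ring
  have h7 : (T : ℝ) / Real.log N ^ (Real.log 2 + ε / 2) ≤
      (T : ℝ) / Real.log T ^ (Real.log 2 + ε / 2) :=
    div_le_div_of_nonneg_left (by linarith) hp1 hcmp
  refine le_trans ?_ h7
  rw [div_le_div_iff₀ hp3 hp2, hpow]
  have h8 : (N : ℝ) ≤ T * Real.log N ^ (ε / 2) := by
    refine hNM.trans ?_
    have h9 := mul_le_mul_of_nonneg_left h1 (by linarith : (0 : ℝ) ≤ T)
    linarith
  have h9 := mul_le_mul_of_nonneg_right h8 hp2.le
  linarith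

/-- congruence of the values -/
lemma fQ_congr {a b c : ℤ} {m x y : ℤ} (h : m ∣ x - y) : m ∣ fQ a b c x - fQ a b c y := by
  have e : fQ a b c x - fQ a b c y = (x - y) * (a * (x + y) + b) := by
    unfold LQ.fQ
    ring
  rw [e]
  exact h.mul_right _

lemma fQ_ne_zero {a b c : ℤ} (hns : ¬ IsSquare (b ^ 2 - 4 * (a * c))) (n : ℤ) :
    fQ a b c n ≠ 0 := by
  intro h
  apply hns
  refine ⟨2 * a * n + b, ?_⟩
  unfold LQ.fQ at h
  linear_combination (-4 * a) * h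

/-- choice of the class -/
lemma exists_class {a b c : ℤ} (hns : ¬ IsSquare (b ^ 2 - 4 * (a * c))) (ha : 0 < a) {q u k : ℕ}
    (hq : 0 < q)
    (hk : IsGreatest {k : ℕ | ∀ n : ℕ, n ≡ u [MOD q] →
      (k : ℤ) ^ 2 ∣ a * (n : ℤ) ^ 2 + b * n + c} k) :
    ∃ M n' : ℕ, 0 < M ∧ k ^ 2 ∣ M ∧ q ∣ M ∧ n' ≡ u [MOD q] ∧
      (∀ l : ℕ, l.Prime → (l : ℤ) ∣ 2 * a * (b ^ 2 - 4 * (a * c)) * M → ∀ x : ℤ,
        (M : ℤ) ∣ x - n' → ¬ ((k * l : ℕ) : ℤ) ^ 2 ∣ fQ a b c x) := by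
  classical
  have hD0 : b ^ 2 - 4 * (a * c) ≠ 0 := by
    intro h
    exact hns ⟨0, by rw [h, mul_zero]⟩
  have hk0 : k ≠ 0 := by
    rintro rfl
    have h1 := hk.1 u rfl
    have h2 := fQ_ne_zero hns (u : ℤ)
    unfold LQ.fQ at h2
    apply h2
    have h3 : ((0 : ℕ) : ℤ) ^ 2 = 0 := by norm_num
    rw [h3] at h1
    exact zero_dvd_iff.1 h1
  -- the integers `n_l`
  have hex : ∀ l : ℕ, ∃ n : ℕ, l.Prime → n ≡ u [MOD q] ∧ ¬ ((k * l : ℕ) : ℤ) ^ 2 ∣ fQ a b c n := by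
    intro l
    by_cases hl : l.Prime
    · by_contra hcon
      push Not at hcon
      have h1 : k * l ∈ {k : ℕ | ∀ n : ℕ, n ≡ u [MOD q] →
          (k : ℤ) ^ 2 ∣ a * (n : ℤ) ^ 2 + b * n + c} := by
        intro n hn
        exact (hcon n).2 hn
      have h2 := hk.2 h1
      have h3 := hl.two_le
      have h4 : k * 2 ≤ k * l := Nat.mul_le_mul_left _ h3
      omega
    · exact ⟨0, fun h => absurd h hl⟩
  choose ν hν using hex
  obtain ⟨R, hR⟩ : ∃ R : ℕ, R = (2 * a * (b ^ 2 - 4 * (a * c))).natAbs * (q * k) := ⟨_, rfl⟩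
  have hR0 : R ≠ 0 := by
    rw [hR]
    refine mul_ne_zero ?_ (mul_ne_zero hq.ne' hk0)
    rw [Int.natAbs_ne_zero]
    exact mul_ne_zero (mul_ne_zero two_ne_zero ha.ne') hD0
  have hqR : q ∣ R := by rw [hR]; exact (Dvd.intro _ rfl : q ∣ q * k).mul_left _
  have hkR : k ∣ R := by rw [hR]; exact (Dvd.intro_left _ rfl : k ∣ q * k).mul_left _
  obtain ⟨M, hM⟩ : ∃ M : ℕ, M = R ^ 4 := ⟨_, rfl⟩
  have hM0 : M ≠ 0 := by rw [hM]; exact pow_ne_zero _ hR0
  have hRM : R ∣ M := by rw [hM]; exact dvd_pow_self _ (by norm_num)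
  have hmem : ∀ l : ℕ, l.Prime → l ∣ R → l ∈ R.primeFactors := fun l hl h =>
    Nat.mem_primeFactors.2 ⟨hl, h, hR0⟩
  have hne : ∀ l ∈ R.primeFactors, l ^ (M.factorization l) ≠ 0 := fun l hl =>
    pow_ne_zero _ (Nat.prime_of_mem_primeFactors hl).ne_zero
  have hpp : Set.Pairwise (R.primeFactors : Set ℕ)
      (Function.onFun Nat.Coprime (fun l : ℕ => l ^ (M.factorization l))) := by
    intro l hl l' hl' hll
    exact Nat.Coprime.pow _ _ ((Nat.coprime_primes (Nat.prime_of_mem_primeFactors hl)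
      (Nat.prime_of_mem_primeFactors hl')).2 hll)
  obtain ⟨n', hn'⟩ := Nat.chineseRemainderOfFinset ν (fun l => l ^ (M.factorization l))
    R.primeFactors hne hpp
  -- the congruence modulo prime powers dividing `M`
  have hcong : ∀ l j : ℕ, l.Prime → l ∣ R → l ^ j ∣ M → n' ≡ ν l [MOD l ^ j] := by
    intro l j hl hlR hj
    have h1 : j ≤ M.factorization l := (hl.pow_dvd_iff_le_factorization hM0).1 hj
    exact (hn' l (hmem l hl hlR)).of_dvd (pow_dvd_pow _ h1)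
  refine ⟨M, n', Nat.pos_of_ne_zero hM0, ?_, hqR.trans hRM, ?_, ?_⟩
  · rw [hM]
    exact (pow_dvd_pow_of_dvd hkR 2).trans (pow_dvd_pow _ (by norm_num))
  · -- `n' = u mod q`
    rw [Nat.modEq_iff_dvd]
    have h1 : q ∣ ((u : ℤ) - n').natAbs := by
      rw [Nat.dvd_iff_prime_pow_dvd_dvd]
      intro p j hp hpj
      rcases Nat.eq_zero_or_pos j with rfl | hj
      · simp
      · have hpR : p ∣ R := ((dvd_pow_self p hj.ne').trans hpj).trans hqR
        have h2 := hcong p j hp hpR (hpj.trans (hqR.trans hRM))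
        have h3 := h2.trans ((hν p hp).1.of_dvd hpj)
        have h4 := (Nat.modEq_iff_dvd).1 h3
        exact Int.natCast_dvd.1 h4
    exact Int.natCast_dvd.2 h1
  · intro l hl hlM x hx hcon
    have hlR : l ∣ R := by
      have h1 : (l : ℤ) ∣ 2 * a * (b ^ 2 - 4 * (a * c)) ∨ (l : ℤ) ∣ M :=
        (Nat.prime_iff_prime_int.1 hl).dvd_or_dvd hlM
      rcases h1 with h1 | h1
      · rw [hR]
        exact (Int.natCast_dvd.1 h1).mul_right _
      · have h2 : l ∣ M := by exact_mod_cast h1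
        rw [hM] at h2
        exact hl.dvd_of_dvd_pow h2
    have hklM : (k * l) ^ 2 ∣ M := by
      have h1 : k * l ∣ R ^ 2 := by
        rw [sq]
        exact mul_dvd_mul hkR hlR
      have h2 := pow_dvd_pow_of_dvd h1 2
      rw [hM]
      have e : (R ^ 2) ^ 2 = R ^ 4 := by ring
      rwa [e] at h2
    obtain ⟨hν1, hν2⟩ := hν l hl
    apply hν2
    have hk2 : ((k ^ 2 : ℕ) : ℤ) ∣ fQ a b c (ν l) := by
      push_cast
      exact hk.1 (ν l) hν1
    have hfx : ((k * l) ^ 2 : ℕ) ∣ (fQ a b c (ν l)).natAbs := by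
      rw [Nat.dvd_iff_prime_pow_dvd_dvd]
      intro p j hp hpj
      by_cases hpl : p = l
      · subst hpl
        have h1 : p ^ j ∣ M := hpj.trans hklM
        have h2 := hcong p j hp hlR h1
        have h3 : ((p ^ j : ℕ) : ℤ) ∣ x - ν p := by
          have h4 : ((p ^ j : ℕ) : ℤ) ∣ x - n' :=
            (Int.natCast_dvd_natCast.2 h1).trans hx
          have h5 := (Nat.modEq_iff_dvd).1 h2.symm
          have h6 := dvd_add h4 h5
          have e : x - n' + ((n' : ℤ) - ν p) = x - ν p := by ring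
          rwa [e] at h6
        have h4 := fQ_congr (a := a) (b := b) (c := c) h3
        have h5 : ((p ^ j : ℕ) : ℤ) ∣ fQ a b c x := by
          refine (Int.natCast_dvd_natCast.2 hpj).trans ?_
          push_cast at hcon ⊢
          exact hcon
        have h6 := dvd_sub h5 h4
        rw [sub_sub_cancel] at h6
        exact Int.natCast_dvd.1 h6
      · have h1 : p ^ j ∣ k ^ 2 := by
          have h2 : Nat.Coprime (p ^ j) (l ^ 2) :=
            Nat.Coprime.pow _ _ ((Nat.coprime_primes hp hl).2 hpl)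
          rw [mul_pow] at hpj
          exact h2.dvd_of_dvd_mul_right hpj
        exact h1.trans (Int.natCast_dvd.1 hk2)
    have h7 := Int.natCast_dvd.2 hfx
    push_cast at h7 ⊢
    exact h7

/-- **RED** -/
theorem red : S_RED := by
  classical
  intro hmu a b c ha hns q u k hq hk s hs
  obtain ⟨M, n', hM, hkM, hqM, hn', hcl⟩ := exists_class hns ha hq hk
  have hk0 : k ≠ 0 := by
    rintro rfl
    rw [zero_pow two_ne_zero, zero_dvd_iff] at hkM
    omega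
  have hkpos : 0 < k := Nat.pos_of_ne_zero hk0
  obtain ⟨M₁, hM₁⟩ := hkM
  have hM₁0 : 0 < M₁ := by
    rcases Nat.eq_zero_or_pos M₁ with h | h
    · rw [h, mul_zero] at hM₁
      omega
    · exact h
  have hM₁Z : (0 : ℤ) < M₁ := by exact_mod_cast hM₁0
  have hMZ : (0 : ℤ) < M := by exact_mod_cast hM
  have hMe : (M : ℤ) = (k : ℤ) ^ 2 * M₁ := by rw [hM₁]; push_cast; ring
  have hkc : (k : ℤ) ^ 2 ∣ fQ a b c n' := hk.1 n' hn'
  obtain ⟨c₁, hc₁⟩ := hkc
  obtain ⟨a₁, ha₁⟩ : ∃ a₁ : ℤ, a₁ = a * M₁ * M := ⟨_, rfl⟩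
  obtain ⟨b₁, hb₁⟩ : ∃ b₁ : ℤ, b₁ = (2 * a * n' + b) * M₁ := ⟨_, rfl⟩
  have ha₁0 : 0 < a₁ := by rw [ha₁]; positivity
  have hval : ∀ t : ℤ, fQ a b c (n' + M * t) = (k : ℤ) ^ 2 * fQ a₁ b₁ c₁ t := by
    intro t
    have h1 : fQ a b c (n' + M * t) = fQ a b c n' + a * M ^ 2 * t ^ 2 + (2 * a * n' + b) * M * t := by
      unfold LQ.fQ
      ring
    rw [h1, hc₁, ha₁, hb₁]
    unfold LQ.fQ
    rw [hMe]
    ring
  have hdisc : b₁ ^ 2 - 4 * (a₁ * c₁) = (M₁ : ℤ) ^ 2 * (b ^ 2 - 4 * (a * c)) := by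
    rw [ha₁, hb₁, hMe]
    unfold LQ.fQ at hc₁
    linear_combination (-4 * a * (M₁ : ℤ) ^ 2) * (-hc₁)
  have hns₁ : ¬ IsSquare (b₁ ^ 2 - 4 * (a₁ * c₁)) := by
    rw [hdisc]
    rintro ⟨r, hr⟩
    apply hns
    have h1 : (M₁ : ℤ) ^ 2 ∣ r ^ 2 := Dvd.intro _ (by rw [hr]; ring)
    obtain ⟨w, hw⟩ := (Int.pow_dvd_pow_iff two_ne_zero).1 h1
    refine ⟨w, ?_⟩
    have h2 : (M₁ : ℤ) ^ 2 * (b ^ 2 - 4 * (a * c)) = (M₁ : ℤ) ^ 2 * (w * w) := by
      rw [hr, hw]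
      ring
    exact mul_left_cancel₀ (by positivity) h2
  have hH : Hf a₁ b₁ c₁ := by
    intro l hl hld t hlt
    refine hcl l hl ?_ (n' + M * t) ⟨t, by ring⟩ ?_
    · rw [hdisc, ha₁] at hld
      have e1 : 2 * (a * (M₁ : ℤ) * M) * ((M₁ : ℤ) ^ 2 * (b ^ 2 - 4 * (a * c))) =
          (2 * a * (b ^ 2 - 4 * (a * c)) * M) * (M₁ : ℤ) ^ 3 := by ring
      rw [e1] at hld
      rcases (Nat.prime_iff_prime_int.1 hl).dvd_or_dvd hld with h1 | h1
      · exact h1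
      · have h2 := (Nat.prime_iff_prime_int.1 hl).dvd_of_dvd_pow h1
        have h3 : (l : ℤ) ∣ M := by
          rw [hMe]
          exact h2.mul_left _
        exact h3.mul_left _
    · rw [hval]
      push_cast
      rw [mul_pow]
      exact mul_dvd_mul_left _ hlt
  obtain ⟨⟨κ, hκ, N₁, hpairs⟩, hmany⟩ := LN.bothR_of ha₁0 hns₁ (hmu a₁ b₁ c₁ ha₁0 hns₁ hH s hs)
  constructor
  · intro ε hε
    have h1 := transfer (A := {t : ℕ | ∃ m : ℕ, 1 ≤ m ∧ (m : ℤ) = a₁ * (t : ℤ) ^ 2 + b₁ * t + c₁ ∧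
      ArithmeticFunction.moebius m = s}) (B := {n : ℕ | n ≡ u [MOD q] ∧ ∃ m : ℕ,
      a * (n : ℤ) ^ 2 + b * n + c = (k : ℤ) ^ 2 * m ∧ ArithmeticFunction.moebius m = s})
      (M := M) (u := n') hM (by
        rintro t ht ⟨m, m1, m2, m3⟩
        refine ⟨?_, m, ?_, m3⟩
        · have h2 : M * t + n' ≡ 0 + n' [MOD q] :=
            Nat.ModEq.add_right _ ((Nat.modEq_zero_iff_dvd).2 (hqM.mul_right _))
          rw [zero_add] at h2
          exact h2.trans hn'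
        · have h2 := hval t
          unfold LQ.fQ at h2
          rw [m2]
          push_cast
          linear_combination h2) hmany ε hε
    exact h1
  · refine ⟨κ / (2 * (k : ℝ) ^ 2), by positivity, max (2 * k ^ 2) (k ^ 2 * (N₁ + 1)), fun N hN => ?_⟩
    have hN1 : 2 * k ^ 2 ≤ N := (le_max_left _ _).trans hN
    have hN2 : k ^ 2 * (N₁ + 1) ≤ N := (le_max_right _ _).trans hN
    have hk2 : 0 < k ^ 2 := by positivity
    obtain ⟨T, hT⟩ : ∃ T : ℕ, T = N / k ^ 2 := ⟨_, rfl⟩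
    have hT1 : k ^ 2 * T ≤ N := by rw [hT]; exact Nat.mul_div_le _ _
    have hT2 : N < k ^ 2 * T + k ^ 2 := by
      rw [hT]
      have := Nat.lt_div_mul_add (a := N) hk2
      rw [mul_comm] at this
      exact this
    have hT3 : N₁ ≤ T := by
      rw [hT, Nat.le_div_iff_mul_le hk2]
      have : k ^ 2 * (N₁ + 1) = N₁ * k ^ 2 + k ^ 2 := by ring
      omega
    have hNT : (N : ℝ) ≤ 2 * (k : ℝ) ^ 2 * T := by
      have h3 : N ≤ 2 * (k ^ 2 * T) := by omega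
      have h4 : (N : ℝ) ≤ ((2 * (k ^ 2 * T) : ℕ) : ℝ) := by exact_mod_cast h3
      push_cast at h4
      linarith
    have h5 := hpairs T hT3
    have hkR : (0 : ℝ) < (k : ℝ) ^ 2 := by positivity
    have h6 : κ / (2 * (k : ℝ) ^ 2) * N ≤ κ * T := by
      rw [div_mul_eq_mul_div, div_le_iff₀ (by positivity)]
      have := mul_le_mul_of_nonneg_left hNT hκ.le
      linarith
    refine h6.trans (h5.trans (Nat.cast_le.2 ?_))
    have hfin : {p : ℕ × ℕ | 1 ≤ p.1 ∧ p.1 ≤ N ∧ 1 ≤ p.2 ∧ p.2 ≤ N ∧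
      (∃ n : ℕ, 1 ≤ n ∧ n ≡ u [MOD q] ∧ (p.1 : ℤ) * p.2 = a * (n : ℤ) ^ 2 + b * n + c) ∧
      ∃ m : ℕ, p.1 * p.2 = k ^ 2 * m ∧ ArithmeticFunction.moebius m = s}.Finite := by
      refine ((Set.finite_Icc 1 N).prod (Set.finite_Icc 1 N)).subset ?_
      rintro p ⟨h1, h2, h3, h4, -⟩
      exact ⟨⟨h1, h2⟩, h3, h4⟩
    refine Set.ncard_le_ncard_of_injOn (fun p : ℕ × ℕ => (k ^ 2 * p.1, p.2)) ?_ ?_ hfin
    · rintro p ⟨h1, h2, h3, h4, ⟨t, t1, t2⟩, h7⟩
      refine ⟨Nat.mul_pos hk2 h1, ?_, h3, ?_, ⟨M * t + n', ?_, ?_, ?_⟩, p.1 * p.2, ?_, h7⟩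
      · exact (Nat.mul_le_mul_left _ h2).trans hT1
      · refine h4.trans ?_
        have : T ≤ k ^ 2 * T := Nat.le_mul_of_pos_left _ hk2
        omega
      · have : 1 ≤ M * t := Nat.mul_pos hM (by omega)
        omega
      · have h8 : M * t + n' ≡ 0 + n' [MOD q] :=
          Nat.ModEq.add_right _ ((Nat.modEq_zero_iff_dvd).2 (hqM.mul_right _))
        rw [zero_add] at h8
        exact h8.trans hn'
      · have h8 := hval t
        unfold LQ.fQ at h8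
        simp only
        push_cast
        linear_combination (k : ℤ) ^ 2 * t2 - h8
      · simp only
        ring
    · intro p _ p' _ hpp
      simp only [Prod.mk.injEq] at hpp
      exact Prod.ext (Nat.eq_of_mul_eq_mul_left hk2 hpp.1) hpp.2

end Pool.Agent.K9h53.LX
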