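import Pool.Agent.K9h53.LX.Res
import Pool.Agent.K9h53.LX.Ind
import Pool.Agent.K9h53.LX.Exc
import Pool.Agent.K9h53.LX.Red

/-!
Project LX (helper53): both signs of the Moebius function at the values of an arbitrary quadratic
polynomial of nonsquare discriminant in an arbitrary residue class.
-/

set_option autoImplicit false

namespace Pool.Agent.K9h53.LX

theorem mu_all (a b c : ℤ) (ha : 0 < a) (hns : ¬ IsSquare (b ^ 2 - 4 * (a * c)))
    (hH : Hf a b c) : S_MU a b c :=
  mu_of ha hns (res_of ha hns hH
    (exc_of (Pool.Agent.W578.GT.equt_of (Pool.Agent.W571.GT.rep hns))))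

theorem final_all (a b c : ℤ) (ha : 0 < a) (hns : ¬ IsSquare (b ^ 2 - 4 * (a * c))) :
    S_FINAL a b c :=
  red mu_all a b c ha hns

end Pool.Agent.K9h53.LX
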