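import Pool.Agent.K9h53.LX.Alg

/-!
Project LX (helper53): local conditions and candidates.
-/

set_option autoImplicit false

namespace Pool.Agent.K9h53.LX

open Finset Filter
open Pool.Agent.W78.GT
open Pool.Agent.W583.GT (Z3 rd toZ)
open Pool.Agent.K9h53.LQ (fQ)

variable {a b c : ℤ}

lemma loc_field {F : Type*} [Field F] (h2 : (2 : F) ≠ 0) {A β B : F}
    (hD : β ^ 2 - 4 * A * B ≠ 0) : ∃ x y : F, 1 + x * y ≠ 0 ∧ A + β * x + B * x ^ 2 ≠ 0 ∧
      A * y ^ 2 + β * (y * (1 + x * y)) + B * (1 + x * y) ^ 2 ≠ 0 := by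
  by_cases hB : B = 0
  · subst hB
    have hβ : β ≠ 0 := by
      rintro rfl
      apply hD
      ring
    by_cases hA : A = 0
    · subst hA
      refine ⟨1, 1, ?_, ?_, ?_⟩
      · norm_num
        exact h2
      · simpa using hβ
      · have : (0 : F) * 1 ^ 2 + β * (1 * (1 + 1 * 1)) + 0 * (1 + 1 * 1) ^ 2 = β * 2 := by ring
        rw [this]
        exact mul_ne_zero hβ h2
    · by_cases h1 : A + β = 0
      · refine ⟨0, -1, ?_, ?_, ?_⟩
        · simp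
        · simpa using hA
        · have e1 : A * (-1) ^ 2 + β * (-1 * (1 + 0 * -1)) + 0 * (1 + 0 * -1) ^ 2 =
              A + β - 2 * β := by ring
          rw [e1, h1, zero_sub, neg_ne_zero]
          exact mul_ne_zero h2 hβ
      · refine ⟨0, 1, ?_, ?_, ?_⟩
        · simp
        · simpa using hA
        · have e1 : A * 1 ^ 2 + β * (1 * (1 + 0 * 1)) + 0 * (1 + 0 * 1) ^ 2 = A + β := by ring
          rw [e1]
          exact h1
  · have hy : ∀ x : F, 1 + x * 0 ≠ 0 ∧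
        A * 0 ^ 2 + β * (0 * (1 + x * 0)) + B * (1 + x * 0) ^ 2 ≠ 0 := by
      intro x
      refine ⟨by simp, ?_⟩
      have e1 : A * 0 ^ 2 + β * (0 * (1 + x * 0)) + B * (1 + x * 0) ^ 2 = B := by ring
      rw [e1]
      exact hB
    by_cases h0 : A = 0
    · by_cases h1 : A + β * 1 + B * 1 ^ 2 = 0
      · refine ⟨-1, 0, (hy _).1, ?_, (hy _).2⟩
        intro h3
        have h4 : 2 * B = 0 := by linear_combination h1 + h3 - 2 * h0
        exact (mul_ne_zero h2 hB) h4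
      · exact ⟨1, 0, (hy _).1, h1, (hy _).2⟩
    · refine ⟨0, 0, (hy _).1, ?_, (hy _).2⟩
      simpa using h0

lemma cast_ne {l : ℕ} {x : ℤ} (h : ((x : ℤ) : ZMod l) ≠ 0) : ¬ (l : ℤ) ∣ x := by
  rwa [ne_eq, ZMod.intCast_zmod_eq_zero_iff_dvd] at h

lemma ne_cast {l : ℕ} {x : ℤ} (h : ¬ (l : ℤ) ∣ x) : ((x : ℤ) : ZMod l) ≠ 0 := by
  rwa [ne_eq, ZMod.intCast_zmod_eq_zero_iff_dvd]

lemma sf_two {l : ℕ} (h : Sf a b c l) : ((2 : ℤ) : ZMod l) ≠ 0 :=
  ne_cast fun h1 => h.1.2.1 (h1.mul_right _)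

lemma disc_em (e : Tr) (he : FOk a b c e) (ha : 0 < a) :
    (2 * (em a e).2.1 + b) ^ 2 - 4 * ((em a e).1 : ℤ) * (em a e).2.2 = b ^ 2 - 4 * (a * c) := by
  have h1 := (em_ok ha he).2.2.1
  unfold Qp at h1
  linear_combination (-4) * h1

/-- the local conditions, depending only on the classes modulo `l` -/
lemma loc_one (ha : 0 < a) {e : Tr} (he : FOk a b c e) {l : ℕ} (hl : Sf a b c l) :
    ∃ i j : ℕ, ∀ i' j' : ℕ, i' ≡ i [MOD l] → j' ≡ j [MOD l] →
      ¬ (l : ℤ) ∣ 1 + a * i' * j' ∧ ¬ (l : ℤ) ∣ V2 b 1 j' (toZ (em a e)) ∧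
      ¬ (l : ℤ) ∣ V2 b (a * i') (1 + a * i' * j') (toZ (em a e)) := by
  have hlp := hl.1.1
  have : Fact l.Prime := ⟨hlp⟩
  have hDZ : ¬ (l : ℤ) ∣ b ^ 2 - 4 * (a * c) := fun h => hl.1.2.1 (h.mul_left _)
  have haF : ((a : ℤ) : ZMod l) ≠ 0 := ne_cast hl.2
  have h2F : (2 : ZMod l) ≠ 0 := by
    have := sf_two hl
    push_cast at this
    exact this
  have hd := disc_em e he ha
  obtain ⟨A, hA⟩ : ∃ A : ℤ, A = (em a e).1 := ⟨_, rfl⟩
  obtain ⟨N, hN⟩ : ∃ N : ℤ, N = (em a e).2.1 := ⟨_, rfl⟩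
  obtain ⟨B, hB⟩ : ∃ B : ℤ, B = (em a e).2.2 := ⟨_, rfl⟩
  rw [← hA, ← hN, ← hB] at hd
  have hD : ((2 * N + b : ℤ) : ZMod l) ^ 2 - 4 * (A : ZMod l) * (B : ZMod l) ≠ 0 := by
    have h1 := ne_cast hDZ
    rw [← hd] at h1
    push_cast at h1 ⊢
    exact h1
  obtain ⟨x, y, h1, h3, h4⟩ := loc_field h2F hD
  refine ⟨(y / (a : ZMod l)).val, x.val, fun i' j' hi' hj' => ?_⟩
  have hi : ((i' : ℕ) : ZMod l) = y / (a : ZMod l) := by
    rw [(ZMod.natCast_eq_natCast_iff _ _ _).2 hi', ZMod.natCast_val, ZMod.cast_id]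
  have hj : ((j' : ℕ) : ZMod l) = x := by
    rw [(ZMod.natCast_eq_natCast_iff _ _ _).2 hj', ZMod.natCast_val, ZMod.cast_id]
  have hy : (a : ZMod l) * (i' : ZMod l) = y := by
    rw [hi]
    field_simp
  refine ⟨cast_ne ?_, cast_ne ?_, cast_ne ?_⟩
  · push_cast
    rw [hy, hj, mul_comm y x]
    exact h1
  · unfold V2 Pool.Agent.W583.GT.toZ
    simp only
    rw [← hA, ← hN, ← hB]
    push_cast
    rw [hj]
    push_cast at h3
    intro h5
    apply h3
    linear_combination h5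
  · unfold V2 Pool.Agent.W583.GT.toZ
    simp only
    rw [← hA, ← hN, ← hB]
    push_cast
    rw [hy, hj]
    push_cast at h4
    intro h5
    apply h4
    linear_combination h5

open scoped Classical in
/-- the product of the primes `≤ z` of `Sf` -/
noncomputable def Pz (a b c : ℤ) (z : ℕ) : ℕ := ∏ l ∈ (range (z + 1)).filter (fun l => Sf a b c l), l

/-- candidates of LOC with arbitrary representatives -/
theorem loc (ha : 0 < a) (z : ℕ) (e : Tr) (he : FOk a b c e) : ∃ i j : ℕ, 1 ≤ j ∧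
    ∀ l : ℕ, Sf a b c l → l ≤ z → ∀ i' : ℕ, i' ≡ i [MOD l] →
      ¬ (l : ℤ) ∣ 1 + a * i' * j ∧ ¬ (l : ℤ) ∣ V2 b 1 j (toZ (em a e)) ∧
      ¬ (l : ℤ) ∣ V2 b (a * i') (1 + a * i' * j) (toZ (em a e)) := by
  classical
  have h1 : ∀ l : ℕ, ∃ i j : ℕ, Sf a b c l → ∀ i' j' : ℕ, i' ≡ i [MOD l] → j' ≡ j [MOD l] →
      ¬ (l : ℤ) ∣ 1 + a * i' * j' ∧ ¬ (l : ℤ) ∣ V2 b 1 j' (toZ (em a e)) ∧
      ¬ (l : ℤ) ∣ V2 b (a * i') (1 + a * i' * j') (toZ (em a e)) := by
    intro l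
    by_cases hl : Sf a b c l
    · obtain ⟨i, j, h⟩ := loc_one ha he hl
      exact ⟨i, j, fun _ => h⟩
    · exact ⟨0, 0, fun h => absurd h hl⟩
  choose i j hij using h1
  obtain ⟨T, hT⟩ : ∃ T : Finset ℕ, T = (range (z + 1)).filter (fun l => Sf a b c l) := ⟨_, rfl⟩
  have hTm : ∀ l, l ∈ T ↔ Sf a b c l ∧ l ≤ z := by
    intro l
    rw [hT, mem_filter, mem_range, Nat.lt_succ_iff]
    tauto
  have hne : ∀ l ∈ T, l ≠ 0 := fun l hl => ((hTm l).1 hl).1.1.1.ne_zero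
  have hpp : Set.Pairwise (T : Set ℕ) (Function.onFun Nat.Coprime (fun l : ℕ => l)) := by
    intro l hl l' hl' hll
    exact (Nat.coprime_primes ((hTm l).1 hl).1.1.1 ((hTm l').1 hl').1.1.1).2 hll
  obtain ⟨I, hI⟩ := Nat.chineseRemainderOfFinset i (fun l => l) T hne hpp
  obtain ⟨J, hJ⟩ := Nat.chineseRemainderOfFinset j (fun l => l) T hne hpp
  have hprod : 0 < ∏ l ∈ T, l := Finset.prod_pos fun l hl => Nat.pos_of_ne_zero (hne l hl)
  refine ⟨I, J + ∏ l ∈ T, l, by omega, fun l hl hlz i' hi' => ?_⟩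
  have hlT : l ∈ T := (hTm l).2 ⟨hl, hlz⟩
  refine hij l hl i' (J + ∏ l ∈ T, l) (hi'.trans (hI l hlT)) ?_
  have h2 : J + ∏ l ∈ T, l ≡ J + 0 [MOD l] := by
    apply Nat.ModEq.add_left
    rw [Nat.modEq_zero_iff_dvd]
    exact Finset.dvd_prod_of_mem (fun l => l) hlT
  rw [add_zero] at h2
  exact h2.trans (hJ l hlT)

lemma Pz_pos (z : ℕ) : 0 < Pz a b c z := by
  classical
  unfold Pz
  apply Finset.prod_pos
  intro l hl
  rw [mem_filter] at hl
  exact hl.2.1.1.pos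

lemma dvd_Pz {z l : ℕ} (hl : Sf a b c l) (hlz : l ≤ z) : l ∣ Pz a b c z := by
  classical
  unfold Pz
  apply Finset.dvd_prod_of_mem (fun l => l)
  rw [mem_filter, mem_range]
  exact ⟨by omega, hl⟩

lemma sf_of_dvd_Pz {z p : ℕ} (hp : p.Prime) (h : p ∣ Pz a b c z) : Sf a b c p ∧ p ≤ z := by
  classical
  unfold Pz at h
  obtain ⟨l, hl, h1⟩ := (hp.prime.dvd_finsetProd_iff _).1 h
  rw [mem_filter, mem_range] at hl
  rw [(Nat.prime_dvd_prime_iff_eq hp hl.2.1.1).1 h1]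
  exact ⟨hl.2, by omega⟩

lemma dvd_mz {z l : ℕ} (hl : Spl b (a * c) l) (hlz : l ≤ z) : l ∣ mz b (a * c) z := by
  classical
  unfold mz
  refine (dvd_pow_self l two_ne_zero).trans (Finset.dvd_prod_of_mem (fun l => l ^ 2) ?_)
  rw [mem_filter, mem_range]
  exact ⟨by omega, hl⟩

lemma D4_pos' (hns : ¬ IsSquare (b ^ 2 - 4 * (a * c))) : 0 < D4 b (a * c) := by
  unfold D4
  have : b ^ 2 - 4 * (a * c) ≠ 0 := by
    intro h
    apply hns
    rw [h]
    exact IsSquare.zero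
  have := Int.natAbs_pos.2 this
  omega

lemma not_dvd_D4 {l : ℕ} (hl : Spl b (a * c) l) : ¬ l ∣ D4 b (a * c) := by
  intro h
  unfold D4 at h
  have h1 : (l : ℤ) ∣ 4 * (b ^ 2 - 4 * (a * c)) := by
    rw [Int.natCast_dvd, Int.natAbs_mul]
    exact h
  have h2 : (4 : ℤ) * (b ^ 2 - 4 * (a * c)) = 2 * (2 * (b ^ 2 - 4 * (a * c))) := by ring
  rw [h2] at h1
  rcases (Nat.prime_iff_prime_int.1 hl.1).dvd_or_dvd h1 with h3 | h3
  · exact hl.2.1 (h3.mul_right _)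
  · exact hl.2.1 h3

lemma V2_congr {l : ℕ} {x x' y y' : ℤ} {e e' : Z3} (h1 : (l : ℤ) ∣ x - x') (h2 : (l : ℤ) ∣ y - y')
    (h3 : (l : ℤ) ∣ e.1 - e'.1) (h4 : (l : ℤ) ∣ e.2.1 - e'.2.1) (h5 : (l : ℤ) ∣ e.2.2 - e'.2.2) :
    (l : ℤ) ∣ V2 b x y e ↔ (l : ℤ) ∣ V2 b x' y' e' := by
  have k1 := (ZMod.intCast_eq_intCast_iff_dvd_sub x' x l).2 h1
  have k2 := (ZMod.intCast_eq_intCast_iff_dvd_sub y' y l).2 h2
  have k3 := (ZMod.intCast_eq_intCast_iff_dvd_sub e'.1 e.1 l).2 h3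
  have k4 := (ZMod.intCast_eq_intCast_iff_dvd_sub e'.2.1 e.2.1 l).2 h4
  have k5 := (ZMod.intCast_eq_intCast_iff_dvd_sub e'.2.2 e.2.2 l).2 h5
  rw [← ZMod.intCast_zmod_eq_zero_iff_dvd, ← ZMod.intCast_zmod_eq_zero_iff_dvd]
  unfold V2
  push_cast
  rw [k1, k2, k3, k4, k5]

/-- **CAND** -/
theorem cand (ha : 0 < a) (hns : ¬ IsSquare (b ^ 2 - 4 * (a * c))) : S_CAND a b c := by
  classical
  intro z S0 hS0
  have hD := D4_pos' hns
  have haN := toNat_pos' ha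
  have haZ := toNat_cast ha
  have hall : ∀ κ : ZMod (mz b (a * c) z) × ZMod (mz b (a * c) z) × ZMod (mz b (a * c) z),
    ∃ (Q : Finset ℕ) (J : ℕ),
    1 ≤ J ∧ (∀ q ∈ Q, q.Prime ∧ q ≡ 1 [MOD D4 b (a * c)] ∧ z ^ 2 < q ∧ J < q ∧
      a.toNat * J ∣ q - 1) ∧
    S0 ≤ ∑ q ∈ Q, 1 / (q : ℝ) ∧ ∑ q ∈ Q, 1 / (q : ℝ) ≤ S0 + 1 ∧
    ∀ e : Tr, FOk a b c e → rd (mz b (a * c) z) (em a e) = κ → ∀ q ∈ Q, ∀ l : ℕ,
      Sf a b c l → l ≤ z → ¬ (l : ℤ) ∣ V2 b 1 J (toZ (em a e)) ∧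
        ¬ (l : ℤ) ∣ V2 b ((q - 1 : ℤ) / J) q (toZ (em a e)) := by
    intro κ
    by_cases hκ : ∃ e₀, FOk a b c e₀ ∧ rd (mz b (a * c) z) (em a e₀) = κ
    · obtain ⟨e₀, he₀, hκ0⟩ := hκ
      obtain ⟨i, j, hj, hloc⟩ := loc ha z e₀ he₀
      have hco : Nat.Coprime (Pz a b c z) (D4 b (a * c)) := by
        apply Nat.coprime_of_dvd
        intro p hp h1 h2
        exact not_dvd_D4 (sf_of_dvd_Pz hp h1).1.1 h2
      obtain ⟨I, hI1, hI2⟩ := Nat.chineseRemainder hco i 0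
      obtain ⟨r, hr⟩ : ∃ r : ℕ, r = 1 + a.toNat * j * I := ⟨_, rfl⟩
      obtain ⟨W, hW⟩ : ∃ W : ℕ, W = a.toNat * j * D4 b (a * c) * Pz a b c z := ⟨_, rfl⟩
      have hW0 : 0 < W := by
        rw [hW]
        exact Nat.mul_pos (Nat.mul_pos (Nat.mul_pos haN hj) hD) (Pz_pos z)
      have hD4I : D4 b (a * c) ∣ I := (Nat.modEq_zero_iff_dvd).1 hI2
      have hcop : Nat.Coprime r W := by
        apply Nat.coprime_of_dvd
        intro p hp h1 h2
        have key : ∀ m : ℕ, p ∣ a.toNat * j * I → False := by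
          intro _ h3
          rw [hr] at h1
          have h4 := (Nat.dvd_add_left h3).1 h1
          exact hp.one_lt.ne' (Nat.dvd_one.1 h4)
        rw [hW] at h2
        rcases (Nat.Prime.dvd_mul hp).1 h2 with h3 | h3
        · rcases (Nat.Prime.dvd_mul hp).1 h3 with h4 | h4
          · exact key 0 (h4.mul_right _)
          · exact key 0 ((h4.trans hD4I).mul_left _)
        · obtain ⟨h4, h5⟩ := sf_of_dvd_Pz hp h3
          have h6 := (hloc p h4 h5 I (hI1.of_dvd h3)).1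
          apply h6
          rw [hr] at h1
          have h7 : (p : ℤ) ∣ ((1 + a.toNat * j * I : ℕ) : ℤ) := Int.natCast_dvd_natCast.2 h1
          push_cast at h7
          rw [haZ] at h7
          have e1 : 1 + a * (I : ℤ) * j = 1 + a * j * I := by ring
          rw [e1]
          exact h7
      obtain ⟨Q, hQ1, hQ2, hQ3⟩ := Pool.Agent.W500.GT.exists_QQ hW0 hcop (z ^ 2 + j) hS0
      have hq1 : ∀ q ∈ Q, ∃ i' : ℕ, q = 1 + a.toNat * j * i' ∧ ∀ l : ℕ, Sf a b c l → l ≤ z →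
          i' ≡ i [MOD l] := by
        intro q hq
        obtain ⟨g1, g2, g3⟩ := hQ1 q hq
        have haj : a.toNat * j ∣ W := by
          rw [hW]
          exact Dvd.intro _ (by ring : a.toNat * j * (D4 b (a * c) * Pz a b c z) = _)
        have g4 : q ≡ 1 [MOD a.toNat * j] := by
          refine (g2.of_dvd haj).trans ?_
          rw [hr]
          have : 1 + a.toNat * j * I ≡ 1 + 0 [MOD a.toNat * j] :=
            Nat.ModEq.add_left _ ((Nat.modEq_zero_iff_dvd).2 (Dvd.intro _ rfl))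
          exact this
        have g5 : a.toNat * j ∣ q - 1 := (Nat.modEq_iff_dvd' g1.one_lt.le).1 g4.symm
        obtain ⟨i', hi'⟩ := g5
        have g6 : q = 1 + a.toNat * j * i' := by
          have := g1.one_lt
          omega
        refine ⟨i', g6, fun l hl hlz => ?_⟩
        have hlP := dvd_Pz hl hlz
        have hajl : a.toNat * j * l ∣ W := by
          rw [hW]
          obtain ⟨w, hw⟩ := hlP
          rw [hw]
          exact ⟨D4 b (a * c) * w, by ring⟩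
        have g7 := g2.of_dvd hajl
        rw [g6, hr] at g7
        have g8 := Nat.ModEq.add_left_cancel' 1 g7
        have g9 : i' ≡ I [MOD l] := Nat.ModEq.mul_left_cancel' (Nat.mul_pos haN hj).ne' g8
        exact g9.trans (hI1.of_dvd hlP)
      refine ⟨Q, j, hj, ?_, hQ2, hQ3, ?_⟩
      · intro q hq
        obtain ⟨g1, g2, g3⟩ := hQ1 q hq
        obtain ⟨i', g4, -⟩ := hq1 q hq
        refine ⟨g1, ?_, by omega, by have := Nat.zero_le (z ^ 2); omega, ?_⟩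
        · have hDW : D4 b (a * c) ∣ W := by
            rw [hW]
            exact ⟨a.toNat * j * Pz a b c z, by ring⟩
          refine (g2.of_dvd hDW).trans ?_
          rw [hr]
          have : 1 + a.toNat * j * I ≡ 1 + 0 [MOD D4 b (a * c)] :=
            Nat.ModEq.add_left _ ((Nat.modEq_zero_iff_dvd).2 (hD4I.mul_left _))
          exact this
        · rw [g4, Nat.add_sub_cancel_left]
          exact Dvd.intro _ rfl
      · intro e he hrd q hq l hl hlz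
        obtain ⟨i', g4, g5⟩ := hq1 q hq
        obtain ⟨h1, h2, h3⟩ := hloc l hl hlz i' (g5 l hl hlz)
        -- congruence of the triples
        have hcg := Pool.Agent.W583.GT.rd_eq_iff.1 (hrd.trans hκ0.symm)
        obtain ⟨c1, c2, c3⟩ := hcg
        have hlm : (l : ℤ) ∣ ((mz b (a * c) z : ℕ) : ℤ) :=
          Int.natCast_dvd_natCast.2 (dvd_mz hl.1 hlz)
        have hj0 : (j : ℤ) ≠ 0 := by omega
        have hqZ : (q : ℤ) = 1 + a * i' * j := by
          rw [g4]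
          push_cast
          rw [haZ]
          ring
        have hdiv : ((q - 1 : ℤ) / j) = a * i' := by
          rw [hqZ]
          have e1 : (1 + a * (i' : ℤ) * j - 1 : ℤ) = a * i' * j := by ring
          rw [e1, Int.mul_ediv_cancel _ hj0]
        rw [hdiv, hqZ]
        constructor
        · intro h4
          apply h2
          exact (V2_congr (b := b) (by simp) (by simp) (hlm.trans c1) (hlm.trans c2)
            (hlm.trans c3)).1 h4
        · intro h4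
          apply h3
          exact (V2_congr (b := b) (by simp) (by simp) (hlm.trans c1) (hlm.trans c2)
            (hlm.trans c3)).1 h4
    · have hW0 : 0 < a.toNat * D4 b (a * c) := Nat.mul_pos haN hD
      obtain ⟨Q, hQ1, hQ2, hQ3⟩ := Pool.Agent.W500.GT.exists_QQ hW0
        (Nat.coprime_one_left _ : Nat.Coprime 1 _) (z ^ 2 + 1) hS0
      refine ⟨Q, 1, le_refl _, ?_, hQ2, hQ3, ?_⟩
      · intro q hq
        obtain ⟨g1, g2, g3⟩ := hQ1 q hq
        refine ⟨g1, g2.of_dvd (Dvd.intro_left _ rfl), by omega,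
          by have := Nat.zero_le (z ^ 2); omega, ?_⟩
        rw [mul_one]
        exact (Nat.modEq_iff_dvd' g1.one_lt.le).1 (g2.of_dvd (Dvd.intro _ rfl)).symm
      · intro e he hrd
        exact absurd ⟨e, he, hrd⟩ hκ
  choose QQ J h using hall
  exact ⟨QQ, J, h⟩

end Pool.Agent.K9h53.LX
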