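import Pool.Agent.K9h53.LX.Defs
import Pool.Agent.W583.GT.Exc

/-!
Project LX (helper53): residue classes of triples for the resolution.
-/

set_option autoImplicit false

namespace Pool.Agent.K9h53.LX

open Finset Pool.Agent.W78.GT Pool.Agent.W583.GT

variable {t c : ℤ}

lemma V2_one (j : ℕ) (e : Z3) : V2 t 1 j e = MM t e.1 e.2.1 e.2.2 j := by
  unfold V2 MM
  ring

/-- `l ∣ V2 (1, j)` and `l ∣ B` or `l² ∣ V2 (1, j)` -/
lemma occ_a {l j : ℕ} (hl : Spl t c l) :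
    Occ {e | e ∈ RR t c ∧ (l : ℤ) ∣ V2 t 1 j e ∧
      ((l : ℤ) ∣ e.2.2 ∨ ((l ^ 2 : ℕ) : ℤ) ∣ V2 t 1 j e)} (l ^ 2) (4 * l ^ 2) := by
  refine ((occE (q := j) hl).union (occF (q := j) hl)).mono ?_ (by omega)
  rintro e ⟨h1, h2, h3⟩
  rw [V2_one] at h2 h3
  rcases h3 with h3 | h3
  · exact Or.inl ⟨h1, h3, h2⟩
  · exact Or.inr ⟨h1, h3⟩

/-- the change of variables -/
def gch (t : ℤ) (I j q : ℤ) (e : Z3) : Z3 :=
  (V2 t I q e, -I * e.1 + e.2.1 * (1 - 2 * q) - t * q - q * j * e.2.2, V2 t 1 j e)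

lemma gch_RR {I j q : ℤ} (h : q = 1 + I * j) {e : Z3} (he : e ∈ RR t c) :
    gch t I j q e ∈ RR t c := by
  have e1 : e.1 * e.2.2 = Qp t c e.2.1 := he
  show V2 t I q e * V2 t 1 j e = Qp t c (-I * e.1 + e.2.1 * (1 - 2 * q) - t * q - q * j * e.2.2)
  unfold V2 Qp at *
  subst h
  linear_combination e1

lemma gch_inj {I j q : ℤ} (h : q = 1 + I * j) {N : ℕ} {e e' : Z3}
    (hg : CgZ N (gch t I j q e) (gch t I j q e')) : CgZ N e e' := by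
  obtain ⟨h1, h2, h3⟩ := hg
  unfold gch at h1 h2 h3
  simp only at h1 h2 h3
  refine ⟨?_, ?_, ?_⟩
  · have h4 := dvd_add (dvd_add (h1.mul_left (j ^ 2)) (h2.mul_left (2 * j * q)))
      (h3.mul_left (q ^ 2))
    refine dvd_trans h4 (dvd_of_eq ?_)
    unfold V2
    subst h
    ring
  · have h4 := dvd_sub (dvd_sub (h1.mul_left (-j)) (h2.mul_left (2 * q - 1)))
      (h3.mul_left (q * I))
    refine dvd_trans h4 (dvd_of_eq ?_)
    unfold V2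
    subst h
    ring
  · have h4 := dvd_add (dvd_add h1 (h2.mul_left (2 * I))) (h3.mul_left (I ^ 2))
    refine dvd_trans h4 (dvd_of_eq ?_)
    unfold V2
    subst h
    ring

/-- `l ∣ V2 (I, q)` and `l ∣ A`, `l ∣ V2 (1, j)` or `l² ∣ V2 (I, q)`; `l ≠ q` -/
lemma occ_b {l q j : ℕ} {I : ℤ} (hl : Spl t c l) (h : (q : ℤ) = 1 + I * j)
    (hq : ¬ (l : ℤ) ∣ (q : ℤ)) :
    Occ {e | e ∈ RR t c ∧ (l : ℤ) ∣ V2 t I q e ∧
      ((l : ℤ) ∣ e.1 ∨ (l : ℤ) ∣ V2 t 1 j e ∨ ((l ^ 2 : ℕ) : ℤ) ∣ V2 t I q e)}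
      (l ^ 2) (6 * l ^ 2) := by
  have hp := int_prime hl.1
  have o1 : Occ {e | e ∈ RR t c ∧ (l : ℤ) ∣ e.1 ∧ (l : ℤ) ∣ V2 t I q e} (l ^ 2) (2 * l ^ 2) := by
    refine occG hl _ (fun e he => he.1) ?_ ?_
    · rintro e ⟨h1, h2, h3⟩
      have e1 : e.1 * e.2.2 = Qp t c e.2.1 := h1
      rw [← e1]
      exact h2.mul_right _
    · rintro e ⟨h1, h2, h3⟩ e' ⟨h4, h5, h6⟩ h7
      refine ⟨dvd_sub h2 h5, ?_⟩
      have h8 := dvd_sub h3 h6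
      have e1 : V2 t I q e - V2 t I q e' =
          ((e.1 - e'.1) * I ^ 2 + 2 * I * q * (e.2.1 - e'.2.1)) +
            (q : ℤ) ^ 2 * (e.2.2 - e'.2.2) := by
        unfold V2; ring
      rw [e1] at h8
      have h9 : (l : ℤ) ∣ (q : ℤ) ^ 2 * (e.2.2 - e'.2.2) :=
        (dvd_add_right (dvd_add ((dvd_sub h2 h5).mul_right _) (h7.mul_left _))).1 h8
      rcases hp.dvd_or_dvd h9 with h | h
      · exact absurd (hp.dvd_of_dvd_pow h) hq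
      · exact h
  have o2 : Occ {e | e ∈ RR t c ∧ (l : ℤ) ∣ V2 t I q e ∧ (l : ℤ) ∣ V2 t 1 j e}
      (l ^ 2) (2 * l ^ 2) := by
    refine ((occC hl).comap (gch t I j q) (fun e e' => gch_inj h)).mono ?_ le_rfl
    rintro e ⟨h1, h2, h3⟩
    exact ⟨gch_RR h h1, h2, h3⟩
  have o3 : Occ {e | e ∈ RR t c ∧ ((l ^ 2 : ℕ) : ℤ) ∣ V2 t I q e} (l ^ 2) (2 * l ^ 2) := by
    refine ((occA hl).comap (gch t I j q) (fun e e' => gch_inj h)).mono ?_ le_rfl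
    rintro e ⟨h1, h2⟩
    exact ⟨gch_RR h h1, h2⟩
  refine ((o1.union o2).union o3).mono ?_ (by omega)
  rintro e ⟨h1, h2, h3⟩
  rcases h3 with h3 | h3 | h3
  · exact Or.inl (Or.inl ⟨h1, h3, h2⟩)
  · exact Or.inl (Or.inr ⟨h1, h2, h3⟩)
  · exact Or.inr ⟨h1, h3⟩

/-- `q ∣ A`, `q² ∣ V2 (I, q)` or `q ∣ V2 (1, j)` -/
lemma occ_q {q j : ℕ} {I : ℤ} (hq : Spl t c q) (h : (q : ℤ) = 1 + I * j)
    (hj : ¬ (q : ℤ) ∣ (j : ℤ)) :
    Occ {e | e ∈ RR t c ∧ (q : ℤ) ∣ e.1 ∧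
      ((q : ℤ) ∣ V2 t 1 j e ∨ ((q ^ 2 : ℕ) : ℤ) ∣ V2 t I q e)} (q ^ 2) (4 * q ^ 2) := by
  have hqp := hq.1
  have hp := int_prime hq.1
  have : NeZero q := ⟨hqp.ne_zero⟩
  have : NeZero (q ^ 2) := ⟨pow_ne_zero 2 hqp.ne_zero⟩
  have hI : ¬ (q : ℤ) ∣ I := by
    intro h1
    have h2 : (q : ℤ) ∣ 1 := by
      have h3 := dvd_sub (dvd_refl (q : ℤ)) (h1.mul_right (j : ℤ))
      rw [h] at h3
      have e1 : 1 + I * (j : ℤ) - I * j = 1 := by ring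
      rw [e1] at h3
      rw [h]
      exact h3
    exact hp.not_unit (isUnit_of_dvd_one h2)
  have o1 : Occ {e | e ∈ RR t c ∧ (q : ℤ) ∣ e.1 ∧ (q : ℤ) ∣ V2 t 1 j e} (q ^ 2) (2 * q ^ 2) := by
    refine occG hq _ (fun e he => he.1) ?_ ?_
    · rintro e ⟨h1, h2, h3⟩
      have e1 : e.1 * e.2.2 = Qp t c e.2.1 := h1
      rw [← e1]
      exact h2.mul_right _
    · rintro e ⟨h1, h2, h3⟩ e' ⟨h4, h5, h6⟩ h7
      refine ⟨dvd_sub h2 h5, ?_⟩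
      have h8 := dvd_sub h3 h6
      have e1 : V2 t 1 j e - V2 t 1 j e' =
          ((e.1 - e'.1) + 2 * j * (e.2.1 - e'.2.1)) + (j : ℤ) ^ 2 * (e.2.2 - e'.2.2) := by
        unfold V2; ring
      rw [e1] at h8
      have h9 : (q : ℤ) ∣ (j : ℤ) ^ 2 * (e.2.2 - e'.2.2) :=
        (dvd_add_right (dvd_add (dvd_sub h2 h5) (h7.mul_left _))).1 h8
      rcases hp.dvd_or_dvd h9 with h | h
      · exact absurd (hp.dvd_of_dvd_pow h) hj
      · exact h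
  have o2 : Occ {e | e ∈ RR t c ∧ (q : ℤ) ∣ e.1 ∧ ((q ^ 2 : ℕ) : ℤ) ∣ V2 t I q e}
      (q ^ 2) (2 * q ^ 2) := by
    refine ⟨ZMod q × ZMod (q ^ 2), rt t c q ×ˢ univ,
      fun e => ((e.2.1 : ZMod q), (e.2.2 : ZMod (q ^ 2))), ?_, ?_, ?_⟩
    · rw [card_product, card_univ, ZMod.card]
      exact Nat.mul_le_mul_right _ (rt_card hqp)
    · rintro e ⟨h1, h2, h2'⟩
      refine mem_product.2 ⟨mem_rt ?_, mem_univ _⟩
      have h3 : e.1 * e.2.2 = Qp t c e.2.1 := h1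
      rw [← h3]
      exact h2.mul_right _
    · rintro e ⟨h1, h2, h2'⟩ e' ⟨h3, h4, h4'⟩ hee
      have h1' : e.1 * e.2.2 = Qp t c e.2.1 := h1
      have h3' : e'.1 * e'.2.2 = Qp t c e'.2.1 := h3
      have h5 := Prod.mk.inj hee
      have k1 := dvd_of_cast h5.1
      have k2 := dvd_of_cast h5.2
      have k3 : ((q ^ 2 : ℕ) : ℤ) ∣ 2 * I * (q * (e.2.1 - e'.2.1)) := by
        obtain ⟨w, hw⟩ := k1
        refine Dvd.dvd.mul_left ⟨w, ?_⟩ _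
        rw [hw]; push_cast; ring
      have k4 : ((q ^ 2 : ℕ) : ℤ) ∣ e.1 - e'.1 := by
        have h6 := dvd_sub (dvd_sub h2' h4') (dvd_add k3 (k2.mul_left ((q : ℤ) ^ 2)))
        have e1 : V2 t I q e - V2 t I q e' -
            (2 * I * (q * (e.2.1 - e'.2.1)) + (q : ℤ) ^ 2 * (e.2.2 - e'.2.2)) =
            I * (I * (e.1 - e'.1)) := by
          unfold V2; ring
        rw [e1] at h6
        exact sq_dvd_of_mul hqp hI (sq_dvd_of_mul hqp hI h6)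
      refine ⟨k4, hensel (c := c) hqp (unit_of_root hq.2.1 ?_) k1 ?_, k2⟩
      · rw [← h1']
        exact h2.mul_right _
      · rw [← h1', ← h3']
        have e3 : e.1 * e.2.2 - e'.1 * e'.2.2 = (e.1 - e'.1) * e.2.2 +
          e'.1 * (e.2.2 - e'.2.2) := by ring
        rw [e3]
        exact dvd_add (k4.mul_right _) (k2.mul_left _)
  refine (o1.union o2).mono ?_ (by omega)
  rintro e ⟨h1, h2, h3⟩
  rcases h3 with h3 | h3
  · exact Or.inl ⟨h1, h2, h3⟩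
  · exact Or.inr ⟨h1, h2, h3⟩

end Pool.Agent.K9h53.LX
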