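import Pool.Agent.K9h53.LX.Defs

/-!
Project LX (helper53): statement of the final reduction.
-/

set_option autoImplicit false

namespace Pool.Agent.K9h53.LX

open Finset Filter

/-- the final statement for `f = a n^2 + b n + c`, the class `u` modulo `q`, and the largest common
square divisor `k^2` of the values in the class -/
def S_FINAL (a b c : ℤ) : Prop := ∀ q u k : ℕ, 0 < q →
  IsGreatest {k : ℕ | ∀ n : ℕ, n ≡ u [MOD q] → (k : ℤ) ^ 2 ∣ a * (n : ℤ) ^ 2 + b * n + c} k →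
  ∀ s : ℤ, s = 1 ∨ s = -1 →
  (∀ ε : ℝ, 0 < ε → ∃ N₀ : ℕ, ∀ N : ℕ, N₀ ≤ N → (N : ℝ) / Real.log N ^ (Real.log 2 + ε) ≤
    (Set.ncard {n : ℕ | 1 ≤ n ∧ n ≤ N ∧ n ≡ u [MOD q] ∧ ∃ m : ℕ,
      a * (n : ℤ) ^ 2 + b * n + c = (k : ℤ) ^ 2 * m ∧ ArithmeticFunction.moebius m = s} : ℝ)) ∧
  ∃ κ : ℝ, 0 < κ ∧ ∃ N₀ : ℕ, ∀ N : ℕ, N₀ ≤ N → κ * N ≤
    (Set.ncard {p : ℕ × ℕ | 1 ≤ p.1 ∧ p.1 ≤ N ∧ 1 ≤ p.2 ∧ p.2 ≤ N ∧
      (∃ n : ℕ, 1 ≤ n ∧ n ≡ u [MOD q] ∧ (p.1 : ℤ) * p.2 = a * (n : ℤ) ^ 2 + b * n + c) ∧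
      ∃ m : ℕ, p.1 * p.2 = k ^ 2 * m ∧ ArithmeticFunction.moebius m = s} : ℝ)

/-- RED: the reduction to polynomials without square factors at the primes dividing `2 a D` -/
def S_RED : Prop :=
  (∀ a b c : ℤ, 0 < a → ¬ IsSquare (b ^ 2 - 4 * (a * c)) → Hf a b c → S_MU a b c) →
  ∀ a b c : ℤ, 0 < a → ¬ IsSquare (b ^ 2 - 4 * (a * c)) → S_FINAL a b c

end Pool.Agent.K9h53.LX
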