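import Pool.Agent.K9h53.LX.ResA
import Pool.Agent.W976.GT.Sift

/-!
Project LX (helper53): the resolution.
-/

set_option autoImplicit false

namespace Pool.Agent.K9h53.LX

open Finset Filter
open Pool.Agent.H376R2.MR (lam)
open Pool.Agent.W78.GT
open Pool.Agent.W500.GT (exc_mono exc_prime_mul exc_mul_sqf exc_eq_zero lam_sq Tm Tm_inj Tm_NT B1 B2
  TT TT_one TT_mem T3 mem_PP PP TT_prop TT_ne_zero TT_le dvd_Tm card_le_rel sum_PP_le prod_le_exp
  mz_le log_key)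
open Pool.Agent.W583.GT (Z3 rd toZ)
open Pool.Agent.K9h53.LQ (fQ)

variable {a b c : ℤ}

lemma NT_em (e : Tr) : NT e ∣ NT (em a e) := by
  unfold NT em
  exact ⟨a.toNat, by ring⟩

/-- **RES** -/
theorem res_of (ha : 0 < a) (hns : ¬ IsSquare (b ^ 2 - 4 * (a * c))) (hH : Hf a b c)
    (h2 : S_EXC b (a * c)) : S_RES a b c := by
  classical
  intro δ hδ
  have haR : (1 : ℝ) ≤ a := by exact_mod_cast ha
  have ha0 : (0 : ℝ) < a := by linarith
  have hrep := Pool.Agent.W571.GT.rep hns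
  obtain ⟨C1, hC1, hexc⟩ := h2
  obtain ⟨C2, _, hsq⟩ := LN.Sqf.sqt_large hns
  obtain ⟨C3, hC3, hve⟩ := Pool.Agent.W29.GT.vet_of (Pool.Agent.W29.GT.root_of hrep)
  obtain ⟨C4, hC4, hsift⟩ := Pool.Agent.W976.GT.siftt_of hrep
  obtain ⟨A, hlarge⟩ := Pool.Agent.W591.GT.larget hns
  obtain ⟨δ', hδ'⟩ : ∃ δ' : ℝ, δ' = δ / a := ⟨_, rfl⟩
  have hδ'0 : 0 < δ' := by rw [hδ']; positivity
  obtain ⟨κ, hκ0, hκ1, hκ2⟩ : ∃ κ : ℝ, 0 < κ ∧ κ ≤ 1 ∧ C3 * κ ≤ δ' / 8 := by
    refine ⟨min 1 (δ' / (8 * C3)), lt_min one_pos (by positivity), min_le_left _ _, ?_⟩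
    have : min 1 (δ' / (8 * C3)) ≤ δ' / (8 * C3) := min_le_right _ _
    calc C3 * min 1 (δ' / (8 * C3)) ≤ C3 * (δ' / (8 * C3)) := by gcongr
      _ = δ' / 8 := by field_simp
  obtain ⟨lK, hlK, hS0⟩ := exists_S0 (C3 := 8 * C3 * C4) b (a * c) (by positivity) hδ'0 hκ0
  obtain ⟨z, hz5, hzZ, hz1, hz2⟩ := exists_z (C2 := C2) (2 * (b ^ 2 - 4 * (a * c))).natAbs
    hC1 hδ'0 hlK
  have hl16 : 0 < Real.log 16 := Real.log_pos (by norm_num)
  obtain ⟨S0, hS0d⟩ : ∃ S0 : ℝ, S0 = lK + 3 * (z * Real.log 16) + 1 := ⟨_, rfl⟩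
  have hS0n : 0 ≤ S0 := by rw [hS0d]; positivity
  have hS0z := hS0 z
  rw [← hS0d] at hS0z hz2
  have hz1R : (5 : ℝ) ≤ z := by exact_mod_cast hz5
  have hz0 : (0 : ℝ) < z := by linarith
  have hlz : 0 < Real.log z := Real.log_pos (by linarith)
  obtain ⟨QQ, J, hQJ⟩ := cand ha hns z S0 hS0n
  have hJ1 : ∀ κ, 1 ≤ J κ := fun κ => (hQJ κ).1
  have hQQ : ∀ κ, ∀ q ∈ QQ κ, q.Prime ∧ q ≡ 1 [MOD D4 b (a * c)] ∧ z ^ 2 < q ∧ J κ < q ∧
      a.toNat * J κ ∣ q - 1 := fun κ => (hQJ κ).2.1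
  have hlocal := fun κ => (hQJ κ).2.2.2.2
  have hmpos : 0 < mz b (a * c) z := Pool.Agent.W583.GT.mz_pos z
  have hNZ : NeZero (mz b (a * c) z) := ⟨hmpos.ne'⟩
  obtain ⟨KK, hKKd⟩ : ∃ KK : Finset (Kap b (a * c) z), KK = univ := ⟨_, rfl⟩
  have hKK : ∀ κ, κ ∈ KK := fun κ => by rw [hKKd]; exact mem_univ κ
  have hKKc : (KK.card : ℝ) ≤ (mz b (a * c) z : ℝ) ^ 3 := by
    rw [hKKd, card_univ, Fintype.card_prod, Fintype.card_prod, ZMod.card]
    push_cast
    apply le_of_eq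
    ring
  obtain ⟨UU, hUUd⟩ : ∃ UU : Finset ℕ, UU = KK.biUnion QQ := ⟨_, rfl⟩
  have hUU : ∀ κ, QQ κ ⊆ UU := by
    intro κ q hq
    rw [hUUd, mem_biUnion]
    exact ⟨κ, hKK κ, hq⟩
  obtain ⟨tF, eF, qF, iF, F₀, F₁, F₂, hF⟩ := exists_data a b c z QQ J
  obtain ⟨D, hD⟩ : ∃ D : ℕ, D = (TT b (a * c) z).card * (KK.card * UU.card) := ⟨_, rfl⟩
  obtain ⟨Qb, hQb⟩ : ∃ Qb : ℝ, Qb = Kn a b c * (∑ q ∈ UU, (q : ℝ) ^ 3) * z + 1 := ⟨_, rfl⟩
  have hQb1 : 1 ≤ Qb := by
    rw [hQb]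
    have : 0 ≤ Kn a b c * (∑ q ∈ UU, (q : ℝ) ^ 3) * z := by positivity
    linarith
  -- eventual statements
  have ev1 : ∀ᶠ Y : ℝ in atTop, ∀ s ∈ TT b (a * c) z,
      ((EX b (a * c) z QQ J (A + 1) Y (B1 s.1 s.2.1 (Y / a)) (a * B2 s.1 s.2.1 (Y / a))
        s.2.2).card : ℝ) ≤ (C1 * (S0 + 1) / (z * Real.log z) * Y) / (s.2.2 : ℝ) ^ 2 := by
    obtain ⟨X₀, hX₀⟩ := hexc z (S0 + 1) QQ J hz5 (by linarith) (fun κ => ⟨hJ1 κ, fun q hq => by
      obtain ⟨g1, g2, g3, g4, g5⟩ := hQQ κ q hq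
      exact ⟨g1, g2, g3, g4, dvd_trans (Dvd.intro_left _ rfl) g5⟩, (hQJ κ).2.2.2.1⟩) (A + 1)
    filter_upwards [eventually_ge_atTop X₀, eventually_ge_atTop ((z : ℝ) * a),
      Real.tendsto_log_atTop.eventually_ge_atTop (z : ℝ)] with Y hX hXz hlX
    intro s hs
    obtain ⟨hp, hn⟩ := TT_prop hs
    obtain ⟨X, hXd⟩ : ∃ X : ℝ, X = Y / a := ⟨_, rfl⟩
    have hYX : Y = a * X := by rw [hXd]; field_simp
    rw [← hXd]
    have hXz' : (z : ℝ) ≤ X := by
      rw [hXd, le_div_iff₀ ha0]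
      exact hXz
    have hX0 : 0 < X := by linarith
    have hY0 : 0 < Y := by rw [hYX]; positivity
    have hXY : X ≤ Y := by rw [hYX]; exact le_mul_of_one_le_left hX0.le haR
    have hn1 : (1 : ℝ) ≤ s.2.1 := by exact_mod_cast Nat.one_le_iff_ne_zero.2 (TT_ne_zero hs)
    have hnz : (s.2.1 : ℝ) ≤ z := by exact_mod_cast TT_le (by omega) hs
    have hd1 : 1 ≤ X / s.2.1 := by
      rw [le_div_iff₀ (by linarith)]
      linarith
    have hd2 : X / s.2.1 ≤ Y * Real.log Y := by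
      have h3 : X / s.2.1 ≤ X := div_le_self hX0.le hn1
      nlinarith
    have hm1 : 1 ≤ X * s.2.1 := by nlinarith
    have hm2 : X * s.2.1 ≤ Y * Real.log Y := by
      gcongr
      linarith
    have had2 : a * (X / s.2.1) ≤ Y * Real.log Y := by
      have h3 : X / s.2.1 ≤ X := div_le_self hX0.le hn1
      have h4 : a * (X / s.2.1) ≤ a * X := mul_le_mul_of_nonneg_left h3 ha0.le
      rw [← hYX] at h4
      nlinarith
    have ham2 : a * (X * s.2.1) ≤ Y * Real.log Y := by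
      have h4 : a * (X * s.2.1) = Y * s.2.1 := by rw [hYX]; ring
      rw [h4]
      gcongr
      linarith
    have hpr : X / s.2.1 * (a * (X * s.2.1)) ≤ Y ^ 2 := by
      have h3 : (s.2.1 : ℝ) ≠ 0 := by linarith
      have h4 : X / s.2.1 * (a * (X * s.2.1)) = X * Y := by rw [hYX]; field_simp
      rw [h4, sq]
      gcongr
    have hpr2 : X * s.2.1 * (a * (X / s.2.1)) ≤ Y ^ 2 := by
      have h3 : (s.2.1 : ℝ) ≠ 0 := by linarith
      have h4 : X * s.2.1 * (a * (X / s.2.1)) = X * Y := by rw [hYX]; field_simp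
      rw [h4, sq]
      gcongr
    have hb1 : 1 ≤ B1 s.1 s.2.1 X ∧ B1 s.1 s.2.1 X ≤ Y * Real.log Y := by
      unfold Pool.Agent.W500.GT.B1
      split_ifs
      · exact ⟨hm1, hm2⟩
      · exact ⟨hd1, hd2⟩
    have hb2 : 1 ≤ a * B2 s.1 s.2.1 X ∧ a * B2 s.1 s.2.1 X ≤ Y * Real.log Y := by
      unfold Pool.Agent.W500.GT.B2
      split_ifs
      · exact ⟨by nlinarith, had2⟩
      · exact ⟨by nlinarith, ham2⟩
    have hb12 : B1 s.1 s.2.1 X * (a * B2 s.1 s.2.1 X) ≤ Y ^ 2 := by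
      unfold Pool.Agent.W500.GT.B1 Pool.Agent.W500.GT.B2
      split_ifs
      · exact hpr2
      · exact hpr
    have := hX₀ Y (B1 s.1 s.2.1 X) (a * B2 s.1 s.2.1 X) hX hb1.1 hb2.1 hb12 hb1.2 hb2.2 s.2.2 hp
    unfold EX
    exact this
  have ev2 : ∀ᶠ Y : ℝ in atTop, (((tri b (a * c) Y Y).filter
      (fun e => ∃ l : ℕ, l.Prime ∧ z < l ∧ l ^ 2 ∣ NT e)).card : ℝ) ≤ C2 / z * Y := by
    obtain ⟨X₀, hX₀⟩ := hsq z (by omega) hzZ
    filter_upwards [eventually_ge_atTop X₀] with X hX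
    exact hX₀ X hX
  have ev3 : ∀ᶠ Y : ℝ in atTop, ∀ r ∈ KK,
      (((rts b (a * c) Y).filter (fun e => ∀ q ∈ QQ r, ¬ q ∣ e.1)).card : ℝ) ≤
        C4 * (∏ q ∈ QQ r, (1 - 1 / (q : ℝ))) * Y := by
    rw [Filter.eventually_all_finset]
    intro r hr
    obtain ⟨X₀, hX₀⟩ := hsift (QQ r) (fun q hq => ⟨(hQQ r q hq).1, (hQQ r q hq).2.1⟩)
    filter_upwards [eventually_ge_atTop X₀] with X hX
    exact hX₀ X hX
  have ev4 : ∀ᶠ Y : ℝ in atTop, (((tri b (a * c) (Qb * Y) (Qb * Y)).filter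
      (fun e => ∃ l : ℕ, l.Prime ∧ Real.log (Qb * Y) ^ A < (l : ℝ) ∧ l ^ 2 ∣ NT e)).card : ℝ) ≤
        δ' / (24 * (D + 1) * Qb) * (Qb * Y) := by
    obtain ⟨X₀, hX₀⟩ := hlarge (δ' / (24 * (D + 1) * Qb)) (by positivity)
    filter_upwards [eventually_ge_atTop X₀, eventually_ge_atTop 0] with X hX hX0
    apply hX₀
    nlinarith
  obtain ⟨Y₀, hY₀⟩ := eventually_atTop.1 (((((ev1.and ev2).and ev3).and ev4).and
    (eventually_ge_atTop Qb)).and (Real.tendsto_log_atTop.eventually_ge_atTop ((2 : ℝ) ^ A)))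
  refine ⟨Qb, D, max 1 Y₀, hQb1, fun X hX => ?_⟩
  have hX1 : 1 ≤ X := (le_max_left _ _).trans hX
  have hX0 : 0 ≤ X := by linarith
  obtain ⟨Y, hY⟩ : ∃ Y : ℝ, Y = a * X := ⟨_, rfl⟩
  have hXY : X ≤ Y := by rw [hY]; exact le_mul_of_one_le_left hX0 haR
  have hYY : Y₀ ≤ Y := ((le_max_right _ _).trans hX).trans hXY
  have hYa : Y / a = X := by rw [hY]; field_simp
  have hY1 : 1 ≤ Y := hX1.trans hXY
  have hY0' : 0 ≤ Y := by linarith
  have hδY : δ' * Y = δ * X := by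
    rw [hδ', hY]
    field_simp
  obtain ⟨⟨⟨⟨⟨e1, e2⟩, e3⟩, e4⟩, e5⟩, e6⟩ := hY₀ Y hYY
  rw [hYa] at e1
  -- the exceptional sets
  obtain ⟨H1, hH1⟩ : ∃ G : Finset Tr, G = (tri b (a * c) Y Y).filter
      (fun e => ∃ l : ℕ, l.Prime ∧ z < l ∧ l ^ 2 ∣ NT e) := ⟨_, rfl⟩
  obtain ⟨G1, hG1⟩ : ∃ G : Finset Tr, G = (ftri a b c X X).filter
      (fun e => em a e ∈ H1) := ⟨_, rfl⟩
  obtain ⟨V, hV⟩ : ∃ V : Kap b (a * c) z → Finset (ℕ × ℤ), V = fun r =>
    (rts b (a * c) Y).filter (fun e => ∀ q ∈ QQ r, ¬ q ∣ e.1) := ⟨_, rfl⟩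
  obtain ⟨H2, hH2⟩ : ∃ G : Finset Tr, G = (tri b (a * c) Y Y).filter
      (fun e => vx e ∈ KK.biUnion V ∨ vy e ∈ KK.biUnion V) := ⟨_, rfl⟩
  obtain ⟨G2, hG2⟩ : ∃ G : Finset Tr, G = (ftri a b c X X).filter
      (fun e => em a e ∈ H2) := ⟨_, rfl⟩
  obtain ⟨G3, hG3⟩ : ∃ G : Finset Tr, G = E3 a b c z QQ J (A + 1) X := ⟨_, rfl⟩
  obtain ⟨LG, hLG⟩ : ∃ G : Finset Tr, G = (tri b (a * c) (Qb * Y) (Qb * Y)).filter
      (fun e => ∃ l : ℕ, l.Prime ∧ Real.log (Qb * Y) ^ A < (l : ℝ) ∧ l ^ 2 ∣ NT e) := ⟨_, rfl⟩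
  obtain ⟨LF, hLF⟩ : ∃ G : Finset Tr, G = (ftri a b c (Qb * X) (Qb * X)).filter
      (fun e => em a e ∈ LG) := ⟨_, rfl⟩
  obtain ⟨U, hU⟩ : ∃ G : Finset Tr, G = (ftri a b c X X).filter
      (fun e => e ∉ G1 ∧ e ∉ G2) := ⟨_, rfl⟩
  obtain ⟨G4, hG4⟩ : ∃ G : Finset Tr, G = U.filter (fun e => F₀ e ∈ LF) ∪
      (U.filter (fun e => F₁ e ∈ LF) ∪ U.filter (fun e => F₂ e ∈ LF)) := ⟨_, rfl⟩
  rw [← hH1] at e2
  rw [← hLG] at e4
  have hemb : ∀ (T T' : Finset Tr), (∀ e ∈ T, em a e ∈ T') → T.card ≤ T'.card := by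
    intro T T' h
    exact card_le_card_of_injOn (em a) h fun e _ e' _ h => em_inj ha h
  have e3' : ∀ r ∈ KK, ((V r).card : ℝ) ≤ C4 * (∏ q ∈ QQ r, (1 - 1 / (q : ℝ))) * Y := by
    rw [hV]
    exact e3
  have hem : ∀ e ∈ ftri a b c X X, em a e ∈ tri b (a * c) Y Y := by
    intro e he
    rw [mem_ftri ha] at he
    have h3 := em_mem ha he.1 he.2.1 he.2.2
    rw [← hY] at h3
    exact tri_mono hXY le_rfl h3
  -- data on `U`
  have hdata : ∀ e ∈ U, Pd a b c z QQ J e (tF e) (eF e) (qF e) (iF e) (F₀ e) (F₁ e) (F₂ e) := by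
    intro e he
    apply hF
    rw [hU, mem_filter] at he
    obtain ⟨hed, h1', h2'⟩ := he
    have hok := ((mem_ftri ha).1 hed).1
    have hsq' : ¬ ∃ l : ℕ, l.Prime ∧ z < l ∧ l ^ 2 ∣ NT e := by
      rintro ⟨l, hl, hzl, hle⟩
      apply h1'
      rw [hG1, mem_filter, hH1, mem_filter]
      exact ⟨hed, hem e hed, l, hl, hzl, hle.trans (NT_em e)⟩
    obtain ⟨s, hs, e', hT, hte⟩ := exists_type hH hok hsq'
    have he1 : vx (em a e) ∉ KK.biUnion V := by
      intro hcon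
      apply h2'
      rw [hG2, mem_filter, hH2, mem_filter]
      exact ⟨hed, hem e hed, Or.inl hcon⟩
    have hex : ∃ q ∈ QQ (rd _ (em a e')), q ∣ e.1 := by
      by_contra hcon
      push Not at hcon
      apply he1
      rw [mem_biUnion]
      refine ⟨rd _ (em a e'), hKK _, ?_⟩
      rw [hV, mem_filter]
      exact ⟨vx_mem (hem e hed), hcon⟩
    obtain ⟨q, hq, hqd⟩ := hex
    obtain ⟨hqp, hq4, hzq, hjq, hdiv⟩ := hQQ _ q hq
    have hnq : ¬ q ∣ s.2.1 := by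
      intro hcon
      have hle := TT_le (by omega) hs
      have h0 : 0 < s.2.1 := Nat.pos_of_ne_zero (TT_ne_zero hs)
      have := Nat.le_of_dvd h0 hcon
      nlinarith
    have hd' := dvd_Tm hT hqp hnq hqd
    obtain ⟨i, hi⟩ := hdiv
    have hqi : (q : ℤ) = 1 + a * i * J (rd _ (em a e')) := by
      have h3 : q = 1 + a.toNat * J (rd _ (em a e')) * i := by
        have := hqp.one_lt
        omega
      have h4 : (q : ℤ) = ((1 + a.toNat * J (rd _ (em a e')) * i : ℕ) : ℤ) := by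
        exact_mod_cast h3
      rw [h4]
      push_cast
      rw [toNat_cast ha]
      ring
    have hi1 : 1 ≤ i := by
      rcases Nat.eq_zero_or_pos i with h0 | h0
      · rw [h0, mul_zero] at hi
        have := hqp.one_lt
        omega
      · exact h0
    obtain ⟨f₀, f₁, f₂, hR⟩ := Rf_of_dvd ha (Tm_fok hT hok) hqi hd'
    exact ⟨s, e', q, i, _, _, _, hs, hT, hte, hq, hd', hi1, hR⟩
  have hmult := mult_key ha hKK hUU (fun κ => ⟨hJ1 κ, fun q hq => (hQQ κ q hq).1⟩) U hdata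
  rw [← hD] at hmult
  have hsize : ∀ e ∈ U, F₀ e ∈ ftri a b c (Qb * X) (Qb * X) ∧
      F₁ e ∈ ftri a b c (Qb * X) (Qb * X) ∧ F₂ e ∈ ftri a b c (Qb * X) (Qb * X) := by
    intro e he
    have hed : e ∈ ftri a b c X X := by
      rw [hU, mem_filter] at he
      exact he.1
    rw [hQb]
    exact size_all ha hz5 hUU hJ1 hX1 hed (hdata e he)
  -- the exceptional set is small
  have c1 : (G1.card : ℝ) ≤ δ' / 8 * Y := by
    have h3 : G1.card ≤ H1.card := hemb _ _ (by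
      intro e he
      rw [hG1, mem_filter] at he
      exact he.2)
    have h4 : (G1.card : ℝ) ≤ H1.card := by exact_mod_cast h3
    refine h4.trans (e2.trans ?_)
    gcongr
  have c2 : (G2.card : ℝ) ≤ δ' / 4 * Y := by
    have h3 : G2.card ≤ H2.card := hemb _ _ (by
      intro e he
      rw [hG2, mem_filter] at he
      exact he.2)
    have h4 : (G2.card : ℝ) ≤ H2.card := by exact_mod_cast h3
    refine h4.trans ?_
    refine card_E2 (V := V) (S0 := S0) (QQ := QQ) hC3 hC4 hκ0 hκ2 hY0' (by positivity)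
      hS0z hKKc ?_ e3' ?_
    · intro r hr
      exact ⟨fun q hq => (hQQ r q hq).1, (hQJ r).2.2.1⟩
    · rw [hH2]
      refine hve κ Y (KK.biUnion V) hκ0 hκ1 hY1 ?_
      intro v hv
      rw [mem_biUnion] at hv
      obtain ⟨r, _, hv⟩ := hv
      rw [hV, mem_filter] at hv
      exact hv.1
  have c3 : (G3.card : ℝ) ≤ δ' / 8 * Y := by
    have hb : 0 ≤ C1 * (S0 + 1) / (z * Real.log z) * Y := by positivity
    have := card_E3 (J := J) (QQ := QQ) (A := A + 1) (X := X) ha hb (by rw [← hY]; exact e1)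
    rw [← hG3] at this
    refine this.trans ?_
    calc 6 * (C1 * (S0 + 1) / (z * Real.log z) * Y)
        = 6 * (C1 * (S0 + 1) / (z * Real.log z)) * Y := by ring
      _ ≤ δ' / 8 * Y := by gcongr
  have hLFc : (LF.card : ℝ) ≤ LG.card := by
    have h3 : LF.card ≤ LG.card := hemb _ _ (by
      intro e he
      rw [hLF, mem_filter] at he
      exact he.2)
    exact_mod_cast h3
  have c4 : (G4.card : ℝ) ≤ δ' / 8 * Y := by
    have hgen : ∀ F : Tr → Tr, (∀ f : Tr, (U.filter (fun e => F e = f)).card ≤ D) →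
        (U.filter (fun e => F e ∈ LF)).card ≤ D * LF.card := by
      intro F hFm
      apply Finset.card_le_mul_card_image_of_maps_to (f := F)
      · intro e he
        rw [mem_filter] at he
        exact he.2
      · intro f _
        refine le_trans (Finset.card_le_card ?_) (hFm f)
        intro e he
        rw [mem_filter, mem_filter] at he
        rw [mem_filter]
        exact ⟨he.1.1, he.2⟩
    have hA := hgen F₀ fun f => (hmult f).1
    have hB := hgen F₁ fun f => (hmult f).2.1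
    have hC := hgen F₂ fun f => (hmult f).2.2
    have hC' : G4.card ≤ 3 * D * LF.card := by
      have h3 := Finset.card_union_le (U.filter (fun e => F₀ e ∈ LF))
        (U.filter (fun e => F₁ e ∈ LF) ∪ U.filter (fun e => F₂ e ∈ LF))
      have h4 := Finset.card_union_le (U.filter (fun e => F₁ e ∈ LF))
        (U.filter (fun e => F₂ e ∈ LF))
      rw [← hG4] at h3
      have e7 : 3 * D * LF.card = D * LF.card + (D * LF.card + D * LF.card) := by ring
      rw [e7]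
      omega
    have hC'' : (G4.card : ℝ) ≤ 3 * D * LF.card := by exact_mod_cast hC'
    calc (G4.card : ℝ) ≤ 3 * D * LF.card := hC''
      _ ≤ 3 * (D + 1) * (δ' / (24 * (D + 1) * Qb) * (Qb * Y)) := by
          have h5 := hLFc.trans e4
          have h6 : (0 : ℝ) ≤ LF.card := by positivity
          gcongr
          linarith
      _ = δ' / 8 * Y := by
          have h1' : Qb ≠ 0 := by linarith
          have h2' : ((D : ℝ) + 1) ≠ 0 := by positivity
          field_simp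
          ring
  refine ⟨G1 ∪ G2 ∪ G3 ∪ G4, F₀, F₁, F₂, ?_, ?_, ?_⟩
  · have h7 : (G1 ∪ G2 ∪ G3 ∪ G4).card ≤ G1.card + G2.card + G3.card + G4.card := by
      refine (Finset.card_union_le _ _).trans ?_
      refine Nat.add_le_add_right ?_ _
      refine (Finset.card_union_le _ _).trans ?_
      refine Nat.add_le_add_right ?_ _
      exact Finset.card_union_le _ _
    have h8 : ((G1 ∪ G2 ∪ G3 ∪ G4).card : ℝ) ≤ G1.card + G2.card + G3.card + G4.card := by
      exact_mod_cast h7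
    have h9 : 0 ≤ δ' * Y := by positivity
    rw [← hδY]
    linarith
  · intro e hed heE
    simp only [mem_union, not_or] at heE
    obtain ⟨⟨⟨n1, n2⟩, n3⟩, n4⟩ := heE
    have heU : e ∈ U := by
      rw [hU, mem_filter]
      exact ⟨hed, n1, n2⟩
    have hP := hdata e heU
    obtain ⟨ht, hT, hte, hq, hqd, hi, hR⟩ := hP
    have hs := hsize e heU
    have hok := ((mem_ftri ha).1 hed).1
    have hok' : FOk a b c (eF e) := Tm_fok hT hok
    have hNN := Tm_NT hT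
    obtain ⟨hqp, hq4, hzq, hjq, hdiv⟩ := hQQ _ _ hq
    have hlog := log_key hQb1 e5 e6
    have hTf := Tm_ftri ha (TT_ne_zero ht) hT hed
    rw [mem_ftri ha] at hTf
    have hemf : ∀ f ∈ ftri a b c (Qb * X) (Qb * X), em a f ∈ tri b (a * c) (Qb * Y) (Qb * Y) := by
      intro f hf
      rw [mem_ftri ha] at hf
      have h3 := em_mem ha hf.1 hf.2.1 hf.2.2
      have h4 : (a : ℝ) * (Qb * X) = Qb * Y := by rw [hY]; ring
      rw [h4] at h3
      exact tri_mono (mul_le_mul_of_nonneg_left hXY (by linarith)) le_rfl h3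
    have hx := local_key ha hH (L := Real.log Y ^ (A + 1)) (z := z)
      (Q := QQ (rd _ (em a (eF e)))) hok' hR (hJ1 _) hqp (by nlinarith) hq
      (fun l hl hlz => hlocal _ (eF e) hok' rfl (qF e) hq l hl hlz)
      (by
        intro hbad
        apply n3
        rw [hG3]
        unfold E3
        rw [mem_filter]
        refine ⟨hed, tF e, ht, eF e, hT, ?_⟩
        unfold EX
        rw [mem_filter, ← hY]
        refine ⟨em_mem ha hTf.1 hTf.2.1 hTf.2.2, ?_, hbad⟩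
        rcases hte with ⟨h1', _⟩ | ⟨_, h2', h3'⟩
        · rw [h1']
          exact ⟨one_dvd _, one_dvd _⟩
        · refine ⟨h2', ?_⟩
          show _ ∣ a.toNat * (eF e).2.2
          exact h3'.mul_left _)
      (by
        intro l hl hL
        have n4' : F₀ e ∉ LF ∧ F₁ e ∉ LF ∧ F₂ e ∉ LF := by
          refine ⟨?_, ?_, ?_⟩
          · intro hcon
            apply n4
            rw [hG4, mem_union]
            left
            rw [mem_filter]
            exact ⟨heU, hcon⟩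
          · intro hcon
            apply n4
            rw [hG4, mem_union, mem_union]
            right; left
            rw [mem_filter]
            exact ⟨heU, hcon⟩
          · intro hcon
            apply n4
            rw [hG4, mem_union, mem_union]
            right; right
            rw [mem_filter]
            exact ⟨heU, hcon⟩
        have hgo : ∀ f ∈ ftri a b c (Qb * X) (Qb * X), f ∉ LF → ¬ l ^ 2 ∣ NT f := by
          intro f hf hnf hcon
          apply hnf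
          rw [hLF, mem_filter, hLG, mem_filter]
          exact ⟨hf, hemf f hf, l, hl, lt_of_le_of_lt hlog hL, hcon.trans (NT_em f)⟩
        exact ⟨hgo _ hs.1 n4'.1, hgo _ hs.2.1 n4'.2.1, hgo _ hs.2.2 n4'.2.2⟩)
    have hqne : qF e ≠ (tF e).2.2 := by
      intro hcon
      obtain ⟨hp, _⟩ := TT_prop ht
      rcases hp with hp | hp
      · rw [hp] at hcon
        have := hqp.one_lt
        omega
      · have h1' := hp.2
        rw [← hcon] at h1'
        nlinarith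
    rw [← hNN]
    rw [← hNN] at hte
    have hexc' := exc_key hok' ha hqp hqne hR hx.1 hx.2 hte
    exact ⟨hs, lam_key ha hok' hR, hexc'⟩
  · intro f
    have hgen : ∀ F : Tr → Tr, (U.filter (fun e => F e = f)).card ≤ D →
        ((ftri a b c X X).filter (fun e => e ∉ G1 ∪ G2 ∪ G3 ∪ G4 ∧ F e = f)).card ≤ D := by
      intro F hF
      refine le_trans (Finset.card_le_card ?_) hF
      intro e he
      rw [mem_filter] at he ⊢
      obtain ⟨hed, hnE, hf⟩ := he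
      simp only [mem_union, not_or] at hnE
      refine ⟨?_, hf⟩
      rw [hU, mem_filter]
      exact ⟨hed, hnE.1.1.1, hnE.1.1.2⟩
    exact ⟨hgen _ (hmult f).1, hgen _ (hmult f).2.1, hgen _ (hmult f).2.2⟩

end Pool.Agent.K9h53.LX
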