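import Pool.Agent.K9h53.LX.Loc
import Pool.Agent.W500.GT.Rest

/-!
Project LX (helper53): auxiliary lemmas for the resolution.
-/

set_option autoImplicit false

namespace Pool.Agent.K9h53.LX

open Finset Filter
open Pool.Agent.H376R2.MR (lam)
open Pool.Agent.W78.GT
open Pool.Agent.W500.GT (exc_mono exc_prime_mul exc_mul_sqf exc_eq_zero lam_sq Tm Tm_inj Tm_NT B1 B2
  TT TT_one TT_mem T3 mem_PP PP TT_prop TT_ne_zero TT_le dvd_Tm card_le_rel sum_PP_le prod_le_exp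
  mz_le)
open Pool.Agent.W583.GT (Z3 rd toZ)
open Pool.Agent.K9h53.LQ (fQ)

variable {a b c : ℤ}

/-- the type of the classes -/
abbrev Kap (b c' : ℤ) (z : ℕ) : Type := ZMod (mz b c' z) × ZMod (mz b c' z) × ZMod (mz b c' z)

/-- data for the resolution of `e` -/
def Pd (a b c : ℤ) (z : ℕ) (QQ : Kap b (a * c) z → Finset ℕ) (J : Kap b (a * c) z → ℕ) (e : Tr)
    (s : Bool × ℕ × ℕ) (e' : Tr) (q i : ℕ) (f₀ f₁ f₂ : Tr) : Prop :=
  s ∈ TT b (a * c) z ∧ Tm s.1 s.2.1 e e' ∧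
    ((s.2.2 = 1 ∧ exc (NT e) = 0) ∨ (s.2.2.Prime ∧ s.2.2 ∣ e'.1 ∧ s.2.2 ∣ e'.2.2)) ∧
    q ∈ QQ (rd _ (em a e')) ∧ q ∣ e'.1 ∧ 1 ≤ i ∧ Rf a b i (J (rd _ (em a e'))) q e' f₀ f₁ f₂

lemma exists_data (a b c : ℤ) (z : ℕ) (QQ : Kap b (a * c) z → Finset ℕ)
    (J : Kap b (a * c) z → ℕ) :
    ∃ (tF : Tr → Bool × ℕ × ℕ) (eF : Tr → Tr) (qF iF : Tr → ℕ) (F₀ F₁ F₂ : Tr → Tr),
      ∀ e, (∃ s e' q i f₀ f₁ f₂, Pd a b c z QQ J e s e' q i f₀ f₁ f₂) →
        Pd a b c z QQ J e (tF e) (eF e) (qF e) (iF e) (F₀ e) (F₁ e) (F₂ e) := by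
  classical
  have hch : ∀ e, ∃ (s : Bool × ℕ × ℕ) (e' : Tr) (q i : ℕ) (f₀ f₁ f₂ : Tr),
      (∃ s e' q i f₀ f₁ f₂, Pd a b c z QQ J e s e' q i f₀ f₁ f₂) →
        Pd a b c z QQ J e s e' q i f₀ f₁ f₂ := by
    intro e
    by_cases h : ∃ s e' q i f₀ f₁ f₂, Pd a b c z QQ J e s e' q i f₀ f₁ f₂
    · obtain ⟨s, e', q, i, f₀, f₁, f₂, h'⟩ := h
      exact ⟨s, e', q, i, f₀, f₁, f₂, fun _ => h'⟩
    · exact ⟨(false, 1, 1), (0, 0, 0), 0, 0, (0, 0, 0), (0, 0, 0), (0, 0, 0),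
        fun h' => absurd h' h⟩
  choose tF eF qF iF F₀ F₁ F₂ hF using hch
  exact ⟨tF, eF, qF, iF, F₀, F₁, F₂, hF⟩

lemma i_unique (ha : 0 < a) {i i' j q : ℕ} (hj : 1 ≤ j) (h : (q : ℤ) = 1 + a * i * j)
    (h' : (q : ℤ) = 1 + a * i' * j) : i = i' := by
  have hj0 : (j : ℤ) ≠ 0 := by omega
  have h1 : (i : ℤ) * (a * j) = i' * (a * j) := by linear_combination h' - h
  have h2 := mul_right_cancel₀ (mul_ne_zero ha.ne' hj0) h1
  exact_mod_cast h2

lemma mult_key (ha : 0 < a) {z : ℕ} {QQ : Kap b (a * c) z → Finset ℕ}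
    {J : Kap b (a * c) z → ℕ} {UU : Finset ℕ} {KK : Finset (Kap b (a * c) z)}
    (hKK : ∀ κ, κ ∈ KK) (hUU : ∀ κ, QQ κ ⊆ UU)
    (hQ : ∀ κ, 1 ≤ J κ ∧ ∀ q ∈ QQ κ, q.Prime)
    {tF : Tr → Bool × ℕ × ℕ} {eF : Tr → Tr} {qF iF : Tr → ℕ} {F₀ F₁ F₂ : Tr → Tr}
    (U : Finset Tr)
    (hU : ∀ e ∈ U, Pd a b c z QQ J e (tF e) (eF e) (qF e) (iF e) (F₀ e) (F₁ e) (F₂ e)) (f : Tr) :
    (open scoped Classical in
      (U.filter (fun e => F₀ e = f)).card ≤ (TT b (a * c) z).card * (KK.card * UU.card) ∧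
      (U.filter (fun e => F₁ e = f)).card ≤ (TT b (a * c) z).card * (KK.card * UU.card) ∧
      (U.filter (fun e => F₂ e = f)).card ≤ (TT b (a * c) z).card * (KK.card * UU.card)) := by
  classical
  rw [← Finset.card_product, ← Finset.card_product]
  have maps : ∀ e ∈ U, (tF e, rd (mz b (a * c) z) (em a (eF e)), qF e) ∈
      TT b (a * c) z ×ˢ (KK ×ˢ UU) := by
    intro e he
    obtain ⟨h1, _, _, h4, _⟩ := hU e he
    rw [mem_product, mem_product]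
    exact ⟨h1, hKK _, hUU _ h4⟩
  -- injectivity
  have inj : ∀ e ∈ U, ∀ e' ∈ U,
      (tF e, rd (mz b (a * c) z) (em a (eF e)), qF e) =
        (tF e', rd (mz b (a * c) z) (em a (eF e')), qF e') →
      (∀ i j q, q ≠ 0 → Rf a b i j q (eF e) (F₀ e) (F₁ e) (F₂ e) →
        Rf a b i j q (eF e') (F₀ e') (F₁ e') (F₂ e') → eF e = eF e') → e = e' := by
    intro e he e' he' hee hinj
    simp only [Prod.mk.injEq] at hee
    obtain ⟨h5, h6, h7⟩ := hee
    obtain ⟨ht, hT, _, h4, _, hi, hR⟩ := hU e he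
    obtain ⟨ht', hT', _, h4', _, hi', hR'⟩ := hU e' he'
    rw [← h6, ← h7] at hR'
    have hii : iF e = iF e' := i_unique ha (hQ _).1 hR.hq hR'.hq
    rw [← hii] at hR'
    have h8 : eF e = eF e' := hinj _ _ _ ((hQ _).2 _ h4).ne_zero hR hR'
    rw [← h5, ← h8] at hT'
    exact Tm_inj (TT_ne_zero ht) hT hT'
  refine ⟨?_, ?_, ?_⟩
  · apply Finset.card_le_card_of_injOn (fun e => (tF e, rd (mz b (a * c) z) (em a (eF e)), qF e))
    · intro e he
      rw [mem_coe, mem_filter] at he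
      exact maps e he.1
    · intro e he e' he' hee
      rw [mem_coe, mem_filter] at he he'
      refine inj e he.1 e' he'.1 hee fun i j q _ h1 h2 => ?_
      rw [he'.2] at h2
      rw [he.2] at h1
      exact Rf_inj0 h1 h2
  · apply Finset.card_le_card_of_injOn (fun e => (tF e, rd (mz b (a * c) z) (em a (eF e)), qF e))
    · intro e he
      rw [mem_coe, mem_filter] at he
      exact maps e he.1
    · intro e he e' he' hee
      rw [mem_coe, mem_filter] at he he'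
      refine inj e he.1 e' he'.1 hee fun i j q hq h1 h2 => ?_
      rw [he'.2] at h2
      rw [he.2] at h1
      exact Rf_inj1 hq h1 h2
  · apply Finset.card_le_card_of_injOn (fun e => (tF e, rd (mz b (a * c) z) (em a (eF e)), qF e))
    · intro e he
      rw [mem_coe, mem_filter] at he
      exact maps e he.1
    · intro e he e' he' hee
      rw [mem_coe, mem_filter] at he he'
      refine inj e he.1 e' he'.1 hee fun i j q hq h1 h2 => ?_
      rw [he'.2] at h2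
      rw [he.2] at h1
      exact Rf_inj2 hq h1 h2

lemma ftri_mono (ha : 0 < a) {X₁ X₂ Y₁ Y₂ : ℝ} (h1 : X₁ ≤ Y₁) (h2 : X₂ ≤ Y₂) :
    ftri a b c X₁ X₂ ⊆ ftri a b c Y₁ Y₂ := by
  intro e he
  rw [mem_ftri ha] at he ⊢
  exact ⟨he.1, he.2.1.trans h1, he.2.2.trans h2⟩

/-- sizes -/
lemma size_all (ha : 0 < a) {z : ℕ} (hz : 5 ≤ z) {QQ : Kap b (a * c) z → Finset ℕ}
    {J : Kap b (a * c) z → ℕ} {UU : Finset ℕ} (hUU : ∀ κ, QQ κ ⊆ UU) (hJ : ∀ κ, 1 ≤ J κ)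
    {X : ℝ} (hX : 1 ≤ X) {e e' f₀ f₁ f₂ : Tr}
    {s : Bool × ℕ × ℕ} {q i : ℕ} (he : e ∈ ftri a b c X X)
    (h : Pd a b c z QQ J e s e' q i f₀ f₁ f₂) :
    f₀ ∈ ftri a b c ((Kn a b c * (∑ q ∈ UU, (q : ℝ) ^ 3) * z + 1) * X)
        ((Kn a b c * (∑ q ∈ UU, (q : ℝ) ^ 3) * z + 1) * X) ∧
      f₁ ∈ ftri a b c ((Kn a b c * (∑ q ∈ UU, (q : ℝ) ^ 3) * z + 1) * X)
        ((Kn a b c * (∑ q ∈ UU, (q : ℝ) ^ 3) * z + 1) * X) ∧
      f₂ ∈ ftri a b c ((Kn a b c * (∑ q ∈ UU, (q : ℝ) ^ 3) * z + 1) * X)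
        ((Kn a b c * (∑ q ∈ UU, (q : ℝ) ^ 3) * z + 1) * X) := by
  obtain ⟨ht, hT, _, h4, _, hi, hR⟩ := h
  have hz1 : (1 : ℝ) ≤ z := by exact_mod_cast (by omega : 1 ≤ z)
  have hw := TT_ne_zero ht
  have he' := Tm_ftri ha hw hT he
  rw [mem_ftri ha] at he'
  have hn1 : (1 : ℝ) ≤ s.2.1 := by exact_mod_cast Nat.one_le_iff_ne_zero.2 hw
  have hnz : (s.2.1 : ℝ) ≤ z := by exact_mod_cast TT_le (by omega) ht
  have hX0 : (0 : ℝ) ≤ X := by linarith
  have hdiv : X / s.2.1 ≤ z * X := by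
    rw [div_le_iff₀ (by linarith)]
    have : X * 1 ≤ z * X * s.2.1 := by
      calc X * 1 = 1 * X * 1 := by ring
        _ ≤ z * X * s.2.1 := by gcongr
    linarith
  have hmul : X * s.2.1 ≤ z * X := by
    rw [mul_comm]
    gcongr
  have hB1 : B1 s.1 s.2.1 X ≤ z * X := by
    unfold B1
    split_ifs
    · exact hmul
    · exact hdiv
  have hB2 : B2 s.1 s.2.1 X ≤ z * X := by
    unfold B2
    split_ifs
    · exact hdiv
    · exact hmul
  have hs := size_key ha he'.1 (hJ _) hi hR hX hz1 (he'.2.1.trans hB1) (he'.2.2.trans hB2)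
  have hqs : (q : ℝ) ^ 3 ≤ ∑ q ∈ UU, (q : ℝ) ^ 3 :=
    Finset.single_le_sum (f := fun q : ℕ => (q : ℝ) ^ 3) (fun i _ => by positivity) (hUU _ h4)
  have hle : (Kn a b c : ℝ) * q ^ 3 * z * X ≤ (Kn a b c * (∑ q ∈ UU, (q : ℝ) ^ 3) * z + 1) * X := by
    have h0 : 0 ≤ (Kn a b c : ℝ) * (z * X) := by positivity
    nlinarith [mul_le_mul_of_nonneg_left hqs h0]
  exact ⟨ftri_mono ha hle hle hs.1, ftri_mono ha hle hle hs.2.1, ftri_mono ha hle hle hs.2.2⟩

open scoped Classical in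
/-- the exceptional set of `S_EXC` -/
noncomputable def EX (t c : ℤ) (z : ℕ) (QQ : Kap t c z → Finset ℕ) (J : Kap t c z → ℕ) (A : ℕ)
    (X X₁ X₂ : ℝ) (p : ℕ) : Finset Tr :=
  (tri t c X₁ X₂).filter (fun e => (p ∣ e.1 ∧ p ∣ e.2.2) ∧
      Bad t c z (Real.log X ^ A) (J (rd (mz t c z) e)) (QQ (rd (mz t c z) e)) e)

open scoped Classical in
/-- the triples for which some transform is in the exceptional set -/
noncomputable def E3 (a b c : ℤ) (z : ℕ) (QQ : Kap b (a * c) z → Finset ℕ)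
    (J : Kap b (a * c) z → ℕ) (A : ℕ) (X : ℝ) : Finset Tr :=
  (ftri a b c X X).filter (fun e => ∃ s ∈ TT b (a * c) z, ∃ e', Tm s.1 s.2.1 e e' ∧
    em a e' ∈ EX b (a * c) z QQ J A (a * X) (B1 s.1 s.2.1 X) (a * B2 s.1 s.2.1 X) s.2.2)

lemma card_E3 (ha : 0 < a) {z : ℕ} {QQ : Kap b (a * c) z → Finset ℕ}
    {J : Kap b (a * c) z → ℕ} {A : ℕ} {X b' : ℝ} (hb : 0 ≤ b')
    (h : ∀ s ∈ TT b (a * c) z,
      ((EX b (a * c) z QQ J A (a * X) (B1 s.1 s.2.1 X) (a * B2 s.1 s.2.1 X) s.2.2).card : ℝ) ≤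
      b' / (s.2.2 : ℝ) ^ 2) : ((E3 a b c z QQ J A X).card : ℝ) ≤ 6 * b' := by
  classical
  set R : Bool × ℕ × ℕ → Finset Tr := fun s =>
    (ftri a b c X X).filter (fun e => ∃ e', Tm s.1 s.2.1 e e' ∧
      em a e' ∈ EX b (a * c) z QQ J A (a * X) (B1 s.1 s.2.1 X) (a * B2 s.1 s.2.1 X) s.2.2) with hR
  have hRc : ∀ s ∈ TT b (a * c) z, ((R s).card : ℝ) ≤ b' / (s.2.2 : ℝ) ^ 2 := by
    intro s hs
    refine le_trans ?_ (h s hs)
    have := card_le_rel (R s)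
      (EX b (a * c) z QQ J A (a * X) (B1 s.1 s.2.1 X) (a * B2 s.1 s.2.1 X) s.2.2)
      (fun e E => ∃ e', Tm s.1 s.2.1 e e' ∧ em a e' = E) ?_ ?_
    · exact_mod_cast this
    · intro e he
      rw [hR, mem_filter] at he
      obtain ⟨_, e', h1, h2⟩ := he
      exact ⟨em a e', h2, e', h1, rfl⟩
    · rintro x x' E ⟨e', h1, h2⟩ ⟨e'', h3, h4⟩
      have h5 := em_inj ha (h2.trans h4.symm)
      rw [← h5] at h3
      exact Tm_inj (TT_ne_zero hs) h1 h3
  have hsub : E3 a b c z QQ J A X ⊆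
      R (false, 1, 1) ∪ (PP b (a * c) z).biUnion (fun p => (T3 p).biUnion R) := by
    intro e he
    unfold E3 at he
    rw [mem_filter] at he
    obtain ⟨he, s, hs, e', hT, hE⟩ := he
    have hRt : e ∈ R s := by
      rw [hR, mem_filter]
      exact ⟨he, e', hT, hE⟩
    unfold Pool.Agent.W500.GT.TT at hs
    rw [mem_union, mem_singleton, mem_biUnion] at hs
    rw [mem_union, mem_biUnion]
    rcases hs with rfl | ⟨p, hp, hs⟩
    · exact Or.inl hRt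
    · refine Or.inr ⟨p, hp, ?_⟩
      rw [mem_biUnion]
      exact ⟨s, hs, hRt⟩
  have h1 : ((E3 a b c z QQ J A X).card : ℝ) ≤ (R (false, 1, 1)).card +
      ∑ p ∈ PP b (a * c) z, ∑ s ∈ T3 p, ((R s).card : ℝ) := by
    have h2 := (Finset.card_le_card hsub).trans (Finset.card_union_le _ _)
    have h3 : ((PP b (a * c) z).biUnion (fun p => (T3 p).biUnion R)).card ≤
        ∑ p ∈ PP b (a * c) z, ∑ s ∈ T3 p, (R s).card :=
      Finset.card_biUnion_le.trans (Finset.sum_le_sum fun p _ => Finset.card_biUnion_le)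
    have h4 : (E3 a b c z QQ J A X).card ≤ (R (false, 1, 1)).card +
        ∑ p ∈ PP b (a * c) z, ∑ s ∈ T3 p, (R s).card :=
      h2.trans (Nat.add_le_add_left h3 _)
    exact_mod_cast h4
  have h2 : ((R (false, 1, 1)).card : ℝ) ≤ b' := by
    have := hRc _ (TT_one z)
    simpa using this
  have h3 : ∑ p ∈ PP b (a * c) z, ∑ s ∈ T3 p, ((R s).card : ℝ) ≤ 5 * b' := by
    calc ∑ p ∈ PP b (a * c) z, ∑ s ∈ T3 p, ((R s).card : ℝ)
        ≤ ∑ p ∈ PP b (a * c) z, 5 * (b' * (1 / (p : ℝ) ^ 2)) := by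
          apply Finset.sum_le_sum
          intro p hp
          calc ∑ s ∈ T3 p, ((R s).card : ℝ) ≤ ∑ s ∈ T3 p, b' * (1 / (p : ℝ) ^ 2) := by
                apply Finset.sum_le_sum
                intro s hs
                have := hRc s (TT_mem hp hs)
                have h5 : s.2.2 = p := by
                  unfold Pool.Agent.W500.GT.T3 at hs
                  simp only [mem_insert, mem_singleton] at hs
                  rcases hs with rfl | rfl | rfl <;> rfl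
                rw [h5] at this
                rw [mul_one_div]
                exact this
            _ = (T3 p).card * (b' * (1 / (p : ℝ) ^ 2)) := by
                rw [Finset.sum_const, nsmul_eq_mul]
            _ ≤ 5 * (b' * (1 / (p : ℝ) ^ 2)) := by
                gcongr
                have : (T3 p).card ≤ 3 := by
                  unfold Pool.Agent.W500.GT.T3
                  exact Finset.card_le_three
                have : (T3 p).card ≤ 5 := by omega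
                exact_mod_cast this
      _ = 5 * b' * ∑ p ∈ PP b (a * c) z, 1 / (p : ℝ) ^ 2 := by
          rw [Finset.mul_sum]
          apply Finset.sum_congr rfl
          intro p _
          ring
      _ ≤ 5 * b' * 1 := by
          gcongr
          exact sum_PP_le b (a * c) z
      _ = 5 * b' := by ring
  linarith

/-- few triples with a vertex without prime divisors from the candidate sets -/
lemma card_E2 {ι : Type*} [DecidableEq ι] {C3 C4 δ κ X S0 : ℝ} (hC3 : 0 < C3) (hC4 : 0 < C4)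
    (hκ : 0 < κ) (hκ2 : C3 * κ ≤ δ / 8) (hX : 0 ≤ X)
    {M : ℝ} (hM : 0 ≤ M) (hS : 8 * C3 * C4 * M * Real.exp (-S0) ≤ δ * κ)
    {RR : Finset ι} {QQ : ι → Finset ℕ} (hRR : (RR.card : ℝ) ≤ M)
    (hQ : ∀ r ∈ RR, (∀ q ∈ QQ r, q.Prime) ∧ S0 ≤ ∑ q ∈ QQ r, 1 / (q : ℝ))
    {V : ι → Finset (ℕ × ℤ)}
    (hV : ∀ r ∈ RR, ((V r).card : ℝ) ≤ C4 * (∏ q ∈ QQ r, (1 - 1 / (q : ℝ))) * X)
    {N : ℝ}
    (hN : N ≤ C3 * (κ * X + ((RR.biUnion V).card : ℝ) / κ)) : N ≤ δ / 4 * X := by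
  classical
  have h1 : ∀ r ∈ RR, ((V r).card : ℝ) ≤ C4 * Real.exp (-S0) * X := by
    intro r hr
    refine (hV r hr).trans ?_
    have h2 := prod_le_exp (QQ r) (hQ r hr).1
    have h3 : Real.exp (-∑ q ∈ QQ r, 1 / (q : ℝ)) ≤ Real.exp (-S0) := by
      apply Real.exp_le_exp.2
      linarith [(hQ r hr).2]
    gcongr
    exact h2.trans h3
  have h2 : ((RR.biUnion V).card : ℝ) ≤ C4 * M * Real.exp (-S0) * X := by
    have h3 : ((RR.biUnion V).card : ℝ) ≤ ∑ r ∈ RR, ((V r).card : ℝ) := by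
      have : (RR.biUnion V).card ≤ ∑ r ∈ RR, (V r).card := Finset.card_biUnion_le
      exact_mod_cast this
    have h4 : ∑ r ∈ RR, ((V r).card : ℝ) ≤ ∑ r ∈ RR, C4 * Real.exp (-S0) * X :=
      Finset.sum_le_sum h1
    rw [Finset.sum_const, nsmul_eq_mul] at h4
    have h6 : 0 ≤ C4 * Real.exp (-S0) * X := by positivity
    have h7 := mul_le_mul_of_nonneg_right hRR h6
    calc ((RR.biUnion V).card : ℝ) ≤ M * (C4 * Real.exp (-S0) * X) := by linarith
      _ = C4 * M * Real.exp (-S0) * X := by ring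
  have h3 : C3 * (((RR.biUnion V).card : ℝ) / κ) ≤ δ / 8 * X := by
    rw [mul_div_assoc', div_le_iff₀ hκ]
    calc C3 * ((RR.biUnion V).card : ℝ) ≤ C3 * (C4 * M * Real.exp (-S0) * X) := by gcongr
      _ = (8 * C3 * C4 * M * Real.exp (-S0)) * (X / 8) := by ring
      _ ≤ (δ * κ) * (X / 8) := by gcongr
      _ = δ / 8 * X * κ := by ring
  have h4 : C3 * (κ * X) ≤ δ / 8 * X := by
    rw [← mul_assoc]
    gcongr
  rw [mul_add] at hN
  linarith

/-- the choice of the constant `S₀` -/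
lemma exists_S0 {C3 δ κ : ℝ} (t c : ℤ) (hC3 : 0 ≤ C3) (hδ : 0 < δ) (hκ : 0 < κ) :
    ∃ lK : ℝ, 0 ≤ lK ∧ ∀ z : ℕ,
      C3 * (mz t c z : ℝ) ^ 3 * Real.exp (-(lK + 3 * (z * Real.log 16) + 1)) ≤ δ * κ := by
  set K : ℝ := max 1 (C3 / (δ * κ)) with hK
  have hK1 : 1 ≤ K := le_max_left _ _
  have hK2 : C3 / (δ * κ) ≤ K := le_max_right _ _
  have hδκ : 0 < δ * κ := by positivity
  rw [div_le_iff₀ hδκ] at hK2
  refine ⟨Real.log K, Real.log_nonneg hK1, fun z => ?_⟩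
  have hm : (mz t c z : ℝ) ≤ 16 ^ z := by exact_mod_cast mz_le t c z
  have hm3 : (mz t c z : ℝ) ^ 3 ≤ (16 ^ z) ^ 3 := by gcongr
  have hexp : Real.exp (-(Real.log K + 3 * (z * Real.log 16) + 1)) ≤ 1 / (K * (16 ^ z) ^ 3) := by
    have h0 : Real.exp (3 * (z * Real.log 16)) = ((16 : ℝ) ^ z) ^ 3 := by
      have e1 : (3 : ℝ) * (z * Real.log 16) = ((3 : ℕ) : ℝ) * (z * Real.log 16) := by norm_num
      rw [e1, Real.exp_nat_mul, Real.exp_nat_mul, Real.exp_log (by norm_num)]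
    have h1 : Real.exp (-(Real.log K + 3 * (z * Real.log 16) + 1)) =
        Real.exp (-1) / (K * (16 ^ z) ^ 3) := by
      rw [neg_add, Real.exp_add, Real.exp_neg (Real.log K + _), Real.exp_add,
        Real.exp_log (by linarith), h0]
      field_simp
    rw [h1]
    have h2 : Real.exp (-1) ≤ 1 := by
      rw [Real.exp_le_one_iff]
      norm_num
    gcongr
  have hm0 : (0 : ℝ) ≤ mz t c z := by positivity
  calc C3 * (mz t c z : ℝ) ^ 3 * Real.exp (-(Real.log K + 3 * (z * Real.log 16) + 1))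
      ≤ (K * (δ * κ)) * (16 ^ z) ^ 3 * (1 / (K * (16 ^ z) ^ 3)) := by
        have h5 : C3 ≤ K * (δ * κ) := hK2
        gcongr
    _ = δ * κ := by
        have : K ≠ 0 := by linarith
        field_simp

/-- the choice of `z` -/
lemma exists_z {C1 C2 δ lK : ℝ} (Z : ℕ) (hC1 : 0 < C1) (hδ : 0 < δ) (hlK : 0 ≤ lK) :
    ∃ z : ℕ, 5 ≤ z ∧ Z ≤ z ∧ C2 / z ≤ δ / 8 ∧
      6 * (C1 * (lK + 3 * (z * Real.log 16) + 1 + 1) / (z * Real.log z)) ≤ δ / 8 := by
  have hl16 : 0 < Real.log 16 := Real.log_pos (by norm_num)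
  set c := lK + 3 * Real.log 16 + 2 with hc
  have hc0 : 0 < c := by positivity
  obtain ⟨z, hz5, hzZ, hz1, hz2⟩ : ∃ z : ℕ, 5 ≤ z ∧ Z ≤ z ∧ 8 * C2 / δ ≤ z ∧
      48 * C1 * c / δ ≤ Real.log z := by
    have t1 : Tendsto (fun z : ℕ => (z : ℝ)) atTop atTop := tendsto_natCast_atTop_atTop
    have t2 : Tendsto (fun z : ℕ => Real.log (z : ℝ)) atTop atTop :=
      Real.tendsto_log_atTop.comp t1
    have h := (((eventually_ge_atTop 5).and (eventually_ge_atTop Z)).and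
      (t1.eventually_ge_atTop (8 * C2 / δ))).and
      (t2.eventually_ge_atTop (48 * C1 * c / δ))
    obtain ⟨z, ⟨⟨h1, h0⟩, h2⟩, h3⟩ := h.exists
    exact ⟨z, h1, h0, h2, h3⟩
  have hzR : (5 : ℝ) ≤ z := by exact_mod_cast hz5
  have hz0 : (0 : ℝ) < z := by linarith
  have hlz : 0 < Real.log z := Real.log_pos (by linarith)
  refine ⟨z, hz5, hzZ, ?_, ?_⟩
  · rw [div_le_iff₀ hz0]
    rw [div_le_iff₀ hδ] at hz1
    nlinarith
  · rw [div_le_iff₀ hδ] at hz2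
    have h1 : lK + 3 * (z * Real.log 16) + 1 + 1 ≤ z * c := by
      rw [hc]
      nlinarith
    have h2 : C1 * (lK + 3 * (z * Real.log 16) + 1 + 1) / (z * Real.log z) ≤
        C1 * c / Real.log z := by
      rw [div_le_div_iff₀ (by positivity) hlz]
      have := mul_le_mul_of_nonneg_left h1 (by positivity : 0 ≤ C1 * Real.log z)
      nlinarith
    have h3 : C1 * c / Real.log z ≤ δ / 48 := by
      rw [div_le_iff₀ hlz]
      nlinarith
    linarith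

end Pool.Agent.K9h53.LX
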